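import Pool.Agent.Helper60K9.EL.Stm

/-!
# [REG] a nondegenerate rational supertrace: von Neumann regular
-/

set_option autoImplicit false

namespace Pool.Agent.Helper60K9.EL

namespace RegL

variable {D : Type} [Ring D]

theorem vnr (h : IsSemisimpleRing D) (a : D) : ∃ u : D, a * u * a = a := by
  obtain ⟨g, hg, hs⟩ := IsSemisimpleRing.ideal_eq_span_idempotent (Ideal.span {a})
  have h1 : g ∈ Ideal.span {a} := by rw [hs]; exact Ideal.subset_span rfl
  have h2 : a ∈ Ideal.span {g} := by rw [← hs]; exact Ideal.subset_span rfl
  obtain ⟨u, hu⟩ := Ideal.mem_span_singleton'.1 h1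
  obtain ⟨v, hv⟩ := Ideal.mem_span_singleton'.1 h2
  refine ⟨u, ?_⟩
  rw [mul_assoc, hu, ← hv, mul_assoc, hg.eq]

end RegL

theorem reg : S_REG := by
  intro K V _ _ _ _ _ σ R hσ hc hcomm htr hnd D hD
  classical
  -- the algebra structure
  let f : ℚ →+* R :=
    { toFun := fun c => ⟨(c : K) • (1 : Module.End K V), hc c 1 R.one_mem⟩
      map_one' := Subtype.ext (by simp)
      map_mul' := fun a b => Subtype.ext (by
        show ((a * b : ℚ) : K) • (1 : Module.End K V) =
          ((a : K) • (1 : Module.End K V)) * ((b : K) • (1 : Module.End K V))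
        rw [smul_mul_smul_comm, mul_one]; push_cast; rfl)
      map_zero' := Subtype.ext (by simp)
      map_add' := fun a b => Subtype.ext (by
        show ((a + b : ℚ) : K) • (1 : Module.End K V) =
          ((a : K) • (1 : Module.End K V)) + ((b : K) • (1 : Module.End K V))
        rw [← add_smul]; push_cast; rfl) }
  letI alg : Algebra ℚ R := RingHom.toAlgebra' f (fun c x => Subtype.ext (by
    show ((c : K) • (1 : Module.End K V)) * (x : Module.End K V) =
      (x : Module.End K V) * ((c : K) • (1 : Module.End K V))
    rw [smul_mul_assoc, mul_smul_comm, one_mul, mul_one]))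
  -- finite dimension
  let S : Submodule K (Module.End K V) := Submodule.span K (R : Set (Module.End K V))
  have hfg : S.FG := IsNoetherian.noetherian S
  obtain ⟨s, hsR, hs⟩ := Submodule.fg_span_iff_fg_span_finset_subset _ |>.1 hfg
  have hchoose : ∀ x : R, ∀ y : s, ∃ c : ℚ,
      LinearMap.trace K V (σ * ((y : Module.End K V) * (x : Module.End K V))) = (c : K) :=
    fun x y => htr _ (R.mul_mem (hsR y.2) x.2)
  choose t ht using hchoose
  have hspan : ∀ x : R, (∀ y : s, LinearMap.trace K V
      (σ * ((y : Module.End K V) * (x : Module.End K V))) = 0) →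
      ∀ y ∈ Submodule.span K (s : Set (Module.End K V)),
        LinearMap.trace K V (σ * (y * (x : Module.End K V))) = 0 := by
    intro x hx y hy
    induction hy using Submodule.span_induction with
    | mem y hy' => exact hx ⟨y, hy'⟩
    | zero => simp
    | add a b _ _ ha hb => rw [add_mul, mul_add, map_add, ha, hb, add_zero]
    | smul c a _ ha => rw [smul_mul_assoc, mul_smul_comm, map_smul, ha, smul_zero]
  let φ₀ : R →+ (s → ℚ) :=
    { toFun := t
      map_zero' := by
        funext y
        have h := ht 0 y
        simp only [ZeroMemClass.coe_zero, mul_zero, map_zero] at h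
        exact (by exact_mod_cast h.symm : t 0 y = 0)
      map_add' := fun a b => by
        funext y
        have h := ht (a + b) y
        have ha := ht a y
        have hb := ht b y
        rw [Subring.coe_add, mul_add, mul_add, map_add, ha, hb] at h
        have h' : t (a + b) y = t a y + t b y := by exact_mod_cast h.symm
        exact h' }
  have hφ : Function.Injective φ₀ := by
    rw [injective_iff_map_eq_zero]
    intro x hx
    apply Subtype.ext
    apply hnd x.1 x.2
    intro y hy
    refine hspan x (fun y => ?_) y (by rw [← hs]; exact Submodule.subset_span hy)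
    have h0 : t x y = 0 := congrFun hx y
    rw [ht x y, h0, Rat.cast_zero]
  haveI hfin : Module.Finite ℚ R :=
    Module.Finite.of_injective φ₀.toRatLinearMap hφ
  haveI hart : IsArtinianRing R := IsArtinianRing.of_finite ℚ R
  have hjac : Ring.jacobson R = ⊥ := by
    rw [eq_bot_iff]
    intro x hx
    rw [Submodule.mem_bot]
    apply Subtype.ext
    apply hnd x.1 x.2
    intro y hy
    have hnil : IsNilpotent ((⟨y, hy⟩ : R) * x) := by
      have h1 : (⟨y, hy⟩ : R) * x ∈ Ring.jacobson R := (Ring.jacobson R).mul_mem_left _ hx
      obtain ⟨n, hn⟩ := (IsSemiprimaryRing.isNilpotent : IsNilpotent (Ring.jacobson R))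
      refine ⟨n, ?_⟩
      have h2 : ((⟨y, hy⟩ : R) * x) ^ n ∈ (Ring.jacobson R) ^ n := Ideal.pow_mem_pow h1 n
      rw [hn] at h2
      simpa using h2
    have hnil' : IsNilpotent (y * (x : Module.End K V)) := by
      obtain ⟨n, hn⟩ := hnil
      refine ⟨n, ?_⟩
      have := congrArg (Subtype.val : R → Module.End K V) hn
      simpa using this
    have hcm : Commute σ (y * (x : Module.End K V)) := hcomm _ (R.mul_mem hy x.2)
    exact (LinearMap.isNilpotent_trace_of_isNilpotent (hcm.isNilpotent_mul_left hnil')).eq_zero
  have hss : IsSemisimpleRing R := IsArtinianRing.isSemisimpleRing_iff_jacobson.2 hjac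
  obtain ⟨C, hC⟩ := RegL.vnr hss ⟨D, hD⟩
  exact ⟨C.1, C.2, congrArg (Subtype.val : R → Module.End K V) hC⟩

end Pool.Agent.Helper60K9.EL
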