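import Pool.Agent.Helper60K9.EL.Trd

/-! Leaf ADD (helper61) -/

set_option autoImplicit false

open CategoryTheory Polynomial Pool.Agent.Helper11K9.Dens

universe u

namespace Pool.Agent.Helper60K9.EL

namespace AddL

theorem tr_congr {K H : Type} [Field K] [AddCommGroup H] [Module K H] (F : Module.End K H)
    (U U' : Submodule K H) (h : U = U') (hU : ∀ x ∈ U, F x ∈ U) (hU' : ∀ x ∈ U', F x ∈ U')
    (m : ℕ) : LinearMap.trace K U ((F.restrict hU) ^ m) =
      LinearMap.trace K U' ((F.restrict hU') ^ m) := by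
  subst h
  rfl

end AddL

theorem add : S_ADD := by
  intro K H _ _ _ _ F N fil A n hmono h0 hn hfA hAf hkA hlift hN hf hA m
  have hst : ∀ b, ∀ x ∈ LinearMap.ker N ⊓ fil b, F x ∈ LinearMap.ker N ⊓ fil b :=
    fun b x hx => ⟨hN x hx.1, hf b x hx.2⟩
  have step : ∀ b, LinearMap.trace K (A b) ((F.restrict (hA b)) ^ m) -
      LinearMap.trace K (fil b) ((F.restrict (hf b)) ^ m) =
      LinearMap.trace K (LinearMap.ker N ⊓ fil (b + 1) : Submodule K H)
        ((F.restrict (hst (b + 1))) ^ m) -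
      LinearMap.trace K (LinearMap.ker N ⊓ fil b : Submodule K H) ((F.restrict (hst b)) ^ m) := by
    intro b
    let R : Submodule K (H × H) :=
      (LinearMap.ker N ⊓ fil (b + 1)).comap (LinearMap.fst K H H) ⊓
        (A b).comap (LinearMap.snd K H H) ⊓
        (fil b).comap (LinearMap.fst K H H - LinearMap.snd K H H)
    have hR : ∀ x y, (x, y) ∈ R ↔ (x ∈ LinearMap.ker N ⊓ fil (b + 1) ∧ y ∈ A b) ∧
        x - y ∈ fil b := fun x y => Iff.rfl
    refine rel K H H F F R (LinearMap.ker N ⊓ fil (b + 1)) (LinearMap.ker N ⊓ fil b) (A b)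
      (fil b) ?_ ?_ ?_ ?_ ?_ (hst (b + 1)) (hst b) (hA b) (hf b) m
    · intro x
      constructor
      · intro hx
        refine ⟨x, (hR x x).2 ⟨⟨hx, hkA b hx⟩, ?_⟩⟩
        rw [sub_self]
        exact Submodule.zero_mem _
      · rintro ⟨y, hy⟩
        exact ((hR x y).1 hy).1.1
    · intro y
      constructor
      · intro hy
        obtain ⟨h', hN', hf', hd⟩ := hlift b y hy
        refine ⟨h', (hR h' y).2 ⟨⟨⟨LinearMap.mem_ker.2 hN', hf'⟩, hy⟩, ?_⟩⟩
        rw [← neg_sub]
        exact Submodule.neg_mem _ hd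
      · rintro ⟨x, hx⟩
        exact ((hR x y).1 hx).1.2
    · intro x
      constructor
      · intro hx
        refine (hR x 0).2 ⟨⟨⟨hx.1, hmono (Nat.le_succ b) hx.2⟩, Submodule.zero_mem _⟩, ?_⟩
        rw [sub_zero]
        exact hx.2
      · intro hx
        have h1 := (hR x 0).1 hx
        refine ⟨h1.1.1.1, ?_⟩
        have h2 := h1.2
        rwa [sub_zero] at h2
    · intro y
      constructor
      · intro hy
        refine (hR 0 y).2 ⟨⟨Submodule.zero_mem _, hfA b hy⟩, ?_⟩
        rw [zero_sub]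
        exact Submodule.neg_mem _ hy
      · intro hy
        have h2 := ((hR 0 y).1 hy).2
        rw [zero_sub] at h2
        have h3 := Submodule.neg_mem _ h2
        rwa [neg_neg] at h3
    · intro x y hxy
      have h1 := (hR x y).1 hxy
      refine (hR _ _).2 ⟨⟨hst (b + 1) x h1.1.1, hA b y h1.1.2⟩, ?_⟩
      rw [← map_sub]
      exact hf b _ h1.2
  rw [Finset.sum_congr rfl fun b _ => step b,
    Finset.sum_range_sub (fun b => LinearMap.trace K (LinearMap.ker N ⊓ fil b : Submodule K H)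
      ((F.restrict (hst b)) ^ m)) n]
  have e1 : LinearMap.trace K (LinearMap.ker N ⊓ fil n : Submodule K H)
      ((F.restrict (hst n)) ^ m) = LinearMap.trace K (LinearMap.ker N) ((F.restrict hN) ^ m) :=
    AddL.tr_congr F _ _ (by rw [hn, inf_top_eq]) _ _ m
  have e2 : LinearMap.trace K (LinearMap.ker N ⊓ fil 0 : Submodule K H)
      ((F.restrict (hst 0)) ^ m) = 0 := by
    have hbot : ∀ x ∈ (⊥ : Submodule K H), F x ∈ (⊥ : Submodule K H) := by
      intro x hx
      rw [Submodule.mem_bot] at hx ⊢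
      rw [hx, map_zero]
    rw [AddL.tr_congr F _ ⊥ (by rw [h0, inf_bot_eq]) _ hbot m]
    have : ((F.restrict hbot) ^ m) = 0 := by
      ext x
    rw [this, map_zero]
  show _ = LinearMap.trace K (LinearMap.ker N ⊓ fil n : Submodule K H) _ -
    LinearMap.trace K (LinearMap.ker N ⊓ fil 0 : Submodule K H) _
  rw [e1, e2, sub_zero]

end Pool.Agent.Helper60K9.EL

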