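import Pool.Agent.Helper60K9.EL.Stm

/-! Leaf CHR (helper61): Newton's identities for matrices and rationality of characteristic
polynomials -/

set_option autoImplicit false

open CategoryTheory Polynomial Pool.Agent.Helper11K9.Dens

universe u

namespace Pool.Agent.Helper60K9.EL

namespace ChrL

variable {K : Type} [Field K] {n : Type} [Fintype n] [DecidableEq n]

/-- `χ'(t) = χ(t) tr ((t - M)⁻¹)` -/
theorem der (M B : Matrix n n K) (t : K) (hB : (Matrix.scalar n t - M) * B = 1) :
    (derivative M.charpoly).eval t = M.charpoly.eval t * B.trace := by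
  have h1 : (M.map (C : K →+* K[X])).charpoly.eval (C t + X) =
      C (M.charpoly.eval t) * Matrix.det (1 + (X : K[X]) • B.map C) := by
    rw [Matrix.eval_charpoly, Matrix.eval_charpoly]
    have h2 : (C : K →+* K[X]) (Matrix.scalar n t - M).det =
        ((Matrix.scalar n t - M).map (C : K →+* K[X])).det := by
      rw [RingHom.map_det, RingHom.mapMatrix_apply]
    rw [h2, ← Matrix.det_mul]
    congr 1
    have h3 : ((Matrix.scalar n t - M).map (C : K →+* K[X])) * B.map C = 1 := by
      have h := congrArg (fun N : Matrix n n K => N.map (C : K →+* K[X])) hB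
      simp only [Matrix.map_mul] at h
      rw [h, Matrix.map_one _ (map_zero _) (map_one _)]
    rw [mul_add, mul_one, Matrix.mul_smul, h3]
    ext i j : 2
    by_cases hij : i = j
    · subst hij
      simp [Matrix.scalar_apply]
      ring
    · simp [Matrix.scalar_apply, hij]
  rw [Matrix.charpoly_map, Polynomial.eval_map] at h1
  have h4 := congrArg (fun p : K[X] => (derivative p).eval 0) h1
  simp only [derivative_C_mul, eval_mul, eval_C, Matrix.derivative_det_one_add_X_smul] at h4
  rw [← h4]
  show _ = (derivative (M.charpoly.comp (C t + X))).eval 0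
  rw [derivative_comp]
  simp

/-- `χ(t) tr ((t - M)⁻¹) = ∑ c i ∑ t ^ j tr (M ^ (i - 1 - j))` -/
theorem res (M B : Matrix n n K) (t : K) (hB : B * (Matrix.scalar n t - M) = 1) :
    M.charpoly.eval t * B.trace = ∑ i ∈ Finset.range (Fintype.card n + 1),
      ∑ j ∈ Finset.range i, M.charpoly.coeff i * (M ^ (i - 1 - j)).trace * t ^ j := by
  have hdeg : M.charpoly.natDegree = Fintype.card n := M.charpoly_natDegree_eq_dim
  have hCH : ∑ i ∈ Finset.range (Fintype.card n + 1), M.charpoly.coeff i • M ^ i = 0 := by
    have h := Matrix.aeval_self_charpoly M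
    rw [aeval_eq_sum_range, hdeg] at h
    exact h
  have hev : ∑ i ∈ Finset.range (Fintype.card n + 1), M.charpoly.coeff i * t ^ i =
      M.charpoly.eval t := by
    rw [eval_eq_sum_range, hdeg]
  set Q : Matrix n n K := ∑ i ∈ Finset.range (Fintype.card n + 1), M.charpoly.coeff i •
    ∑ j ∈ Finset.range i, (Matrix.scalar n t) ^ j * M ^ (i - 1 - j) with hQ
  have hcomm : Commute (Matrix.scalar n t) M := Matrix.scalar_commute t (fun _ => Commute.all _ _) M
  have hAQ : (Matrix.scalar n t - M) * Q = M.charpoly.eval t • (1 : Matrix n n K) := by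
    rw [hQ, Finset.mul_sum]
    have h5 : ∀ i ∈ Finset.range (Fintype.card n + 1), (Matrix.scalar n t - M) *
        M.charpoly.coeff i • ∑ j ∈ Finset.range i, (Matrix.scalar n t) ^ j * M ^ (i - 1 - j) =
        (M.charpoly.coeff i * t ^ i) • (1 : Matrix n n K) - M.charpoly.coeff i • M ^ i := by
      intro i _
      rw [Matrix.mul_smul, hcomm.mul_geom_sum₂, smul_sub, ← map_pow, mul_smul]
      congr 2
      ext a b
      simp [Matrix.scalar_apply, Matrix.one_apply, Matrix.diagonal_apply]
    rw [Finset.sum_congr rfl h5, Finset.sum_sub_distrib, hCH, sub_zero, ← Finset.sum_smul, hev]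
  have hQB : Q = M.charpoly.eval t • B := by
    calc Q = B * (Matrix.scalar n t - M) * Q := by rw [hB, one_mul]
      _ = B * ((Matrix.scalar n t - M) * Q) := by rw [mul_assoc]
      _ = _ := by rw [hAQ, Matrix.mul_smul, mul_one]
  have h6 : M.charpoly.eval t * B.trace = Q.trace := by
    rw [hQB, Matrix.trace_smul, smul_eq_mul]
  rw [h6, hQ, Matrix.trace_sum]
  refine Finset.sum_congr rfl fun i _ => ?_
  rw [Matrix.trace_smul, Matrix.trace_sum, smul_eq_mul, Finset.mul_sum]
  refine Finset.sum_congr rfl fun j _ => ?_
  have h7 : (Matrix.scalar n t) ^ j * M ^ (i - 1 - j) = t ^ j • M ^ (i - 1 - j) := by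
    rw [← map_pow]
    ext a b
    simp [Matrix.scalar_apply, Matrix.diagonal_mul]
  rw [h7, Matrix.trace_smul, smul_eq_mul]
  ring

/-- Newton's identities: `χ' = ∑ c i ∑ tr (M ^ (i - 1 - j)) X ^ j` -/
theorem newt [CharZero K] (M : Matrix n n K) :
    derivative M.charpoly = ∑ i ∈ Finset.range (Fintype.card n + 1),
      ∑ j ∈ Finset.range i, C (M.charpoly.coeff i * (M ^ (i - 1 - j)).trace) * X ^ j := by
  refine Polynomial.eq_of_infinite_eval_eq _ _ ?_
  have hfin : {t : K | M.charpoly.IsRoot t}.Finite :=
    Polynomial.finite_setOfPred_isRoot M.charpoly_monic.ne_zero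
  refine hfin.infinite_compl.mono fun t ht => ?_
  have ht' : M.charpoly.eval t ≠ 0 := fun h => ht h
  have hu : IsUnit (Matrix.scalar n t - M).det := by
    rw [← Matrix.eval_charpoly]
    exact isUnit_iff_ne_zero.2 ht'
  have e1 := der M (Matrix.scalar n t - M)⁻¹ t (Matrix.mul_nonsing_inv _ hu)
  have e2 := res M (Matrix.scalar n t - M)⁻¹ t (Matrix.nonsing_inv_mul _ hu)
  show Polynomial.eval t _ = Polynomial.eval t _
  rw [e1, e2]
  simp only [Polynomial.eval_finsetSum, eval_mul, eval_C, eval_pow, eval_X]

/-- Newton's identities for the coefficients -/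
theorem newtc [CharZero K] (M : Matrix n n K) (J : ℕ) (hJ : J < Fintype.card n) :
    ((J : K) - (Fintype.card n : K)) * M.charpoly.coeff J =
      ∑ i ∈ (Finset.range (Fintype.card n + 1)).filter (fun i => J < i),
        M.charpoly.coeff i * (M ^ (i - J)).trace := by
  have key : (J : K) * M.charpoly.coeff J =
      ∑ i ∈ (Finset.range (Fintype.card n + 1)).filter (fun i => J ≤ i),
        M.charpoly.coeff i * (M ^ (i - J)).trace := by
    rcases Nat.eq_zero_or_pos J with h0 | h0
    · subst h0
      have hCH : ∑ i ∈ Finset.range (Fintype.card n + 1), M.charpoly.coeff i • M ^ i = 0 := by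
        have h := Matrix.aeval_self_charpoly M
        rw [aeval_eq_sum_range, M.charpoly_natDegree_eq_dim] at h
        exact h
      have h1 := congrArg Matrix.trace hCH
      rw [Matrix.trace_sum, Matrix.trace_zero] at h1
      simp only [Matrix.trace_smul, smul_eq_mul] at h1
      simp only [Nat.cast_zero, zero_mul, Nat.zero_le, Finset.filter_true, Nat.sub_zero]
      exact h1.symm
    · obtain ⟨j, rfl⟩ : ∃ j, J = j + 1 := ⟨J - 1, by omega⟩
      have h1 := congrArg (fun p : K[X] => p.coeff j) (newt M)
      simp only [coeff_derivative, finsetSum_coeff, coeff_C_mul, coeff_X_pow] at h1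
      rw [mul_comm] at h1
      push_cast
      rw [h1, Finset.sum_filter]
      refine Finset.sum_congr rfl fun i _ => ?_
      by_cases hi : j + 1 ≤ i
      · rw [if_pos hi, Finset.sum_eq_single j]
        · rw [if_pos rfl, mul_one]
          congr 3
          omega
        · intro b _ hb
          rw [if_neg (Ne.symm hb), mul_zero]
        · intro hb
          exact absurd (Finset.mem_range.2 (by omega)) hb
      · rw [if_neg hi]
        refine Finset.sum_eq_zero fun b hb => ?_
        have := Finset.mem_range.1 hb
        rw [if_neg (by omega), mul_zero]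
  have hsplit : (Finset.range (Fintype.card n + 1)).filter (fun i => J ≤ i) =
      insert J ((Finset.range (Fintype.card n + 1)).filter (fun i => J < i)) := by
    ext i
    simp only [Finset.mem_filter, Finset.mem_range, Finset.mem_insert]
    omega
  rw [hsplit, Finset.sum_insert (by simp), Nat.sub_self, pow_zero, Matrix.trace_one] at key
  rw [sub_mul, key]
  ring

end ChrL

theorem chr : S_CHR := by
  classical
  intro Λ K V _ _ _ _ _ F hF
  rcases isEmpty_or_nonempty Λ with hΛ | ⟨⟨l₀⟩⟩
  · exact ⟨0, fun l => (hΛ.false l).elim⟩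
  choose c hc using hF
  -- all dimensions agree
  have hdim : ∀ l, Module.finrank (K l) (V l) = Module.finrank (K l₀) (V l₀) := by
    have h1 : ∀ l, ((Module.finrank (K l) (V l) : ℕ) : ℚ) = c 0 := by
      intro l
      have h := hc 0 l
      rw [pow_zero, LinearMap.trace_one] at h
      have h2 : (((Module.finrank (K l) (V l) : ℕ) : ℚ) : K l) = ((c 0 : ℚ) : K l) := by
        rw [← h]
        push_cast
        rfl
      exact Rat.cast_injective h2
    intro l
    have := (h1 l).trans (h1 l₀).symm
    exact_mod_cast this
  set d := Module.finrank (K l₀) (V l₀) with hd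
  let b := fun l => Module.finBasisOfFinrankEq (K l) (V l) (hdim l)
  let M := fun l => LinearMap.toMatrix (b l) (b l) (F l)
  have hchar : ∀ l, (F l).charpoly = (M l).charpoly := fun l =>
    (LinearMap.charpoly_toMatrix (F l) (b l)).symm
  have htr : ∀ m l, ((M l) ^ m).trace = ((c m : ℚ) : K l) := by
    intro m l
    rw [← hc m l, LinearMap.trace_eq_matrix_trace (K l) (b l), ← LinearMap.toMatrix_pow]
  have hcoeff : ∀ k, k ≤ d → ∃ q : ℚ, ∀ l, (M l).charpoly.coeff (d - k) = ((q : ℚ) : K l) := by
    intro k
    induction k using Nat.strong_induction_on with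
    | _ k ih =>
      intro hk
      rcases Nat.eq_zero_or_pos k with h0 | h0
      · subst h0
        refine ⟨1, fun l => ?_⟩
        have h1 := (M l).charpoly_monic.coeff_natDegree
        rw [(M l).charpoly_natDegree_eq_dim, Fintype.card_fin] at h1
        rw [Nat.sub_zero, h1, Rat.cast_one]
      · have ih' : ∀ i, d - k < i → i ≤ d → ∃ q : ℚ, ∀ l,
            (M l).charpoly.coeff i = ((q : ℚ) : K l) := by
          intro i hi hi'
          obtain ⟨q, hq⟩ := ih (d - i) (by omega) (by omega)
          refine ⟨q, fun l => ?_⟩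
          rw [← hq l]
          congr 1
          omega
        choose! e he using ih'
        refine ⟨(((d - k : ℕ) : ℚ) - (d : ℚ))⁻¹ * ∑ i ∈ (Finset.range (d + 1)).filter
          (fun i => d - k < i), e i * c (i - (d - k)), fun l => ?_⟩
        have h1 := ChrL.newtc (M l) (d - k) (by rw [Fintype.card_fin]; omega)
        rw [Fintype.card_fin] at h1
        have h2 : (((d - k : ℕ) : K l) - (d : K l)) ≠ 0 := by
          rw [sub_ne_zero]
          exact_mod_cast (by omega : d - k ≠ d)
        rw [eq_comm]
        push_cast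
        rw [inv_mul_eq_iff_eq_mul₀ h2, h1]
        refine Finset.sum_congr rfl fun i hi => ?_
        simp only [Finset.mem_filter, Finset.mem_range] at hi
        rw [he i hi.2 (by omega) l, htr]
  choose! q hq using hcoeff
  refine ⟨∑ j ∈ Finset.range (d + 1), C (q (d - j)) * X ^ j, fun l => ?_⟩
  rw [hchar l]
  ext j
  rw [coeff_map, finsetSum_coeff]
  simp only [coeff_C_mul, coeff_X_pow]
  by_cases hj : j ≤ d
  · rw [Finset.sum_eq_single j]
    · rw [if_pos rfl, mul_one]
      have h1 := hq (d - j) (by omega) l
      rw [show d - (d - j) = j by omega] at h1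
      rw [h1]
      rfl
    · intro i _ hi
      rw [if_neg (Ne.symm hi), mul_zero]
    · intro hi
      exact absurd (Finset.mem_range.2 (by omega)) hi
  · rw [Finset.sum_eq_zero, map_zero]
    · apply coeff_eq_zero_of_natDegree_lt
      rw [(M l).charpoly_natDegree_eq_dim, Fintype.card_fin]
      omega
    · intro i hi
      have := Finset.mem_range.1 hi
      rw [if_neg (by omega), mul_zero]

end Pool.Agent.Helper60K9.EL

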