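import Pool.Agent.Helper60K9.EL.Stm2

/-!
# Comparison of the two forms of the definitions
-/

set_option autoImplicit false

open CategoryTheory Polynomial

universe u

namespace Pool.Agent.Helper60K9.EL

open Pool.Agent.H914 Pool.Agent.H914.VarClass Pool.Agent.H914.VarClass.Obj
  Pool.Agent.H914.WeilCohomology Pool.Agent.Helper7K9.OL Pool.Agent.Helper11K9.Dens

variable {k : Type u} [Field k] {𝒱 : VarClass k} {ops : CycleOps 𝒱} {p : ℕ}

lemma phiF_eq (W : WeilCohomology.{u, 0} ops) {d : ℕ} (D : Strata 𝒱 d) (A : FrobAction D) (p : ℕ)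
    (x : Coh W D p) : phiF W D A p x = phi W D A p x := rfl

lemma frobE_eq (W : WeilCohomology.{u, 0} ops) {d : ℕ} (D : Strata 𝒱 d) (A : FrobAction D)
    (r i b : ℕ) (f : Tot W D) : frobE W D A r i b f = frobT W D A r i b f := rfl

lemma isWeil_of_killed {W : WeilCohomology.{u, 0} ops} {d : ℕ} {D : Strata 𝒱 d}
    {A : FrobAction D} {P : ℕ → ℚ[X]} (h : FrobKilled W D A P) : IsWeil W D A P := by
  intro p j x hx
  have h0 : ∀ s, x s ∈ W.gr (D.Y p s) j := fun s => hx s (Set.mem_univ s)
  have h1 := h p j x h0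
  rw [aeval_eq_sum_range, LinearMap.sum_apply]
  funext s
  rw [Finset.sum_apply]
  have h2 : (((P j).map (algebraMap ℚ W.K)).natDegree) = (P j).natDegree :=
    Polynomial.natDegree_map _
  rw [h2]
  refine (Finset.sum_congr rfl fun n _ => ?_).trans (h1 s)
  rw [LinearMap.smul_apply, Polynomial.coeff_map, Pi.smul_apply]
  have h3 : ∀ n : ℕ, (phi W D A p ^ n) x = (phiF W D A p)^[n] x := by
    intro n
    rw [Module.End.pow_apply]
    rfl
  rw [h3]
  show (algebraMap ℚ W.K) ((P j).coeff n) • (phiF W D A p)^[n] x s = _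
  rw [eq_ratCast]
  rfl

variable {W : WeilCohomology.{u, 0} ops} {d : ℕ} {D : Strata 𝒱 d} {A : FrobAction D}
  {r i : ℕ} {Z : ℕ → CycMat D} {Gam : Type} [Group Gam] {I : Subgroup Gam} [I.Normal]
  {frob : Gam}

/-- The form of a realisation used in the proofs. -/
def toReal (M : RealisationAt W D A r i Z Gam I frob) : Realization W D A r i Z Gam I frob where
  V := M.V
  ρ :=
    { toFun := fun g => (M.act_lin g).mk' _
      map_one' := LinearMap.ext fun v => M.act_one v
      map_mul' := fun g g' => LinearMap.ext fun v => M.act_mul g g' v }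
  H := M.H
  inj := M.inj_lin.mk' _
  injective := M.injective
  F := M.F_lin.mk' _
  N := M.N_lin.mk' _
  E := M.E_lin.mk' _
  inj_frob := M.inj_frob
  inv_iff := M.inv_iff
  N_F := fun h => by
    show M.N (M.F h) = (r : W.K) • M.F (M.N h)
    rw [M.N_F, Nat.cast_smul_eq_nsmul]
  E_E := M.E_E
  E_F := M.E_F
  E_N := M.E_N
  fil := M.fil
  fil_mono := monotone_nat_of_le_succ fun b h hh => M.fil_mono b h hh
  fil_zero := (Submodule.eq_bot_iff _).2 M.fil_zero
  fil_top := (Submodule.eq_top_iff').2 M.fil_top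
  rel := fun b =>
    { carrier := {x | M.rel b x.1 x.2}
      add_mem' := fun ha hb => M.rel_add b _ _ _ _ ha hb
      zero_mem' := M.rel_fil b 0 (Submodule.zero_mem _)
      smul_mem' := fun c x hx => M.rel_smul b c _ _ hx }
  rel_mem := fun b f h hr => ⟨(M.rel_mem b f h hr).1.1, (M.rel_mem b f h hr).1.2,
    (M.rel_mem b f h hr).2⟩
  rel_left := fun b f h1 h2 => M.rel_left b f ⟨h1, h2⟩
  rel_right := M.rel_right
  rel_zero := M.rel_zero
  rel_bdry := M.rel_bdry
  rel_fil := M.rel_fil
  rel_F := M.rel_F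
  rel_E := M.rel_E
  rel_N := M.rel_N
  N_low := M.N_low

lemma eulerPoly_toReal (M : RealisationAt W D A r i Z Gam I frob) :
    (toReal M).eulerPoly = M.eulerPoly := rfl

end Pool.Agent.Helper60K9.EL
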