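import Pool.Agent.Helper60K9.EL.Stm

/-!
# Regularity of the ring of algebraic families
-/

set_option autoImplicit false

open CategoryTheory Polynomial

universe u

namespace Pool.Agent.Helper60K9.EL

open Pool.Agent.H914 Pool.Agent.H914.VarClass Pool.Agent.H914.VarClass.Obj
  Pool.Agent.H914.WeilCohomology Pool.Agent.Helper7K9.OL Pool.Agent.Helper11K9.Dens

variable {k : Type u} [Field k] {𝒱 : VarClass k} {ops : CycleOps 𝒱}

instance finite_Sm {ι : Type} [Finite ι] (W : WeilCohomology.{u, 0} ops) (Y : ι → 𝒱.Obj) :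
    Module.Finite W.K (Sm W Y) := by
  haveI := Fintype.ofFinite ι
  infer_instance

/-- The ring of the algebraic families. -/
def algRing (h1 : S_ONE.{u}) (h2 : S_MUL.{u}) {ι : Type} [Finite ι] {Λ : Type}
    (W : Λ → WeilCohomology.{u, 0} ops) (Y : ι → 𝒱.Obj) :
    Subring (∀ l, Module.End (W l).K (Sm (W l) Y)) where
  carrier := algFam W Y
  mul_mem' := fun ha hb => h2 W Y _ ha _ hb
  one_mem' := h1 W Y
  add_mem' := (algFam W Y).add_mem
  zero_mem' := (algFam W Y).zero_mem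
  neg_mem' := (algFam W Y).neg_mem

lemma mem_algRing {h1 : S_ONE.{u}} {h2 : S_MUL.{u}} {ι : Type} [Finite ι] {Λ : Type}
    {W : Λ → WeilCohomology.{u, 0} ops} {Y : ι → 𝒱.Obj}
    {T : ∀ l, Module.End (W l).K (Sm (W l) Y)} : T ∈ algRing h1 h2 W Y ↔ T ∈ algFam W Y :=
  Iff.rfl

lemma pars_sq {ι : Type} (W : WeilCohomology.{u, 0} ops) (Y : ι → 𝒱.Obj) :
    pars W Y * pars W Y = 1 := by
  refine LinearMap.ext fun f => ?_
  funext x
  show par (W.isInternal (Y x)) (par (W.isInternal (Y x)) (f x)) = f x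
  have h : par (W.isInternal (Y x)) * par (W.isInternal (Y x)) = 1 := by
    rw [par, scal_mul]
    have : (fun i => (-1 : W.K) ^ i * (-1 : W.K) ^ i) = fun _ => (1 : W.K) := by
      funext i
      rw [← mul_pow]
      simp
    rw [this, scal_one]
  exact congrArg (fun T => T (f x)) h

theorem regular (h1 : S_ONE.{u}) (h2 : S_MUL.{u}) (h3 : S_RSM.{u}) (h4 : S_PAR.{u})
    (h5 : S_TRC.{u}) (h6 : S_NDG.{u}) (h7 : S_REG) {ι : Type} [Finite ι] {Λ : Type}
    (W : Λ → WeilCohomology.{u, 0} ops) (Y : ι → 𝒱.Obj)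
    (hD : ∀ l x y, HomEqNum (W l) ((Y x).prod (Y y))) :
    ∀ D ∈ algRing h1 h2 W Y, ∃ C ∈ algRing h1 h2 W Y, D * C * D = D := by
  intro D hDm
  by_cases hΛ : Nonempty Λ
  · obtain ⟨l₀⟩ := hΛ
    have key := h7 (W l₀).K (Sm (W l₀) Y) (pars (W l₀) Y)
      ((algRing h1 h2 W Y).map (Pi.evalRingHom _ l₀)) (pars_sq _ _)
      (by
        rintro c x ⟨T, hT, rfl⟩
        exact ⟨_, h3 W Y c T hT, rfl⟩)
      (by
        rintro x ⟨T, hT, rfl⟩
        exact h4 W Y T hT l₀)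
      (by
        rintro x ⟨T, hT, rfl⟩
        obtain ⟨c, hc⟩ := h5 W Y T hT
        exact ⟨c, hc l₀⟩)
      (by
        rintro x ⟨T, hT, rfl⟩ hx
        refine h6 W Y l₀ (hD l₀) T hT fun T' hT' => ?_
        exact hx (T' l₀) ⟨T', hT', rfl⟩)
      (D l₀) ⟨D, hDm, rfl⟩
    obtain ⟨_, ⟨C, hC, rfl⟩, hDC⟩ := key
    refine ⟨C, hC, ?_⟩
    have hT : D * C * D - D ∈ algFam W Y :=
      (algRing h1 h2 W Y).sub_mem ((algRing h1 h2 W Y).mul_mem
        ((algRing h1 h2 W Y).mul_mem hDm hC) hDm) hDm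
    rw [← sub_eq_zero]
    funext l
    refine h6 W Y l (hD l) _ hT fun T' hT' => ?_
    obtain ⟨c, hc⟩ := h5 W Y (T' * (D * C * D - D)) (h2 W Y _ hT' _ hT)
    have hl := hc l
    have hl₀ := hc l₀
    have e0 : (D * C * D - D) l₀ = 0 := by
      show D l₀ * C l₀ * D l₀ - D l₀ = 0
      rw [sub_eq_zero]
      exact hDC
    have e1 : (T' * (D * C * D - D)) l₀ = 0 := by
      rw [Pi.mul_apply, e0, mul_zero]
    rw [e1, mul_zero, map_zero] at hl₀
    have hc0 : c = 0 := by exact_mod_cast hl₀.symm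
    rw [hc0] at hl
    rw [Pi.mul_apply] at hl
    simpa using hl
  · refine ⟨D, hDm, ?_⟩
    funext l
    exact absurd ⟨l⟩ hΛ

end Pool.Agent.Helper60K9.EL
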