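import Pool.Agent.Helper60K9.EL.Core1

/-!
# Algebraic idempotents for the terms of the weight spectral sequence, and their traces
-/

set_option autoImplicit false

open CategoryTheory Polynomial

universe u

namespace Pool.Agent.Helper60K9.EL

open Pool.Agent.H914 Pool.Agent.H914.VarClass Pool.Agent.H914.VarClass.Obj
  Pool.Agent.H914.WeilCohomology Pool.Agent.Helper7K9.OL Pool.Agent.Helper11K9.Dens

variable {k : Type u} [Field k] {𝒱 : VarClass k} {ops : CycleOps 𝒱}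

/-- The geometric Frobenius as a linear map. -/
noncomputable def frobL (W : WeilCohomology.{u, 0} ops) {d : ℕ} (D : Strata 𝒱 d)
    (A : FrobAction D) (r i b : ℕ) : Module.End W.K (Tot W D) :=
  LinearMap.pi fun p =>
    (r : W.K) ^ (((p : ℤ) + b - i) / 2).toNat • (phi W D A p ∘ₗ LinearMap.proj p)

lemma frobL_apply (W : WeilCohomology.{u, 0} ops) {d : ℕ} (D : Strata 𝒱 d)
    (A : FrobAction D) (r i b : ℕ) (f : Tot W D) :
    frobL W D A r i b f = frobT W D A r i b f := rfl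

/-- The cocycles in the term of total degree `i` and weight `b` whose class is killed by the
monodromy operator. -/
def InU (W : WeilCohomology.{u, 0} ops) {d : ℕ} (D : Strata 𝒱 d) (i : ℕ) :
    ℕ → Tot W D → Prop
  | 0, f => InE1 W D i 0 f ∧ dif W D i 0 f = 0
  | 1, f => InE1 W D i 1 f ∧ dif W D i 1 f = 0
  | c + 2, f => (InE1 W D i (c + 2) f ∧ dif W D i (c + 2) f = 0) ∧
      InB W D i c (mon W D i (c + 2) f)

lemma InU.inE1 {W : WeilCohomology.{u, 0} ops} {d : ℕ} {D : Strata 𝒱 d} {i : ℕ} :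
    ∀ {b : ℕ} {f : Tot W D}, InU W D i b f → InE1 W D i b f ∧ dif W D i b f = 0
  | 0, _, h => h
  | 1, _, h => h
  | _ + 2, _, h => h.1

section Idem

variable (h1 : S_ONE.{u}) (h2 : S_MUL.{u}) {d : ℕ} (D : Strata 𝒱 d) [Finite (Str D)]
  {Λ : Type} (W : Λ → WeilCohomology.{u, 0} ops)

lemma mem_range_iff {K V : Type} [Field K] [AddCommGroup V] [Module K V] {g : Module.End K V}
    (hg : g * g = g) (x : V) : x ∈ LinearMap.range g ↔ g x = x := by
  constructor
  · rintro ⟨y, rfl⟩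
    exact congrArg (fun T => T y) hg
  · intro h
    exact ⟨x, h⟩

theorem exists_B (h8 : S_PPI) (h9 : S_DFA.{u})
    (hreg : ∀ T ∈ algRing h1 h2 W (strY D), ∃ C ∈ algRing h1 h2 W (strY D), T * C * T = T)
    (hE : ∀ i b, ∃ T ∈ algFam W (strY D), T * T = T ∧
      ∀ l f, f ∈ LinearMap.range (T l) ↔ InE1 (W l) D i b ((cur (W l) D).symm f)) (i b : ℕ) :
    ∃ g ∈ algRing h1 h2 W (strY D), g * g = g ∧
      ∀ l x, x ∈ LinearMap.range (g l) ↔ InB (W l) D i b ((cur (W l) D).symm x) := by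
  obtain ⟨e, he, hee, her⟩ := hE (i - 1) b
  obtain ⟨T, hT, hTd⟩ := h9 (ops := ops) D W (i - 1) b
  obtain ⟨g, hg, hgg, hgr⟩ := h8 Λ _ _ (algRing h1 h2 W (strY D)) hreg (T * e)
    ((algRing h1 h2 W (strY D)).mul_mem hT he)
  refine ⟨g, hg, hgg, fun l x => ?_⟩
  rw [hgr l]
  have hel : e l * e l = e l := congrFun hee l
  constructor
  · rintro ⟨y, rfl⟩
    refine ⟨(cur (W l) D).symm (e l y), (her l _).1 ⟨y, rfl⟩, ?_⟩
    apply (cur (W l) D).injective
    rw [← hTd, LinearEquiv.apply_symm_apply, LinearEquiv.apply_symm_apply]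
    rfl
  · rintro ⟨f, hf, hf2⟩
    have h3 : cur (W l) D f ∈ LinearMap.range (e l) := by
      rw [her, LinearEquiv.symm_apply_apply]
      exact hf
    rw [mem_range_iff hel] at h3
    refine ⟨cur (W l) D f, ?_⟩
    show T l (e l (cur (W l) D f)) = x
    rw [h3, hTd, hf2, LinearEquiv.apply_symm_apply]

theorem exists_Z (h8 : S_PPK) (h9 : S_DFA.{u})
    (hreg : ∀ T ∈ algRing h1 h2 W (strY D), ∃ C ∈ algRing h1 h2 W (strY D), T * C * T = T)
    (hE : ∀ i b, ∃ T ∈ algFam W (strY D), T * T = T ∧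
      ∀ l f, f ∈ LinearMap.range (T l) ↔ InE1 (W l) D i b ((cur (W l) D).symm f)) (i b : ℕ) :
    ∃ g ∈ algRing h1 h2 W (strY D), g * g = g ∧
      ∀ l x, x ∈ LinearMap.range (g l) ↔ (InE1 (W l) D i b ((cur (W l) D).symm x) ∧
        dif (W l) D i b ((cur (W l) D).symm x) = 0) := by
  obtain ⟨e, he, hee, her⟩ := hE i b
  obtain ⟨T, hT, hTd⟩ := h9 (ops := ops) D W i b
  obtain ⟨g, hg, hgg, hgr⟩ := h8 Λ _ _ (algRing h1 h2 W (strY D)) hreg e he hee T hT
  refine ⟨g, hg, hgg, fun l x => ?_⟩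
  rw [hgr l, Submodule.mem_inf, her, LinearMap.mem_ker]
  have h3 : T l x = cur (W l) D (dif (W l) D i b ((cur (W l) D).symm x)) := by
    rw [← hTd, LinearEquiv.apply_symm_apply]
  rw [h3, LinearEquiv.map_eq_zero_iff]

theorem exists_U (h7 : S_PPI) (h8 : S_PPK) (h9 : S_DFA.{u}) (h10 : S_MNA.{u})
    (hreg : ∀ T ∈ algRing h1 h2 W (strY D), ∃ C ∈ algRing h1 h2 W (strY D), T * C * T = T)
    (hE : ∀ i b, ∃ T ∈ algFam W (strY D), T * T = T ∧
      ∀ l f, f ∈ LinearMap.range (T l) ↔ InE1 (W l) D i b ((cur (W l) D).symm f)) (i b : ℕ) :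
    ∃ g ∈ algRing h1 h2 W (strY D), g * g = g ∧
      ∀ l x, x ∈ LinearMap.range (g l) ↔ InU (W l) D i b ((cur (W l) D).symm x) := by
  match b with
  | 0 => exact exists_Z h1 h2 D W h8 h9 hreg hE i 0
  | 1 => exact exists_Z h1 h2 D W h8 h9 hreg hE i 1
  | c + 2 =>
    obtain ⟨e, he, hee, her⟩ := exists_Z h1 h2 D W h8 h9 hreg hE i (c + 2)
    obtain ⟨g', hg', hgg', hgr'⟩ := exists_B h1 h2 D W h7 h9 hreg hE i c
    obtain ⟨M, hM, hMd⟩ := h10 (ops := ops) D W i (c + 2)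
    obtain ⟨g, hg, hgg, hgr⟩ := h8 Λ _ _ (algRing h1 h2 W (strY D)) hreg e he hee
      ((1 - g') * M) ((algRing h1 h2 W (strY D)).mul_mem
        ((algRing h1 h2 W (strY D)).sub_mem (algRing h1 h2 W (strY D)).one_mem hg') hM)
    refine ⟨g, hg, hgg, fun l x => ?_⟩
    rw [hgr l, Submodule.mem_inf, her, LinearMap.mem_ker]
    have hgl : g' l * g' l = g' l := congrFun hgg' l
    have h3 : M l x = cur (W l) D (mon (W l) D i (c + 2) ((cur (W l) D).symm x)) := by
      rw [← hMd, LinearEquiv.apply_symm_apply]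
    have h4 : ((1 - g') * M) l x = M l x - g' l (M l x) := rfl
    have h5 : ((1 - g') * M) l x = 0 ↔ M l x ∈ LinearMap.range (g' l) := by
      rw [h4, mem_range_iff hgl, sub_eq_zero]
      exact eq_comm
    rw [h5, hgr', h3, LinearEquiv.symm_apply_apply]
    rfl

end Idem

lemma pars_of_inE1 (W : WeilCohomology.{u, 0} ops) {d : ℕ} (D : Strata 𝒱 d) (i b : ℕ)
    (x : Sm W (strY D)) (hx : InE1 W D i b ((cur W D).symm x)) :
    pars W (strY D) x = (-1 : W.K) ^ b • x := by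
  funext y
  have hy := hx y.1 y.2
  have h1 : ((cur W D).symm x) y.1 y.2 = x y := rfl
  rw [h1] at hy
  show par (W.isInternal (D.Y y.1 y.2)) (x y) = (-1 : W.K) ^ b • x y
  rcases hy.2 with h | ⟨h2, -, h3⟩
  · rw [h, map_zero, smul_zero]
  · rw [par, scal_apply _ _ hy.1]
    have h4 : Even (i - y.1 + b) := by
      obtain ⟨c, hc⟩ := h3
      have h5 : (((i - y.1 + b : ℕ) : ℤ)) = 2 * ((i : ℤ) - y.1 + c) := by
        push_cast [h2]
        linarith
      have h6 : Even (((i - y.1 + b : ℕ) : ℤ)) := ⟨(i : ℤ) - y.1 + c, by rw [h5]; ring⟩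
      exact_mod_cast h6
    have h7 : (-1 : W.K) ^ (i - y.1) = (-1 : W.K) ^ b := by
      have h8 : (-1 : W.K) ^ (i - y.1) * (-1 : W.K) ^ b = 1 := by
        rw [← pow_add, h4.neg_one_pow]
      have h9 : (-1 : W.K) ^ b * (-1 : W.K) ^ b = 1 := by
        rw [← mul_pow]; simp
      calc (-1 : W.K) ^ (i - y.1) = (-1 : W.K) ^ (i - y.1) * ((-1 : W.K) ^ b * (-1 : W.K) ^ b) := by
            rw [h9, mul_one]
        _ = _ := by rw [← mul_assoc, h8, one_mul]
    rw [h7]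

theorem traces (h1 : S_ONE.{u}) (h2 : S_MUL.{u}) (h3 : S_TRC.{u}) (h4 : S_TRD) {d : ℕ}
    (D : Strata 𝒱 d) [Finite (Str D)] {Λ : Type} (W : Λ → WeilCohomology.{u, 0} ops) (i b : ℕ)
    (Φ g : ∀ l, Module.End (W l).K (Sm (W l) (strY D))) (hΦ : Φ ∈ algFam W (strY D))
    (hg : g ∈ algFam W (strY D)) (hgg : g * g = g)
    (hE : ∀ l, ∀ x ∈ LinearMap.range (g l), InE1 (W l) D i b ((cur (W l) D).symm x))
    (hst : ∀ l, ∀ x ∈ LinearMap.range (g l), Φ l x ∈ LinearMap.range (g l)) (m : ℕ) :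
    ∃ c : ℚ, ∀ l, LinearMap.trace (W l).K (LinearMap.range (g l))
      (((Φ l).restrict (hst l)) ^ m) = (c : (W l).K) := by
  have hR : Φ ^ m * g ∈ algRing h1 h2 W (strY D) :=
    (algRing h1 h2 W (strY D)).mul_mem ((algRing h1 h2 W (strY D)).pow_mem hΦ m) hg
  obtain ⟨c, hc⟩ := h3 W (strY D) _ hR
  refine ⟨(-1) ^ b * c, fun l => ?_⟩
  rw [h4 (W l).K (Sm (W l) (strY D)) (Φ l) (g l) (LinearMap.range (g l)) (congrFun hgg l) rfl
    (hst l) m]
  have hmem : ∀ (m : ℕ), ∀ x ∈ LinearMap.range (g l), (Φ l ^ m) x ∈ LinearMap.range (g l) := by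
    intro m
    induction m with
    | zero => intro x hx; simpa using hx
    | succ n ih =>
      intro x hx
      rw [pow_succ', Module.End.mul_apply]
      exact hst l _ (ih x hx)
  have h5 : pars (W l) (strY D) * ((Φ ^ m * g) l) = (-1 : (W l).K) ^ b • (Φ l ^ m * g l) := by
    refine LinearMap.ext fun x => ?_
    exact pars_of_inE1 (W l) D i b _ (hE l _ (hmem m _ ⟨x, rfl⟩))
  have h6 := hc l
  rw [h5, map_smul, smul_eq_mul] at h6
  have h9 : (-1 : (W l).K) ^ b * (-1 : (W l).K) ^ b = 1 := by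
    rw [← mul_pow]; simp
  push_cast
  rw [← h6, ← mul_assoc, h9, one_mul]

end Pool.Agent.Helper60K9.EL
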