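import Pool.Agent.Helper60K9.EL.Defs3

/-!
# Local factors of motives: the form of the definitions used in the proofs
-/

set_option autoImplicit false

open CategoryTheory Polynomial

universe u

namespace Pool.Agent.Helper60K9.EL

open Pool.Agent.H914 Pool.Agent.H914.VarClass Pool.Agent.H914.VarClass.Obj
  Pool.Agent.H914.WeilCohomology Pool.Agent.Helper7K9.OL Pool.Agent.Helper11K9.Dens

variable {k : Type u} [Field k] {𝒱 : VarClass k} {ops : CycleOps 𝒱} {p : ℕ}

/-- The realisation `V` of degree `i` of a motive `M = (X, π)` over a `p`-adic field `K`, inside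
the cohomology `H = H^i(X')` of an alteration `X'` of `X` which has strictly semistable reduction
(over a finite extension of `K`) with the strata `D` (over `k`, for the variety `X'` over `K`).
* `ρ` is the action on `V` of the Galois group `Gam` of `K`, with the inertia group `I` and a
  geometric Frobenius element `frob`; `F` is the action of `frob` on `H`; `N` is the monodromy
  operator.
* `E` is the idempotent (`π`, composed with the projection from `H^i(X')` to `H^i(X)` and the
  average over the finite group through which `I` acts on the strata) with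
  `V^I = {h | N h = 0, E h = h}`; it acts on the term of weight `b` of the weight spectral
  sequence by the cycles `Z b` on the products of two strata (T. Saito).
* `fil` is the weight filtration of `H` (`fil (b + 1)` is the part of weight `≤ b`), and `rel b`
  is the isomorphism of its graded piece of weight `b` with the term `E_2^(i-b,b)`: it contains
  `(f, h)` if `f` is in `E_1^(i-b,b)` with `dif f = 0`, `h` is in `fil (b + 1)`, and the classes of
  `f` and `h` correspond to each other. -/
structure Realization (W : WeilCohomology.{u, 0} ops) {d : ℕ} (D : Strata 𝒱 d)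
    (A : FrobAction D) (r i : ℕ) (Z : ℕ → CycMat D) (Gam : Type) [Group Gam] (I : Subgroup Gam)
    [I.Normal] (frob : Gam) where
  V : Type
  [addV : AddCommGroup V]
  [modV : Module W.K V]
  [finV : Module.Finite W.K V]
  ρ : Gam →* Module.End W.K V
  H : Type
  [addH : AddCommGroup H]
  [modH : Module W.K H]
  [finH : Module.Finite W.K H]
  inj : V →ₗ[W.K] H
  injective : Function.Injective inj
  F : Module.End W.K H
  N : Module.End W.K H
  E : Module.End W.K H
  inj_frob : ∀ v, inj (ρ frob v) = F (inj v)
  inv_iff : ∀ h, (∃ v, (∀ g ∈ I, ρ g v = v) ∧ inj v = h) ↔ (N h = 0 ∧ E h = h)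
  N_F : ∀ h, N (F h) = (r : W.K) • F (N h)
  E_E : ∀ h, E (E h) = E h
  E_F : ∀ h, E (F h) = F (E h)
  E_N : ∀ h, E (N h) = N (E h)
  fil : ℕ → Submodule W.K H
  fil_mono : Monotone fil
  fil_zero : fil 0 = ⊥
  fil_top : fil (2 * i + 1) = ⊤
  rel : ℕ → Submodule W.K (Tot W D × H)
  rel_mem : ∀ b f h, (f, h) ∈ rel b → InE1 W D i b f ∧ dif W D i b f = 0 ∧ h ∈ fil (b + 1)
  rel_left : ∀ b f, InE1 W D i b f → dif W D i b f = 0 → ∃ h, (f, h) ∈ rel b
  rel_right : ∀ b, ∀ h ∈ fil (b + 1), ∃ f, (f, h) ∈ rel b
  rel_zero : ∀ b f h, (f, h) ∈ rel b → (InB W D i b f ↔ h ∈ fil b)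
  rel_bdry : ∀ b f, InB W D i b f → (f, 0) ∈ rel b
  rel_fil : ∀ b, ∀ h ∈ fil b, (0, h) ∈ rel b
  rel_F : ∀ b f h, (f, h) ∈ rel b → (frobT W D A r i b f, F h) ∈ rel b
  rel_E : ∀ b f h, (f, h) ∈ rel b → ((Z b).act W f, E h) ∈ rel b
  rel_N : ∀ b f h, (f, h) ∈ rel (b + 2) → (mon W D i (b + 2) f, N h) ∈ rel b
  N_low : ∀ h ∈ fil 2, N h = 0

attribute [instance] Realization.addV Realization.modV Realization.finV Realization.addH
  Realization.modH Realization.finH

namespace Realization

variable {W : WeilCohomology.{u, 0} ops} {d : ℕ} {D : Strata 𝒱 d} {A : FrobAction D}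
  {r i : ℕ} {Z : ℕ → CycMat D} {Gam : Type} [Group Gam] {I : Subgroup Gam} [I.Normal]
  {frob : Gam} (M : Realization W D A r i Z Gam I frob)

/-- The invariants of the inertia group in the realisation `V`. -/
def inv : Submodule W.K M.V where
  carrier := {v | ∀ g ∈ I, M.ρ g v = v}
  add_mem' := fun ha hb g hg => by rw [map_add, ha g hg, hb g hg]
  zero_mem' := fun g _ => map_zero _
  smul_mem' := fun c x hx g hg => by rw [map_smul, hx g hg]

lemma frob_inv : ∀ v ∈ M.inv, M.ρ frob v ∈ M.inv := by
  intro h hh g hg
  have h1 : frob⁻¹ * g * frob ∈ I := by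
    have := Subgroup.Normal.conj_mem (H := I) inferInstance g hg frob⁻¹
    simpa using this
  have h2 := hh _ h1
  have h3 : M.ρ frob (M.ρ (frob⁻¹ * g * frob) h) = M.ρ g (M.ρ frob h) := by
    rw [← Module.End.mul_apply, ← Module.End.mul_apply, ← map_mul, ← map_mul]
    congr 2
    group
  rw [← h3, h2]

/-- The local factor `det (1 - T frob | V^I)`. -/
noncomputable def eulerPoly : W.K[X] := ((M.ρ frob).restrict M.frob_inv).charpoly.reverse

end Realization

end Pool.Agent.Helper60K9.EL
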