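import Pool.Agent.Helper60K9.EL.Stm
import Pool.Agent.Helper60K9.EL.Defs2

/-!
# One more leaf
-/

set_option autoImplicit false

open CategoryTheory Polynomial

universe u

namespace Pool.Agent.Helper60K9.EL

open Pool.Agent.H914 Pool.Agent.H914.VarClass Pool.Agent.H914.VarClass.Obj
  Pool.Agent.H914.WeilCohomology Pool.Agent.Helper7K9.OL Pool.Agent.Helper11K9.Dens

/-- [OPA] the action of a matrix of cycles is algebraic (the sum of `elem`, over
`p, p' ≤ d`, `s`, `s'` and `q ≤ 2 d`; a stratum `⟨p, s⟩` has `p ≤ d` by `dim_add`). -/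
def S_OPA : Prop :=
  ∀ {k : Type u} [Field k] {𝒱 : VarClass k} {ops : CycleOps 𝒱} {d : ℕ} (D : Strata 𝒱 d)
    [Finite (Str D)] {Λ : Type} (W : Λ → WeilCohomology.{u, 0} ops) (Z : CycMat D),
    ∃ T ∈ algFam W (strY D), ∀ l f, T l (cur (W l) D f) = cur (W l) D (Z.act (W l) f)

end Pool.Agent.Helper60K9.EL
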