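import Pool.Agent.Helper60K9.EL.Core2
import Pool.Agent.Helper60K9.EL.Stm2

/-!
# The trace of Frobenius on the invariants of inertia
-/

set_option autoImplicit false

open CategoryTheory Polynomial

universe u

namespace Pool.Agent.Helper60K9.EL

open Pool.Agent.H914 Pool.Agent.H914.VarClass Pool.Agent.H914.VarClass.Obj
  Pool.Agent.H914.WeilCohomology Pool.Agent.Helper7K9.OL Pool.Agent.Helper11K9.Dens

variable {k : Type u} [Field k] {𝒱 : VarClass k} {ops : CycleOps 𝒱}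

namespace Realization

variable {W : WeilCohomology.{u, 0} ops} {d : ℕ} {D : Strata 𝒱 d} {A : FrobAction D}
  {r i : ℕ} {Z : ℕ → CycMat D} {Gam : Type} [Group Gam] {I : Subgroup Gam} [I.Normal]
  {frob : Gam} (X : Realization W D A r i Z Gam I frob)

lemma frob_fil : ∀ b, ∀ h ∈ X.fil b, X.F h ∈ X.fil b
  | 0, h, hh => by
    rw [X.fil_zero, Submodule.mem_bot] at hh ⊢
    rw [hh, map_zero]
  | b + 1, h, hh => by
    obtain ⟨f, hf⟩ := X.rel_right b h hh
    exact (X.rel_mem b _ _ (X.rel_F b f h hf)).2.2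

lemma N_fil : ∀ b, ∀ h ∈ X.fil (b + 2), X.N h ∈ X.fil b
  | 0, h, hh => by
    rw [X.N_low h hh]
    exact Submodule.zero_mem _
  | b + 1, h, hh => by
    obtain ⟨f, hf⟩ := X.rel_right (b + 2) h hh
    exact (X.rel_mem b _ _ (X.rel_N b f h hf)).2.2

/-- The elements of weight `≤ b` whose class is killed by the monodromy operator. -/
def Asub : ℕ → Submodule W.K X.H
  | 0 => X.fil 1
  | 1 => X.fil 2
  | c + 2 => X.fil (c + 3) ⊓ (X.fil c).comap X.N

lemma Asub_le : ∀ b, X.Asub b ≤ X.fil (b + 1)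
  | 0 => le_rfl
  | 1 => le_rfl
  | _ + 2 => inf_le_left

lemma fil_le_Asub : ∀ b, X.fil b ≤ X.Asub b
  | 0 => X.fil_mono (Nat.zero_le 1)
  | 1 => X.fil_mono (by norm_num)
  | c + 2 => fun h hh => ⟨X.fil_mono (Nat.le_succ _) hh, X.N_fil c h hh⟩

lemma ker_le_Asub : ∀ b, LinearMap.ker X.N ⊓ X.fil (b + 1) ≤ X.Asub b
  | 0 => inf_le_right
  | 1 => inf_le_right
  | c + 2 => fun h hh => ⟨hh.2, by
      show X.N h ∈ X.fil c
      rw [LinearMap.mem_ker.1 hh.1]
      exact Submodule.zero_mem _⟩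

lemma frob_Asub : ∀ b, ∀ h ∈ X.Asub b, X.F h ∈ X.Asub b
  | 0, h, hh => X.frob_fil 1 h hh
  | 1, h, hh => X.frob_fil 2 h hh
  | c + 2, h, hh => ⟨X.frob_fil _ h hh.1, by
      show X.N (X.F h) ∈ X.fil c
      rw [X.N_F]
      exact Submodule.smul_mem _ _ (X.frob_fil c _ hh.2)⟩

lemma frob_ker : ∀ h ∈ LinearMap.ker X.N, X.F h ∈ LinearMap.ker X.N := by
  intro h hh
  rw [LinearMap.mem_ker] at hh ⊢
  rw [X.N_F, hh, map_zero, smul_zero]

lemma rel_U : ∀ b f h, (f, h) ∈ X.rel b → (InU W D i b f ↔ h ∈ X.Asub b)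
  | 0, f, h, hr => by
    have := X.rel_mem 0 f h hr
    exact ⟨fun _ => this.2.2, fun _ => ⟨this.1, this.2.1⟩⟩
  | 1, f, h, hr => by
    have := X.rel_mem 1 f h hr
    exact ⟨fun _ => this.2.2, fun _ => ⟨this.1, this.2.1⟩⟩
  | c + 2, f, h, hr => by
    have h1 := X.rel_mem (c + 2) f h hr
    have h2 := X.rel_zero c _ _ (X.rel_N c f h hr)
    exact ⟨fun hf => ⟨h1.2.2, h2.1 hf.2⟩, fun hh => ⟨⟨h1.1, h1.2.1⟩, h2.2 hh.2⟩⟩

include X in
lemma InB_zero (b : ℕ) : InB W D i b 0 :=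
  (X.rel_zero b 0 0 (Submodule.zero_mem _)).2 (Submodule.zero_mem _)

lemma aeval_rel (b : ℕ) (p : W.K[X]) : ∀ f h, (f, h) ∈ X.rel b →
    (aeval (frobL W D A r i b) p f, aeval (X.F) p h) ∈ X.rel b := by
  induction p using Polynomial.induction_on with
  | C a =>
    intro f h hr
    simp only [aeval_C, Module.algebraMap_end_apply]
    exact Submodule.smul_mem _ a hr
  | add p q hp hq =>
    intro f h hr
    rw [map_add, map_add]
    exact Submodule.add_mem _ (hp f h hr) (hq f h hr)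
  | monomial n a hp =>
    intro f h hr
    have e1 : ∀ (V : Type) [AddCommGroup V] [Module W.K V] (T : Module.End W.K V) (v : V),
        aeval T (C a * Polynomial.X ^ (n + 1)) v = T (aeval T (C a * Polynomial.X ^ n) v) := by
      intro V _ _ T v
      rw [pow_succ', mul_left_comm, map_mul, aeval_X, Module.End.mul_apply]
    rw [e1, e1]
    exact X.rel_F b _ _ (hp f h hr)

/-- The weights. -/
theorem weights (b : ℕ) (q : ℚ[X])
    (hq : ∀ f, InE1 W D i b f → aeval (frobL W D A r i b) (q.map (algebraMap ℚ W.K)) f = 0) :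
    ∀ h ∈ X.fil (b + 1), aeval (X.F) (q.map (algebraMap ℚ W.K)) h ∈ X.fil b := by
  intro h hh
  obtain ⟨f, hf⟩ := X.rel_right b h hh
  have h1 := X.aeval_rel b (q.map (algebraMap ℚ W.K)) f h hf
  rw [hq f (X.rel_mem b f h hf).1] at h1
  exact (X.rel_zero b _ _ h1).1 (X.InB_zero b)

lemma E_fil : ∀ b, ∀ h ∈ X.fil b, X.E h ∈ X.fil b
  | 0, h, hh => by
    rw [X.fil_zero, Submodule.mem_bot] at hh ⊢
    rw [hh, map_zero]
  | b + 1, h, hh => by
    obtain ⟨f, hf⟩ := X.rel_right b h hh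
    exact (X.rel_mem b _ _ (X.rel_E b f h hf)).2.2

lemma E_Asub : ∀ b, ∀ h ∈ X.Asub b, X.E h ∈ X.Asub b
  | 0, h, hh => X.E_fil 1 h hh
  | 1, h, hh => X.E_fil 2 h hh
  | c + 2, h, hh => ⟨X.E_fil _ h hh.1, by
      show X.N (X.E h) ∈ X.fil c
      rw [← X.E_N]
      exact X.E_fil c _ hh.2⟩

lemma E_ker : ∀ h ∈ LinearMap.ker X.N, X.E h ∈ LinearMap.ker X.N := by
  intro h hh
  rw [LinearMap.mem_ker] at hh ⊢
  rw [← X.E_N, hh, map_zero]

/-- The operator `F ^ m E`. -/
noncomputable def FE (m : ℕ) : Module.End W.K X.H := X.F ^ m * X.E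

lemma FE_mem {U : Submodule W.K X.H} (hF : ∀ h ∈ U, X.F h ∈ U) (hE : ∀ h ∈ U, X.E h ∈ U)
    (m : ℕ) : ∀ h ∈ U, X.FE m h ∈ U := by
  intro h hh
  have key : ∀ (m : ℕ), ∀ x ∈ U, (X.F ^ m) x ∈ U := by
    intro m
    induction m with
    | zero => intro x hx; simpa using hx
    | succ n ih =>
      intro x hx
      rw [pow_succ', Module.End.mul_apply]
      exact hF _ (ih x hx)
  exact key m _ (hE h hh)

/-- The trace on the graded pieces. -/
theorem trace_piece (h1 : S_REL) [Finite (Str D)] (b : ℕ)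
    (Φ Ε : Module.End W.K (Sm W (strY D)))
    (hΦ : ∀ f, Φ (cur W D f) = cur W D (frobT W D A r i b f))
    (hΕ : ∀ f, Ε (cur W D f) = cur W D ((Z b).act W f))
    (U B : Submodule W.K (Sm W (strY D)))
    (hU : ∀ x, x ∈ U ↔ InU W D i b ((cur W D).symm x))
    (hB : ∀ x, x ∈ B ↔ InB W D i b ((cur W D).symm x)) (m : ℕ) :
    ∃ (hUs : ∀ x ∈ U, (Φ ^ m * Ε) x ∈ U) (hBs : ∀ x ∈ B, (Φ ^ m * Ε) x ∈ B),
    LinearMap.trace W.K (X.Asub b)
        (((X.FE m).restrict (X.FE_mem (X.frob_Asub b) (X.E_Asub b) m)) ^ 1) -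
        LinearMap.trace W.K (X.fil b)
          (((X.FE m).restrict (X.FE_mem (X.frob_fil b) (X.E_fil b) m)) ^ 1) =
      LinearMap.trace W.K U (((Φ ^ m * Ε).restrict hUs) ^ 1) -
        LinearMap.trace W.K B (((Φ ^ m * Ε).restrict hBs) ^ 1) := by
  have hΦ' : ∀ x, (cur W D).symm (Φ x) = frobT W D A r i b ((cur W D).symm x) := by
    intro x
    rw [← LinearEquiv.symm_apply_apply (cur W D) (frobT W D A r i b ((cur W D).symm x)), ← hΦ,
      LinearEquiv.apply_symm_apply]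
  have hΕ' : ∀ x, (cur W D).symm (Ε x) = (Z b).act W ((cur W D).symm x) := by
    intro x
    rw [← LinearEquiv.symm_apply_apply (cur W D) ((Z b).act W ((cur W D).symm x)), ← hΕ,
      LinearEquiv.apply_symm_apply]
  have hrel : ∀ x y, ((cur W D).symm x, y) ∈ X.rel b →
      ((cur W D).symm ((Φ ^ m * Ε) x), X.FE m y) ∈ X.rel b := by
    intro x y hxy
    have key : ∀ (m : ℕ) x y, ((cur W D).symm x, y) ∈ X.rel b →
        ((cur W D).symm ((Φ ^ m) x), (X.F ^ m) y) ∈ X.rel b := by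
      intro m
      induction m with
      | zero => intro x y h; simpa using h
      | succ n ih =>
        intro x y h
        rw [pow_succ', pow_succ', Module.End.mul_apply, Module.End.mul_apply, hΦ']
        exact X.rel_F b _ _ (ih x y h)
    refine key m _ _ ?_
    rw [hΕ']
    exact X.rel_E b _ _ hxy
  have hUs : ∀ x ∈ U, (Φ ^ m * Ε) x ∈ U := by
    intro x hx
    rw [hU] at hx ⊢
    obtain ⟨h, hh⟩ := X.rel_left b _ hx.inE1.1 hx.inE1.2
    rw [X.rel_U b _ _ (hrel _ _ hh)]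
    exact X.FE_mem (X.frob_Asub b) (X.E_Asub b) m _ ((X.rel_U b _ _ hh).1 hx)
  have hBs : ∀ x ∈ B, (Φ ^ m * Ε) x ∈ B := by
    intro x hx
    rw [hB] at hx ⊢
    have h3 := hrel _ _ (X.rel_bdry b _ hx)
    rw [map_zero] at h3
    rw [X.rel_zero b _ _ h3]
    exact Submodule.zero_mem _
  refine ⟨hUs, hBs, ?_⟩
  let R : Submodule W.K (Sm W (strY D) × X.H) :=
    (X.rel b).comap (LinearMap.prodMap (cur W D).symm.toLinearMap LinearMap.id) ⊓
      U.comap (LinearMap.fst _ _ _)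
  have hR : ∀ x y, (x, y) ∈ R ↔ ((cur W D).symm x, y) ∈ X.rel b ∧ x ∈ U := fun x y => Iff.rfl
  refine h1 W.K (Sm W (strY D)) X.H (Φ ^ m * Ε) (X.FE m) R U B (X.Asub b) (X.fil b) ?_ ?_ ?_ ?_
    ?_ hUs hBs (X.FE_mem (X.frob_Asub b) (X.E_Asub b) m) (X.FE_mem (X.frob_fil b) (X.E_fil b) m) 1
  · intro x
    constructor
    · intro hx
      have hx' := (hU x).1 hx
      obtain ⟨h, hh⟩ := X.rel_left b _ hx'.inE1.1 hx'.inE1.2
      exact ⟨h, (hR _ _).2 ⟨hh, hx⟩⟩
    · rintro ⟨y, hy⟩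
      exact ((hR _ _).1 hy).2
  · intro y
    constructor
    · intro hy
      obtain ⟨f, hf⟩ := X.rel_right b y (X.Asub_le b hy)
      refine ⟨cur W D f, (hR _ _).2 ⟨?_, ?_⟩⟩
      · rw [LinearEquiv.symm_apply_apply]
        exact hf
      · rw [hU, LinearEquiv.symm_apply_apply]
        exact (X.rel_U b _ _ hf).2 hy
    · rintro ⟨x, hx⟩
      have := (hR _ _).1 hx
      exact (X.rel_U b _ _ this.1).1 ((hU x).1 this.2)
  · intro x
    rw [hB, hR]
    constructor
    · intro hx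
      have h3 := X.rel_bdry b _ hx
      refine ⟨h3, ?_⟩
      rw [hU, X.rel_U b _ _ h3]
      exact Submodule.zero_mem _
    · rintro ⟨h3, -⟩
      exact (X.rel_zero b _ _ h3).2 (Submodule.zero_mem _)
  · intro y
    rw [hR]
    constructor
    · intro hy
      have h3 := X.rel_fil b y hy
      have h4 : (cur W D).symm (0 : Sm W (strY D)) = 0 := map_zero _
      refine ⟨by rw [h4]; exact h3, ?_⟩
      exact Submodule.zero_mem _
    · rintro ⟨h3, -⟩
      rw [map_zero] at h3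
      exact (X.rel_zero b _ _ h3).1 (X.InB_zero b)
  · intro x y hxy
    have := (hR _ _).1 hxy
    exact (hR _ _).2 ⟨hrel _ _ this.1, hUs x this.2⟩

/-- The trace on the kernel of the monodromy operator. -/
theorem trace_ker (h1 : S_WTS) (h2 : S_ADD) (hr : 2 ≤ r) (q : ℕ → ℚ[X])
    (hq0 : ∀ b, ∀ z : ℂ, aeval z (q b) = 0 → ‖z‖ ^ 2 = (r : ℝ) ^ b)
    (hq : ∀ b f, InE1 W D i b f →
      aeval (frobL W D A r i b) ((q b).map (algebraMap ℚ W.K)) f = 0) (m : ℕ) :
    LinearMap.trace W.K (LinearMap.ker X.N)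
        (((X.FE m).restrict (X.FE_mem X.frob_ker X.E_ker m)) ^ 1) =
      ∑ b ∈ Finset.range (2 * i + 1),
        (LinearMap.trace W.K (X.Asub b)
            (((X.FE m).restrict (X.FE_mem (X.frob_Asub b) (X.E_Asub b) m)) ^ 1) -
          LinearMap.trace W.K (X.fil b)
            (((X.FE m).restrict (X.FE_mem (X.frob_fil b) (X.E_fil b) m)) ^ 1)) := by
  refine h2 W.K X.H (X.FE m) X.N X.fil X.Asub (2 * i + 1) X.fil_mono X.fil_zero X.fil_top
    X.fil_le_Asub X.Asub_le X.ker_le_Asub ?_ (X.FE_mem X.frob_ker X.E_ker m)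
    (fun b => X.FE_mem (X.frob_fil b) (X.E_fil b) m)
    (fun b => X.FE_mem (X.frob_Asub b) (X.E_Asub b) m) 1
  intro b h hh
  match b with
  | 0 => exact ⟨h, X.N_low h (X.fil_mono (by norm_num) hh), hh, by simp⟩
  | 1 => exact ⟨h, X.N_low h hh, hh, by simp⟩
  | c + 2 =>
    exact h1 W.K X.H X.F X.N X.fil q r hr X.fil_mono X.fil_zero X.N_F hq0
      (fun b => X.weights b (q b) (hq b)) (fun b => X.frob_fil (b + 1))
      (fun b h hb => X.N_fil (b + 1) h hb) X.N_low c h hh.1 hh.2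

/-- The invariants of inertia, inside `H`. -/
def invH : Submodule W.K X.H := LinearMap.ker X.N ⊓ LinearMap.ker (X.E - 1)

lemma mem_invH (h : X.H) : h ∈ X.invH ↔ X.N h = 0 ∧ X.E h = h := by
  rw [invH, Submodule.mem_inf, LinearMap.mem_ker, LinearMap.mem_ker, LinearMap.sub_apply,
    Module.End.one_apply, sub_eq_zero]

lemma F_invH : ∀ h ∈ X.invH, X.F h ∈ X.invH := by
  intro h hh
  rw [mem_invH] at hh ⊢
  refine ⟨?_, ?_⟩
  · rw [X.N_F, hh.1, map_zero, smul_zero]
  · rw [X.E_F, hh.2]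

/-- The invariants in `V` and in `H`. -/
noncomputable def invEquiv : X.inv ≃ₗ[W.K] X.invH :=
  LinearEquiv.ofBijective
    ((X.inj.comp X.inv.subtype).codRestrict X.invH fun v =>
      (X.mem_invH _).2 ((X.inv_iff _).1 ⟨v.1, v.2, rfl⟩))
    ⟨by
      intro v w hvw
      have h1 : X.inj v.1 = X.inj w.1 := congrArg Subtype.val hvw
      exact Subtype.ext (X.injective h1), by
      rintro ⟨h, hh⟩
      obtain ⟨v, hv, hvh⟩ := (X.inv_iff h).2 ((X.mem_invH h).1 hh)
      exact ⟨⟨v, hv⟩, Subtype.ext hvh⟩⟩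

lemma charpoly_inv : ((X.ρ frob).restrict X.frob_inv).charpoly =
    (X.F.restrict X.F_invH).charpoly := by
  rw [← LinearEquiv.charpoly_conj X.invEquiv ((X.ρ frob).restrict X.frob_inv)]
  congr 1
  refine LinearMap.ext fun x => ?_
  obtain ⟨v, rfl⟩ := X.invEquiv.surjective x
  rw [LinearEquiv.conj_apply_apply, LinearEquiv.symm_apply_apply]
  apply Subtype.ext
  exact X.inj_frob v.1

/-- The trace of the powers of Frobenius on the invariants. -/
theorem trace_invH (h4 : S_TRD) (m : ℕ) :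
    LinearMap.trace W.K X.invH ((X.F.restrict X.F_invH) ^ m) =
      LinearMap.trace W.K (LinearMap.ker X.N)
        (((X.FE m).restrict (X.FE_mem X.frob_ker X.E_ker m)) ^ 1) := by
  have e0 : ∀ (m : ℕ), ∀ x ∈ LinearMap.ker X.N, (X.F ^ m) x ∈ LinearMap.ker X.N := by
    intro m
    induction m with
    | zero => intro x hx; simpa using hx
    | succ n ih =>
      intro x hx
      rw [pow_succ', Module.End.mul_apply]
      exact X.frob_ker _ (ih x hx)
  -- the idempotent `E` on `ker N`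
  set e : Module.End W.K (LinearMap.ker X.N) := X.E.restrict X.E_ker with he
  set G : Module.End W.K (LinearMap.ker X.N) := X.F.restrict X.frob_ker with hG
  have hee : e * e = e := by
    refine LinearMap.ext fun x => Subtype.ext ?_
    exact X.E_E _
  have hGst : ∀ x ∈ LinearMap.range e, G x ∈ LinearMap.range e := by
    rintro _ ⟨y, rfl⟩
    refine ⟨G y, Subtype.ext ?_⟩
    exact X.E_F _
  have h5 := h4 W.K (LinearMap.ker X.N) G e (LinearMap.range e) hee rfl hGst m
  have h6 : G ^ m * e = ((X.FE m).restrict (X.FE_mem X.frob_ker X.E_ker m)) ^ 1 := by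
    rw [pow_one]
    have h7 : ∀ (m : ℕ) (x : LinearMap.ker X.N), ((G ^ m) x : X.H) = (X.F ^ m) x := by
      intro m
      induction m with
      | zero => intro x; rfl
      | succ n ih =>
        intro x
        rw [pow_succ', pow_succ', Module.End.mul_apply, Module.End.mul_apply, ← ih]
        rfl
    refine LinearMap.ext fun x => Subtype.ext ?_
    exact h7 m (e x)
  rw [← h6, ← h5]
  -- the range of `e` and `invH`
  let ψ : LinearMap.range e ≃ₗ[W.K] X.invH :=
    LinearEquiv.ofBijective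
      (((LinearMap.ker X.N).subtype.comp (LinearMap.range e).subtype).codRestrict X.invH
        fun v => (X.mem_invH _).2 ⟨v.1.2, by
          obtain ⟨y, hy⟩ := v.2
          show X.E (v.1 : X.H) = v.1
          rw [← hy]
          exact X.E_E _⟩)
      ⟨by
        intro v w hvw
        have h1 : ((v.1 : LinearMap.ker X.N) : X.H) = w.1 :=
          congrArg (fun z : X.invH => (z : X.H)) hvw
        exact Subtype.ext (Subtype.ext h1), by
        rintro ⟨h, hh⟩
        have hh' := (X.mem_invH h).1 hh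
        refine ⟨⟨⟨h, LinearMap.mem_ker.2 hh'.1⟩, ⟨⟨h, LinearMap.mem_ker.2 hh'.1⟩,
          Subtype.ext hh'.2⟩⟩, rfl⟩⟩
  rw [← LinearMap.trace_conj' ((G.restrict hGst) ^ m) ψ]
  congr 1
  have h8 : ψ.conj (G.restrict hGst) = X.F.restrict X.F_invH := by
    refine LinearMap.ext fun x => ?_
    obtain ⟨v, rfl⟩ := ψ.surjective x
    rw [LinearEquiv.conj_apply_apply, LinearEquiv.symm_apply_apply]
    rfl
  rw [← h8]
  have h9 : ∀ (T : Module.End W.K (LinearMap.range e)) (m : ℕ),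
      (ψ.conj T) ^ m = ψ.conj (T ^ m) := by
    intro T m
    induction m with
    | zero => rw [pow_zero, pow_zero]; exact (LinearEquiv.conj_id ψ).symm
    | succ n ih =>
      rw [pow_succ, pow_succ, ih]
      exact (LinearEquiv.conj_comp ψ T (T ^ n)).symm
  exact h9 _ m

end Realization

end Pool.Agent.Helper60K9.EL
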