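import Pool.Agent.Helper60K9.EL.Core3

/-!
# Independence of `ℓ` of the local factors
-/

set_option autoImplicit false

open CategoryTheory Polynomial

universe u

namespace Pool.Agent.Helper60K9.EL

open Pool.Agent.H914 Pool.Agent.H914.VarClass Pool.Agent.H914.VarClass.Obj
  Pool.Agent.H914.WeilCohomology Pool.Agent.Helper7K9.OL Pool.Agent.Helper11K9.Dens

variable {k : Type u} [Field k] {𝒱 : VarClass k} {ops : CycleOps 𝒱}

lemma reverse_map_rat (K : Type) [Field K] [CharZero K] (P : ℚ[X]) :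
    (P.map (algebraMap ℚ K)).reverse = P.reverse.map (algebraMap ℚ K) := by
  unfold Polynomial.reverse
  rw [Polynomial.natDegree_map, Polynomial.reflect_map]

theorem core (h1 : S_ONE.{u}) (h2 : S_MUL.{u}) (h3 : S_RSM.{u}) (h4 : S_PAR.{u})
    (h5 : S_TRC.{u}) (h6 : S_NDG.{u}) (h7 : S_REG) (h8 : S_TRD) (h9 : S_PPK) (h10 : S_PPI)
    (h11 : S_CHR) (h12 : S_WTS) (h13 : S_ADD) (h14 : S_REL) (h15 : S_DFA.{u}) (h16 : S_MNA.{u})
    (h17 : S_FRA.{u}) (h18 : S_E1P.{u}) (h19 : S_WTE.{u}) (h20 : S_FIN.{u}) (h21 : S_OPA.{u})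
    {d : ℕ} (D : Strata 𝒱 d) (A : FrobAction D) {Λ : Type} (W : Λ → WeilCohomology.{u, 0} ops)
    (r : ℕ) (P : ℕ → ℚ[X]) (hr : 2 ≤ r) (hP : AreWeilPolynomials r P)
    (hW : ∀ l, IsWeil (W l) D A P)
    (hD : ∀ l (x y : Str D), HomEqNum (W l) ((strY D x).prod (strY D y)))
    (Z : ℕ → CycMat D)
    (Gam : Type) [Group Gam] (I : Subgroup Gam) [I.Normal] (frob : Gam) (i : ℕ)
    (X : ∀ l, Realization (W l) D A r i Z Gam I frob) :
    ∃ R : ℚ[X], ∀ l, (X l).eulerPoly = R.map (algebraMap ℚ (W l).K) := by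
  have := h20 D
  have reg := regular h1 h2 h3 h4 h5 h6 h7 W (strY D) hD
  have hE := h18 D A W r P hr hP hW
  choose q hq0 hq using h19 (ops := ops) D A r P hr hP i
  have piece : ∀ b m, ∃ c : ℚ, ∀ l,
      LinearMap.trace (W l).K ((X l).Asub b)
        ((((X l).FE m).restrict ((X l).FE_mem ((X l).frob_Asub b) ((X l).E_Asub b) m)) ^ 1) -
        LinearMap.trace (W l).K ((X l).fil b)
        ((((X l).FE m).restrict ((X l).FE_mem ((X l).frob_fil b) ((X l).E_fil b) m)) ^ 1)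
      = (c : (W l).K) := by
    intro b m
    obtain ⟨gU, hgU, hgU2, hgUr⟩ := exists_U h1 h2 D W h10 h9 h15 h16 reg hE i b
    obtain ⟨gB, hgB, hgB2, hgBr⟩ := exists_B h1 h2 D W h10 h15 reg hE i b
    obtain ⟨Φ, hΦ, hΦf⟩ := (h17 D A W r i b).1
    obtain ⟨Ε, hΕ, hΕf⟩ := h21 D W (Z b)
    have hΦΕ : Φ ^ m * Ε ∈ algFam W (strY D) :=
      (algRing h1 h2 W (strY D)).mul_mem ((algRing h1 h2 W (strY D)).pow_mem hΦ m) hΕ
    have hp : ∀ l, _ := fun l => (X l).trace_piece h14 b (Φ l) (Ε l) (hΦf l) (hΕf l)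
      (LinearMap.range (gU l)) (LinearMap.range (gB l)) (hgUr l) (hgBr l) m
    choose hU hB hUB using hp
    obtain ⟨c, hc⟩ := traces h1 h2 h5 h8 D W i b (Φ ^ m * Ε) gU hΦΕ hgU hgU2
      (fun l x hx => ((hgUr l x).1 hx).inE1.1) hU 1
    obtain ⟨c', hc'⟩ := traces h1 h2 h5 h8 D W i b (Φ ^ m * Ε) gB hΦΕ hgB hgB2
      (fun l x hx => ((X l).rel_mem b _ _ ((X l).rel_bdry b _ ((hgBr l x).1 hx))).1) hB 1
    refine ⟨c - c', fun l => ?_⟩
    have e1 := hUB l
    have e2 := hc l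
    have e3 := hc' l
    rw [e1]
    push_cast
    exact congrArg₂ (· - ·) e2 e3
  have key := h11 Λ (fun l => (W l).K) (fun l => (X l).invH)
    (fun l => (X l).F.restrict (X l).F_invH) ?_
  · obtain ⟨R, hR⟩ := key
    refine ⟨R.reverse, fun l => ?_⟩
    rw [← reverse_map_rat, ← hR l, ← (X l).charpoly_inv]
    rfl
  · intro m
    choose c hc using fun b => piece b m
    refine ⟨∑ b ∈ Finset.range (2 * i + 1), c b, fun l => ?_⟩
    rw [(X l).trace_invH h8 m, (X l).trace_ker h12 h13 hr q hq0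
      (fun b f hf => hq b (W l) (hW l) _ (fun f => frobL_apply (W l) D A r i b f) f hf) m]
    push_cast
    exact Finset.sum_congr rfl fun b _ => hc b l

end Pool.Agent.Helper60K9.EL
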