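import Pool.Agent.Helper60K9.LF.Base
import Pool.Agent.Helper11K9.Dens.MainDefs
import Pool.Agent.Helper11K9.Dens.AdicDefs

/-!
# Euler factors of varieties with strictly semistable reduction: definitions
-/

set_option autoImplicit false

open CategoryTheory Polynomial

universe u

namespace Pool.Agent.Helper60K9.EL

open Pool.Agent.H914 Pool.Agent.H914.VarClass Pool.Agent.H914.VarClass.Obj
  Pool.Agent.H914.WeilCohomology Pool.Agent.Helper7K9.OL Pool.Agent.Helper11K9.Dens

variable {k : Type u} [Field k] {𝒱 : VarClass k} {ops : CycleOps 𝒱}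

section Terms

variable (W : WeilCohomology.{u, 0} ops) {d : ℕ} (D : Strata 𝒱 d) (A : FrobAction D)

/-- The geometric Frobenius on the cohomology of the `(p + 1)`-fold intersections. -/
noncomputable def phi (p : ℕ) : Module.End W.K (Coh W D p) :=
  LinearMap.pi fun s =>
    (-1 : W.K) ^ A.sg p s • ((W.map (A.fr p s)).toLinearMap ∘ₗ LinearMap.proj (A.perm p s))

/-- The classes of degree `j` on the `(p + 1)`-fold intersections. -/
def deg (p j : ℕ) : Submodule W.K (Coh W D p) :=
  Submodule.pi Set.univ fun s => W.gr (D.Y p s) j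

/-- The theorem of Deligne: `P j` is a polynomial with rational coefficients in the geometric
Frobenius which is zero on the cohomology of degree `j` of the strata. (The complex roots of `P j`
have absolute value `r ^ (j / 2)`, see `AreWeilPolynomials`.) -/
def IsWeil (P : ℕ → ℚ[X]) : Prop :=
  ∀ p j, KillsOn (phi W D A p) (deg W D p j) (P j)

/-- `f` is an element of the term `E_1^(i-b,b)`, of total degree `i` and weight `b`, of the weight
spectral sequence: the sum of the groups `H^(i-p)(-(p+b-i)/2)` of the `(p + 1)`-fold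
intersections over all `p ≤ i` with `|b - i| ≤ p` and `p + b - i` even. -/
def InE1 (i b : ℕ) (f : Tot W D) : Prop :=
  ∀ p s, f p s ∈ W.gr (D.Y p s) (i - p) ∧
    (f p s = 0 ∨ (p ≤ i ∧ ((b : ℤ) - i).natAbs ≤ p ∧ Even ((p : ℤ) + b - i)))

/-- The differential `E_1^(i-b,b) → E_1^(i+1-b,b)`: the sum of `ρ` and `γ`, restricted to the
intersections which occur in the target. -/
noncomputable def dif (i b : ℕ) (f : Tot W D) : Tot W D := fun p s =>
  if ((b : ℤ) - i - 1).natAbs ≤ p then resT W D f p s + gysF W D p (f (p + 1)) s else 0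

/-- The monodromy operator `E_1^(i-b,b) → E_1^(i-b+2,b-2)`: the identity, restricted to the
intersections which occur in the target. -/
noncomputable def mon (i b : ℕ) (f : Tot W D) : Tot W D := fun p s =>
  if ((b : ℤ) - i - 2).natAbs ≤ p then f p s else 0

/-- The geometric Frobenius on `E_1^(i-b,b)`; the Tate twist `-(p+b-i)/2` contributes a power of
the order `r` of the residue field. -/
noncomputable def frobT (r i b : ℕ) (f : Tot W D) : Tot W D := fun p =>
  (r : W.K) ^ (((p : ℤ) + b - i) / 2).toNat • phi W D A p (f p)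

/-- The boundaries in `E_1^(i-b,b)`. -/
def InB (i b : ℕ) (f : Tot W D) : Prop :=
  ∃ g, InE1 W D (i - 1) b g ∧ dif W D (i - 1) b g = f

end Terms

end Pool.Agent.Helper60K9.EL
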