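import Pool.Agent.Helper60K9.EL.Defs

/-!
# Local factors of motives: definitions
-/

set_option autoImplicit false

open CategoryTheory Polynomial

universe u

namespace Pool.Agent.Helper60K9.EL

open Pool.Agent.H914 Pool.Agent.H914.VarClass Pool.Agent.H914.VarClass.Obj
  Pool.Agent.H914.WeilCohomology Pool.Agent.Helper7K9.OL Pool.Agent.Helper11K9.Dens

/-- The realisation `V` of degree `i` of a motive `(X, π)` over a `p`-adic field, inside the
cohomology `H = H^i(X')` of an alteration `X'` of `X` with strictly semistable reduction, for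
abstract terms `T` of the weight spectral sequence: `cyc b`, `bd b` are the cocycles and the
coboundaries in the term of total degree `i` and weight `b`, and `fr b`, `cor b`, `mo b` are the
operators induced on it by Frobenius, by `π` and by the monodromy operator.
* `act` is the action on `V` of the Galois group `Gam`, with the inertia group `I` and a geometric
  Frobenius element `frob`; `F` is the action of `frob` on `H`; `N` is the monodromy operator.
* `E` is the idempotent (`π`, composed with the projection from `H^i(X')` to `H^i(X)` and the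
  average over the finite group through which `I` acts on the strata) with
  `V^I = {h | N h = 0, E h = h}`.
* `fil` is the weight filtration of `H` (`fil (b + 1)` is the part of weight `≤ b`), and `rel b`
  is the isomorphism of its graded piece of weight `b` with the term of the weight spectral
  sequence: `rel b f h` says that `f` is in `cyc b`, that `h` is in `fil (b + 1)`, and that the
  classes of `f` and `h` correspond to each other. -/
structure Realisation (K T : Type) [Field K] [AddCommGroup T] [Module K T]
    (cyc bd : ℕ → T → Prop) (fr cor mo : ℕ → T → T) (r i : ℕ) (Gam : Type) [Group Gam]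
    (I : Subgroup Gam) (frob : Gam) where
  V : Type
  [addV : AddCommGroup V]
  [modV : Module K V]
  [finV : Module.Finite K V]
  act : Gam → V → V
  act_lin : ∀ g, IsLinearMap K (act g)
  act_one : ∀ v, act 1 v = v
  act_mul : ∀ g g' v, act (g * g') v = act g (act g' v)
  H : Type
  [addH : AddCommGroup H]
  [modH : Module K H]
  [finH : Module.Finite K H]
  inj : V → H
  inj_lin : IsLinearMap K inj
  injective : Function.Injective inj
  F : H → H
  N : H → H
  E : H → H
  F_lin : IsLinearMap K F
  N_lin : IsLinearMap K N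
  E_lin : IsLinearMap K E
  inj_frob : ∀ v, inj (act frob v) = F (inj v)
  inv_iff : ∀ h, (∃ v, (∀ g ∈ I, act g v = v) ∧ inj v = h) ↔ (N h = 0 ∧ E h = h)
  N_F : ∀ h, N (F h) = r • F (N h)
  E_E : ∀ h, E (E h) = E h
  E_F : ∀ h, E (F h) = F (E h)
  E_N : ∀ h, E (N h) = N (E h)
  fil : ℕ → Submodule K H
  fil_mono : ∀ b, ∀ h ∈ fil b, h ∈ fil (b + 1)
  fil_zero : ∀ h ∈ fil 0, h = 0
  fil_top : ∀ h, h ∈ fil (2 * i + 1)
  rel : ℕ → T → H → Prop
  rel_add : ∀ b f f' h h', rel b f h → rel b f' h' → rel b (f + f') (h + h')
  rel_smul : ∀ b (c : K) f h, rel b f h → rel b (c • f) (c • h)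
  rel_mem : ∀ b f h, rel b f h → cyc b f ∧ h ∈ fil (b + 1)
  rel_left : ∀ b f, cyc b f → ∃ h, rel b f h
  rel_right : ∀ b, ∀ h ∈ fil (b + 1), ∃ f, rel b f h
  rel_zero : ∀ b f h, rel b f h → (bd b f ↔ h ∈ fil b)
  rel_bdry : ∀ b f, bd b f → rel b f 0
  rel_fil : ∀ b, ∀ h ∈ fil b, rel b 0 h
  rel_F : ∀ b f h, rel b f h → rel b (fr b f) (F h)
  rel_E : ∀ b f h, rel b f h → rel b (cor b f) (E h)
  rel_N : ∀ b f h, rel (b + 2) f h → rel b (mo (b + 2) f) (N h)
  N_low : ∀ h ∈ fil 2, N h = 0

attribute [instance] Realisation.addV Realisation.modV Realisation.finV Realisation.addH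
  Realisation.modH Realisation.finH

namespace Realisation

variable {K T : Type} [Field K] [AddCommGroup T] [Module K T]
    {cyc bd : ℕ → T → Prop} {fr cor mo : ℕ → T → T} {r i : ℕ} {Gam : Type} [Group Gam]
    {I : Subgroup Gam} {frob : Gam} (M : Realisation K T cyc bd fr cor mo r i Gam I frob)

/-- The invariants of the inertia group in the realisation `V`. -/
def inv : Submodule K M.V where
  carrier := {v | ∀ g ∈ I, M.act g v = v}
  add_mem' := fun ha hb g hg => by rw [(M.act_lin g).map_add, ha g hg, hb g hg]
  zero_mem' := fun g _ => (M.act_lin g).map_zero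
  smul_mem' := fun c x hx g hg => by rw [(M.act_lin g).map_smul, hx g hg]

lemma frob_inv [I.Normal] : ∀ v ∈ M.inv, (M.act_lin frob).mk' _ v ∈ M.inv := by
  intro h hh g hg
  have h1 : frob⁻¹ * g * frob ∈ I := by
    have := Subgroup.Normal.conj_mem (H := I) inferInstance g hg frob⁻¹
    simpa using this
  have h2 := hh _ h1
  have h3 : M.act frob (M.act (frob⁻¹ * g * frob) h) = M.act g (M.act frob h) := by
    rw [← M.act_mul, ← M.act_mul]
    congr 1
    group
  show M.act g (M.act frob h) = M.act frob h
  rw [← h3, h2]

/-- The local factor `det (1 - T frob | V^I)`. -/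
noncomputable def eulerPoly [I.Normal] : K[X] :=
  (((M.act_lin frob).mk' _).restrict M.frob_inv).charpoly.reverse

end Realisation

variable {k : Type u} [Field k] {𝒱 : VarClass k} {ops : CycleOps 𝒱} {p : ℕ}

section Terms

variable (W : WeilCohomology.{u, 0} ops) {X Y : 𝒱.Obj}

variable {d : ℕ} (D : Strata 𝒱 d) (A : FrobAction D)

/-- The theorem of Deligne: the polynomial `P j` with rational coefficients in the geometric
Frobenius is zero on the cohomology of degree `j` of the strata. (The complex roots of `P j` have
absolute value `r ^ (j / 2)`, see `AreWeilPolynomials`.) -/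
def FrobKilled (P : ℕ → ℚ[X]) : Prop :=
  ∀ (p j : ℕ) (x : Coh W D p), (∀ s, x s ∈ W.gr (D.Y p s) j) → ∀ s,
    ∑ n ∈ Finset.range ((P j).natDegree + 1), rat W ((P j).coeff n) ((phiF W D A p)^[n] x s) = 0

/-- The geometric Frobenius on `E_1^(i-b,b)`; the Tate twist `-(p+b-i)/2` contributes a power of
the order `r` of the residue field. -/
noncomputable def frobE (r i b : ℕ) (f : Tot W D) : Tot W D := fun p s =>
  scl W r (((p : ℤ) + b - i) / 2).toNat (phiF W D A p (f p) s)

/-- The cocycles in `E_1^(i-b,b)`. -/
def InZ (i b : ℕ) (f : Tot W D) : Prop := InE1 W D i b f ∧ dif W D i b f = 0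

end Terms

/-- The realisation of degree `i` of a motive, for the terms of the weight spectral sequence given
by the strata `D`, with the action of Frobenius `A` and the cycles `Z b` by which the projector
acts on the term of weight `b`. -/
abbrev RealisationAt (W : WeilCohomology.{u, 0} ops) {d : ℕ} (D : Strata 𝒱 d)
    (A : FrobAction D) (r i : ℕ) (Z : ℕ → CycMat D) (Gam : Type) [Group Gam] (I : Subgroup Gam)
    (frob : Gam) : Type 1 :=
  Realisation W.K (Tot W D) (InZ W D i) (InB W D i) (frobE W D A r i) (fun b => (Z b).act W)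
    (mon W D i) r i Gam I frob

/-- A motive over a `p`-adic field: the strata `D` over the algebraic closure `k` of the residue
field of a strictly semistable alteration, the Frobenius of the residue field (of order `r`),
Deligne's polynomials `P j` for the cohomology of degree `j` of the strata, the cycles `Z i b` on
the products of two strata by which the projector acts (degree `i`, weight `b`; T. Saito), the
Galois group, its inertia group, a geometric Frobenius element, and the `ℓ`-adic realisations of
degree `i` for all primes `ℓ ≠ p`. -/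
structure MotiveAt (S : AdicSystem ops p) where
  d : ℕ
  D : Strata 𝒱 d
  A : FrobAction D
  r : ℕ
  two_le : 2 ≤ r
  P : ℕ → ℚ[X]
  weil : AreWeilPolynomials r P
  kills : ∀ ℓ, ℓ.Prime → ℓ ≠ p → FrobKilled (S.W ℓ) D A P
  Z : ℕ → ℕ → CycMat D
  Gam : Type
  [grp : Group Gam]
  I : Subgroup Gam
  [normal : I.Normal]
  frob : Gam
  real : ∀ ℓ, ℓ.Prime → ℓ ≠ p → ∀ i, RealisationAt (S.W ℓ) D A r i (Z i) Gam I frob

attribute [instance] MotiveAt.grp MotiveAt.normal

variable {S : AdicSystem ops p}

/-- For all primes `ℓ ≠ p` in `𝓛` and all `i`, the local factor `det (1 - T frob | V^I)` of the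
`ℓ`-adic realisation of degree `i` has rational coefficients, and does not depend on `ℓ`. -/
def MotiveAt.FactorsAgree (M : MotiveAt S) (𝓛 : Set ℕ) : Prop :=
  ∃ R : ℕ → ℚ[X], ∀ ℓ ∈ 𝓛, ∀ (h : ℓ.Prime) (h' : ℓ ≠ p) (i : ℕ),
    (M.real ℓ h h' i).eulerPoly = (R i).map (algebraMap ℚ (S.W ℓ).K)

/-- The strata are dominated by products of members of `R`: every connected component `Y` of an
intersection of components of the closed fibre has a morphism `g : U ⟶ Y` from a product `U` of
members of `R` such that `g^*` is injective on the `ℓ`-adic cohomology for all primes `ℓ ≠ p` (for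
example `g` surjective). -/
def MotiveAt.StrataIn (M : MotiveAt S) (R : Set 𝒱.Obj) : Prop :=
  ∀ (q : ℕ) (s : M.D.S q), ∃ (U : 𝒱.Obj) (g : U ⟶ M.D.Y q s), IsProductOf R U ∧
    ∀ ℓ : ℕ, ℓ.Prime → ℓ ≠ p → Function.Injective ((S.W ℓ).map g)

/-- In `ℓ`-adic cohomology, `ℓ` in `𝓛`, homological and numerical equivalence coincide on the
products of two strata. -/
def MotiveAt.HomIsNum (M : MotiveAt S) (𝓛 : Set ℕ) : Prop :=
  ∀ ℓ ∈ 𝓛, ℓ.Prime → ℓ ≠ p → ∀ (q q' : ℕ) (s : M.D.S q) (s' : M.D.S q'),
    HomEqNum (S.W ℓ) ((M.D.Y q s).prod (M.D.Y q' s'))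

end Pool.Agent.Helper60K9.EL
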