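import Pool.Agent.Helper60K9.EL.Stm

/-!
# [E1P] the terms of the weight spectral sequence are images of algebraic idempotents
-/

set_option autoImplicit false

open CategoryTheory Polynomial

universe u

namespace Pool.Agent.Helper60K9.EL

open Pool.Agent.H914 Pool.Agent.H914.VarClass Pool.Agent.H914.VarClass.Obj
  Pool.Agent.H914.WeilCohomology Pool.Agent.Helper7K9.OL Pool.Agent.Helper11K9.Dens

namespace E1pL

variable {k : Type u} [Field k] {𝒱 : VarClass k} {ops : CycleOps 𝒱} {d : ℕ} (D : Strata 𝒱 d)

/-- rational polynomials in an algebraic operator are algebraic -/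
theorem poly_mem (h1 : S_ONE.{u}) (hs : S_RSM.{u}) (hm : S_MUL.{u}) {ι : Type} [Finite ι]
    {Λ : Type} (W : Λ → WeilCohomology.{u, 0} ops) (Y : ι → 𝒱.Obj)
    {T : ∀ l, Module.End (W l).K (Sm (W l) Y)} (hT : T ∈ algFam W Y) (g : ℚ[X]) :
    (fun l => aeval (T l) (g.map (algebraMap ℚ (W l).K))) ∈ algFam W Y := by
  have hpow : ∀ m : ℕ, T ^ m ∈ algFam W Y := by
    intro m
    induction m with
    | zero => rw [pow_zero]; exact h1 W Y
    | succ m ih => rw [pow_succ]; exact hm W Y _ ih _ hT
  induction g using Polynomial.induction_on' with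
  | add g h hg hh =>
    have := (algFam W Y).add_mem hg hh
    convert this using 1
    funext l
    rw [Polynomial.map_add, map_add]
    rfl
  | monomial m c =>
    have := hs W Y c _ (hpow m)
    convert this using 1
    funext l
    rw [Polynomial.map_monomial, aeval_monomial, eq_ratCast, Pi.pow_apply]
    rw [← Algebra.smul_def]

/-- the classes of the variety are sums of homogeneous classes -/
theorem deg_induction (W : WeilCohomology.{u, 0} ops) (p : ℕ) {C : Coh W D p → Prop}
    (hC : ∀ j, ∀ x ∈ deg W D p j, C x) (hadd : ∀ x y, C x → C y → C (x + y)) (x : Coh W D p) :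
    C x := by
  classical
  have key : ∀ s (a : W.H (D.Y p s)), C (Pi.single s a) := by
    intro s a
    refine gr_induction (W.isInternal (D.Y p s)) (p := fun a => C (Pi.single s a)) ?_ ?_ a
    · intro j a ha
      refine hC j _ ?_
      intro t _
      by_cases hts : t = s
      · subst hts
        rwa [Pi.single_eq_same]
      · rw [Pi.single_eq_of_ne hts]
        exact Submodule.zero_mem _
    · intro a b ha hb
      rw [Pi.single_add]
      exact hadd _ _ ha hb
  rw [← Finset.univ_sum_single x]
  have h0 : C 0 := hC 0 0 (Submodule.zero_mem _)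
  exact Finset.sum_induction _ C hadd h0 (fun s _ => key s _)

/-- the degrees are bounded -/
theorem deg_eq_zero (W : WeilCohomology.{u, 0} ops) (p j : ℕ) (hj : 2 * d < j) {x : Coh W D p}
    (hx : x ∈ deg W D p j) : x = 0 := by
  funext s
  have h1 : x s ∈ W.gr (D.Y p s) j := hx s trivial
  have h2 := D.dim_add p s
  rw [W.gr_eq_bot (D.Y p s) j (by omega)] at h1
  exact h1

end E1pL

open E1pL in
theorem e1p : S_CRT → S_FRA.{u} → S_MUL.{u} → S_ONE.{u} → S_RSM.{u} → S_E1P.{u} := by
  classical
  intro hcrt hfra hmul hone hrsm k _ 𝒱 ops d D _ A Λ W r P hr hP hW i b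
  -- the Frobenius on the stratum `p`
  choose Φ hΦ hΦ' using fun p => (hfra D A W r i b).2 p
  -- the polynomials
  have hpoly : ∀ j : ℕ, ∃ u : ℚ[X], P j ∣ X * u - 1 ∧ ∀ j' ≤ 2 * d, j' ≠ j → P j' ∣ X * u := by
    intro j
    obtain ⟨u, hu1, hu2⟩ := hcrt P r (2 * d) j hr hP
    have hcop : IsCoprime (X : ℚ[X]) (P j) := by
      refine (irreducible_X.coprime_iff_not_dvd).2 fun h => ?_
      have h1 : aeval (0 : ℂ) (P j) = 0 := by
        obtain ⟨g, hg⟩ := h
        rw [hg, map_mul, aeval_X, zero_mul]
      have h2 := hP j 0 h1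
      rw [norm_zero] at h2
      have h3 : (0 : ℝ) < (r : ℝ) ^ j := by
        have : (0 : ℝ) < r := by exact_mod_cast (by omega : 0 < r)
        positivity
      rw [← h2] at h3
      norm_num at h3
    obtain ⟨a, c, hac⟩ := hcop
    refine ⟨a * u, ?_, fun j' hj' hne => ?_⟩
    · obtain ⟨g, hg⟩ := hu1
      refine ⟨g - c * u, ?_⟩
      linear_combination hg + u * hac
    · rw [← mul_assoc]
      exact (hu2 j' hj' hne).mul_left _
  choose u hu1 hu2 using hpoly
  -- the idempotent
  let S : Finset ℕ := (Finset.range (i + 1)).filter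
    (fun p : ℕ => ((b : ℤ) - i).natAbs ≤ p ∧ Even ((p : ℤ) + b - i))
  let T : ∀ l, Module.End (W l).K (Sm (W l) (strY D)) := fun l =>
    ∑ p ∈ S, aeval (Φ p l) ((X * u (i - p)).map (algebraMap ℚ (W l).K))
  have hTmem : T ∈ algFam W (strY D) := by
    have h1 : T = ∑ p ∈ S, fun l => aeval (Φ p l) ((X * u (i - p)).map (algebraMap ℚ (W l).K)) := by
      funext l
      rw [Finset.sum_apply]
    rw [h1]
    exact (algFam W (strY D)).sum_mem fun p _ => poly_mem hone hrsm hmul W (strY D) (hΦ p) _
  -- its value
  have hval : ∀ l (f : Tot (W l) D) (p : ℕ) (g : ℚ[X]),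
      aeval (Φ p l) ((X * g).map (algebraMap ℚ (W l).K)) (cur (W l) D f) =
        cur (W l) D (Pi.single p (aeval (phi (W l) D A p)
          ((X * g).map (algebraMap ℚ (W l).K)) (f p))) := by
    intro l f p g
    have hpow : ∀ (m : ℕ) (f : Tot (W l) D), ((Φ p l) ^ (m + 1)) (cur (W l) D f) =
        cur (W l) D (Pi.single p (((phi (W l) D A p) ^ (m + 1)) (f p))) := by
      intro m
      induction m with
      | zero => intro f; rw [zero_add, pow_one, pow_one, hΦ']
      | succ m ih =>
        intro f
        rw [pow_succ, Module.End.mul_apply, hΦ', ih, Pi.single_eq_same, pow_succ _ (m + 1),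
          Module.End.mul_apply]
    induction g using Polynomial.induction_on' with
    | add g h hg hh =>
      rw [mul_add, Polynomial.map_add, map_add, map_add, LinearMap.add_apply,
        LinearMap.add_apply, hg, hh, Pi.single_add, map_add]
    | monomial m c =>
      rw [X_mul_monomial, Polynomial.map_monomial, aeval_monomial, aeval_monomial,
        Module.End.mul_apply, Module.End.mul_apply, Module.algebraMap_end_apply,
        Module.algebraMap_end_apply, hpow, ← map_smul, Pi.single_smul]
  have hT : ∀ l (f : Tot (W l) D), T l (cur (W l) D f) = cur (W l) D (fun p =>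
      if p ∈ S then aeval (phi (W l) D A p) ((X * u (i - p)).map (algebraMap ℚ (W l).K)) (f p)
      else 0) := by
    intro l f
    have h1 : T l (cur (W l) D f) = ∑ p ∈ S, cur (W l) D (Pi.single p (aeval (phi (W l) D A p)
          ((X * u (i - p)).map (algebraMap ℚ (W l).K)) (f p))) := by
      show (∑ p ∈ S, aeval (Φ p l) ((X * u (i - p)).map (algebraMap ℚ (W l).K)))
        (cur (W l) D f) = _
      rw [LinearMap.sum_apply]
      exact Finset.sum_congr rfl fun p _ => hval l f p _
    rw [h1, ← map_sum]
    congr 1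
    funext p
    rw [Finset.sum_apply, Finset.sum_pi_single]
  have hmemS : ∀ p, p ∈ S ↔ p ≤ i ∧ ((b : ℤ) - i).natAbs ≤ p ∧ Even ((p : ℤ) + b - i) := by
    intro p
    rw [Finset.mem_filter, Finset.mem_range]
    constructor
    · rintro ⟨h1, h2⟩
      exact ⟨by omega, h2⟩
    · rintro ⟨h1, h2⟩
      exact ⟨by omega, h2⟩
  -- the projections
  have hproj : ∀ l p (x : Coh (W l) D p),
      aeval (phi (W l) D A p) ((X * u (i - p)).map (algebraMap ℚ (W l).K)) x ∈
        deg (W l) D p (i - p) := by
    intro l p x
    refine deg_induction D (W l) p (C := fun x => aeval (phi (W l) D A p)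
      ((X * u (i - p)).map (algebraMap ℚ (W l).K)) x ∈ deg (W l) D p (i - p)) ?_ ?_ x
    · intro j x hx
      by_cases hj : j = i - p
      · subst hj
        have h1 : aeval (phi (W l) D A p) ((X * u (i - p) - 1).map (algebraMap ℚ (W l).K)) x = 0 := by
          obtain ⟨g, hg⟩ := hu1 (i - p)
          rw [hg, mul_comm, Polynomial.map_mul, map_mul, Module.End.mul_apply, hW l p _ x hx,
            map_zero]
        rw [Polynomial.map_sub, Polynomial.map_one, map_sub, map_one, LinearMap.sub_apply,
          Module.End.one_apply, sub_eq_zero] at h1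
        rw [h1]
        exact hx
      · by_cases hj2 : j ≤ 2 * d
        · have h1 : aeval (phi (W l) D A p) ((X * u (i - p)).map (algebraMap ℚ (W l).K)) x = 0 := by
            obtain ⟨g, hg⟩ := hu2 (i - p) j hj2 hj
            rw [hg, mul_comm, Polynomial.map_mul, map_mul, Module.End.mul_apply, hW l p _ x hx,
              map_zero]
          rw [h1]
          exact Submodule.zero_mem _
        · rw [deg_eq_zero D (W l) p j (by omega) hx, map_zero]
          exact Submodule.zero_mem _
    · intro x y hx hy
      rw [map_add]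
      exact Submodule.add_mem _ hx hy
  have hin : ∀ l (f : Tot (W l) D), InE1 (W l) D i b ((cur (W l) D).symm (T l (cur (W l) D f))) := by
    intro l f p s
    rw [hT, LinearEquiv.symm_apply_apply]
    by_cases hp : p ∈ S
    · rw [if_pos hp]
      exact ⟨hproj l p (f p) s trivial, Or.inr ((hmemS p).1 hp)⟩
    · rw [if_neg hp]
      exact ⟨Submodule.zero_mem _, Or.inl rfl⟩
  have hid : ∀ l (f : Tot (W l) D), InE1 (W l) D i b f → T l (cur (W l) D f) = cur (W l) D f := by
    intro l f hf
    rw [hT]
    congr 1
    funext p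
    by_cases hp : p ∈ S
    · rw [if_pos hp]
      have hx : f p ∈ deg (W l) D p (i - p) := fun s _ => (hf p s).1
      have h1 : aeval (phi (W l) D A p) ((X * u (i - p) - 1).map (algebraMap ℚ (W l).K)) (f p) = 0 := by
        obtain ⟨g, hg⟩ := hu1 (i - p)
        rw [hg, mul_comm, Polynomial.map_mul, map_mul, Module.End.mul_apply, hW l p _ _ hx,
          map_zero]
      rw [Polynomial.map_sub, Polynomial.map_one, map_sub, map_one, LinearMap.sub_apply,
        Module.End.one_apply, sub_eq_zero] at h1
      exact h1
    · rw [if_neg hp]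
      funext s
      exact ((hf p s).2.resolve_right fun h => hp ((hmemS p).2 h)).symm
  have hin' : ∀ l (x : Sm (W l) (strY D)), InE1 (W l) D i b ((cur (W l) D).symm (T l x)) := by
    intro l x
    have := hin l ((cur (W l) D).symm x)
    rwa [LinearEquiv.apply_symm_apply] at this
  have hid' : ∀ l (x : Sm (W l) (strY D)), InE1 (W l) D i b ((cur (W l) D).symm x) → T l x = x := by
    intro l x hx
    have := hid l ((cur (W l) D).symm x) hx
    rwa [LinearEquiv.apply_symm_apply] at this
  refine ⟨T, hTmem, ?_, fun l f => ⟨?_, fun hf => ⟨f, hid' l f hf⟩⟩⟩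
  · funext l
    refine LinearMap.ext fun x => ?_
    exact hid' l _ (hin' l x)
  · rintro ⟨x, rfl⟩
    exact hin' l x

end Pool.Agent.Helper60K9.EL
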