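import Pool.Agent.Helper60K9.EL.Stm

/-!
# Relay EL, leaves [ONE], [RSM], [MUL], [PAR], [FIN] (helper80)
-/

set_option autoImplicit false

open CategoryTheory Polynomial

universe u

namespace Pool.Agent.Helper60K9.EL

open Pool.Agent.H914 Pool.Agent.H914.VarClass Pool.Agent.H914.VarClass.Obj
  Pool.Agent.H914.WeilCohomology Pool.Agent.Helper7K9.OL Pool.Agent.Helper11K9.Dens

namespace MulL

section

variable {k : Type u} [Field k] {𝒱 : VarClass k} {ops : CycleOps 𝒱} {ι : Type}

theorem elem_same (W : WeilCohomology.{u, 0} ops) (Y : ι → 𝒱.Obj) (x y : ι)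
    (z : ((Y x).prod (Y y)).Cycles) (f : Sm W Y) :
    elem W Y x y z f y = W.corr (W.cl _ z) (f x) := by
  classical
  unfold elem
  simp only [LinearMap.comp_apply, LinearMap.proj_apply, LinearMap.single_apply]
  rw [Pi.single_eq_same]

theorem elem_ne (W : WeilCohomology.{u, 0} ops) (Y : ι → 𝒱.Obj) (x y y' : ι) (h : y' ≠ y)
    (z : ((Y x).prod (Y y)).Cycles) (f : Sm W Y) :
    elem W Y x y z f y' = 0 := by
  classical
  unfold elem
  simp only [LinearMap.comp_apply, LinearMap.proj_apply, LinearMap.single_apply]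
  rw [Pi.single_eq_of_ne h]

theorem elem_mem {Λ : Type} (W : Λ → WeilCohomology.{u, 0} ops) (Y : ι → 𝒱.Obj) [Finite ι]
    (x y : ι) (q : ℕ) (z : ((Y x).prod (Y y)).Cycles) (hz : ((Y x).prod (Y y)).IsCyc q z) :
    (fun l => elem (W l) Y x y z) ∈ algFam W Y :=
  AddSubgroup.subset_closure ⟨x, y, q, z, hz, fun _ => rfl⟩

/-- composition of two elementary operators -/
theorem elem_mul (W : WeilCohomology.{u, 0} ops) (Y : ι → 𝒱.Obj) (x y z : ι) {q : ℕ}
    (c : ((Y y).prod (Y z)).Cycles) (hc : ((Y y).prod (Y z)).IsCyc q c)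
    (c' : ((Y x).prod (Y y)).Cycles) :
    elem W Y y z c * elem W Y x y c' = elem W Y x z (compCyc ops c' c) := by
  apply LinearMap.ext
  intro f
  funext t
  rw [Module.End.mul_apply]
  by_cases ht : t = z
  · subst ht
    rw [elem_same, elem_same, elem_same]
    unfold compCyc
    rw [W.cl_push, W.cl_mul, W.cl_pull, W.cl_pull, W.corr_comp _ (W.cl_mem hc)]
    rfl
  · rw [elem_ne W Y y z t ht, elem_ne W Y x z t ht]

theorem elem_mul_ne (W : WeilCohomology.{u, 0} ops) (Y : ι → 𝒱.Obj) (x y y' z : ι) (h : y' ≠ y)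
    (c : ((Y y').prod (Y z)).Cycles) (c' : ((Y x).prod (Y y)).Cycles) :
    elem W Y y' z c * elem W Y x y c' = 0 := by
  apply LinearMap.ext
  intro f
  funext t
  rw [Module.End.mul_apply]
  by_cases ht : t = z
  · subst ht
    rw [elem_same, elem_ne W Y x y y' h, map_zero]
    rfl
  · rw [elem_ne W Y y' z t ht]
    rfl

/-- the class of the composition vanishes if its codimension is negative -/
theorem elem_mul_zero (W : WeilCohomology.{u, 0} ops) (Y : ι → 𝒱.Obj) (x y z : ι) {q q' : ℕ}
    (c : ((Y y).prod (Y z)).Cycles) (hc : ((Y y).prod (Y z)).IsCyc q c)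
    (c' : ((Y x).prod (Y y)).Cycles) (hc' : ((Y x).prod (Y y)).IsCyc q' c')
    (h : q' + q < (Y y).dim) :
    elem W Y x z (compCyc ops c' c) = 0 := by
  have h0 : W.cl _ (compCyc ops c' c) = 0 := by
    unfold compCyc
    rw [W.cl_push, W.cl_mul, W.cl_pull, W.cl_pull]
    have h1 := W.push_mem (p13 (Y x) (Y y) (Y z)) (W.mul_mem
      (W.map_mem (p12 (Y x) (Y y) (Y z)) (W.cl_mem hc'))
      (W.map_mem (p23 (Y x) (Y y) (Y z)) (W.cl_mem hc)))
    rw [grZ_of_neg] at h1
    · exact (Submodule.mem_bot _).1 h1
    · rw [dim_prod, dim_prod, dim_prod]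
      push_cast
      have : (q' : ℤ) + q < (Y y).dim := by exact_mod_cast h
      linarith
  apply LinearMap.ext
  intro f
  funext t
  by_cases ht : t = z
  · subst ht
    rw [elem_same, h0, W.corr_zero]
    rfl
  · rw [elem_ne W Y x z t ht]
    rfl

/-- algebraic operators preserve the parity -/
theorem par_corr (W : WeilCohomology.{u, 0} ops) (X Y : 𝒱.Obj) {q : ℕ} {c : W.H (X.prod Y)}
    (hc : c ∈ W.gr (X.prod Y) (2 * q)) (a : W.H X) :
    par (W.isInternal Y) (W.corr c a) = W.corr c (par (W.isInternal X) a) := by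
  refine gr_induction (W.isInternal X)
    (p := fun a => par (W.isInternal Y) (W.corr c a) = W.corr c (par (W.isInternal X) a)) ?_ ?_ a
  · intro i a ha
    have h1 := W.push_mem (snd X Y) (W.mul_mem hc (W.map_mem (fst X Y) ha))
    rw [dim_prod] at h1
    have h2 : par (W.isInternal X) a = (-1 : W.K) ^ i • a := by
      rw [par, scal_apply _ _ ha]
    rw [h2, map_smul, corr_apply]
    by_cases hj : 0 ≤ ((2 * q + i : ℕ) : ℤ) + 2 * ((Y.dim : ℤ) - ((X.dim + Y.dim : ℕ) : ℤ))
    · obtain ⟨j, hj'⟩ := Int.eq_ofNat_of_zero_le hj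
      rw [hj', grZ_natCast] at h1
      rw [par, scal_apply _ _ h1]
      congr 1
      have h3 : (j : ℤ) = i + 2 * (q - X.dim) := by
        rw [← hj']; push_cast; ring
      rcases Nat.even_or_odd i with he | he
      · have : Even j := by
          have h4 : Even (j : ℤ) := by
            rw [h3]
            exact Even.add (by exact_mod_cast he) (even_two_mul _)
          exact_mod_cast h4
        rw [he.neg_one_pow, this.neg_one_pow]
      · have : Odd j := by
          have h4 : Odd (j : ℤ) := by
            rw [h3]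
            exact Odd.add_even (by exact_mod_cast he) (even_two_mul _)
          exact_mod_cast h4
        rw [he.neg_one_pow, this.neg_one_pow]
    · rw [grZ_of_neg (by omega)] at h1
      rw [(Submodule.mem_bot _).1 h1, map_zero, smul_zero]
  · intro a b ha hb
    rw [map_add, map_add, map_add, map_add, ha, hb]

end

end MulL

open MulL

theorem one : S_ONE.{u} := by
  intro k _ 𝒱 ops ι _ Λ W Y
  classical
  have := Fintype.ofFinite ι
  have h1 : (1 : ∀ l, Module.End (W l).K (Sm (W l) Y)) =
      ∑ x : ι, fun l => elem (W l) Y x x (ops.push (diag (Y x)) (Y x).V.fundCycle) := by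
    funext l
    rw [Finset.sum_apply]
    apply LinearMap.ext
    intro f
    rw [LinearMap.sum_apply]
    funext y
    rw [Finset.sum_apply, Finset.sum_eq_single y]
    · rw [elem_same, (W l).cl_push, (W l).cl_fund, corr_diag, one_mul]
      rfl
    · intro x _ hx
      exact elem_ne (W l) Y x x y (Ne.symm hx) _ f
    · intro h
      exact absurd (Finset.mem_univ y) h
  rw [h1]
  apply AddSubgroup.sum_mem
  intro x _
  refine elem_mem W Y x x (Y x).dim _ ?_
  exact ops.push_mem (diag (Y x)) (SmVar.fundCycle_mem _) (by rw [dim_prod]; ring)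

theorem rsm : S_RSM.{u} := by
  intro k _ 𝒱 ops ι _ Λ W Y c T hT
  unfold algFam at hT
  induction hT using AddSubgroup.closure_induction with
  | mem T hT =>
    obtain ⟨x, y, q, z, hz, hT⟩ := hT
    refine AddSubgroup.subset_closure ⟨x, y, q, c • z, hz.smul c, fun l => ?_⟩
    change (c : (W l).K) • T l = _
    rw [hT l]
    apply LinearMap.ext
    intro f
    funext t
    by_cases ht : t = y
    · subst ht
      rw [elem_same, (W l).cl_smul, corr_smul, LinearMap.smul_apply, LinearMap.smul_apply,
        Pi.smul_apply, elem_same]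
    · rw [elem_ne (W l) Y x y t ht, LinearMap.smul_apply, Pi.smul_apply,
        elem_ne (W l) Y x y t ht, smul_zero]
  | zero =>
    have : (fun l => (c : (W l).K) • (0 : ∀ l, Module.End (W l).K (Sm (W l) Y)) l) = 0 := by
      funext l
      simp
    rw [this]
    exact AddSubgroup.zero_mem _
  | add T T' _ _ h h' =>
    have : (fun l => (c : (W l).K) • (T + T') l) =
        (fun l => (c : (W l).K) • T l) + (fun l => (c : (W l).K) • T' l) := by
      funext l
      simp [smul_add]
    rw [this]
    exact AddSubgroup.add_mem _ h h'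
  | neg T _ h =>
    have : (fun l => (c : (W l).K) • (-T) l) = -(fun l => (c : (W l).K) • T l) := by
      funext l
      simp
    rw [this]
    exact AddSubgroup.neg_mem _ h

theorem mul : S_MUL.{u} := by
  intro k _ 𝒱 ops ι _ Λ W Y T hT T' hT'
  unfold algFam at hT
  induction hT using AddSubgroup.closure_induction with
  | mem T hT =>
    obtain ⟨y, z, q, c, hc, hT⟩ := hT
    unfold algFam at hT'
    induction hT' using AddSubgroup.closure_induction with
    | mem T' hT' =>
      obtain ⟨x, y', q', c', hc', hT'⟩ := hT'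
      by_cases hy : y = y'
      · subst hy
        have h1 : T * T' = fun l => elem (W l) Y x z (compCyc ops c' c) := by
          funext l
          rw [Pi.mul_apply, hT l, hT' l, elem_mul (W l) Y x y z c hc c']
        rw [h1]
        by_cases hq : (Y y).dim ≤ q' + q
        · refine elem_mem W Y x z (q' + q - (Y y).dim) _ ?_
          refine ops.push_mem _ (ops.mul_mem (ops.pull_mem _ hc') (ops.pull_mem _ hc)) ?_
          rw [dim_prod, dim_prod, dim_prod]
          omega
        · have h2 : (fun l => elem (W l) Y x z (compCyc ops c' c)) =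
              (0 : ∀ l, Module.End (W l).K (Sm (W l) Y)) := by
            funext l
            exact elem_mul_zero (W l) Y x y z c hc c' hc' (by omega)
          rw [h2]
          exact AddSubgroup.zero_mem _
      · have h1 : T * T' = 0 := by
          funext l
          rw [Pi.mul_apply, hT l, hT' l, elem_mul_ne (W l) Y x y' y z hy c c']
          rfl
        rw [h1]
        exact AddSubgroup.zero_mem _
    | zero => rw [mul_zero]; exact AddSubgroup.zero_mem _
    | add T1 T2 _ _ h h' => rw [mul_add]; exact AddSubgroup.add_mem _ h h'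
    | neg T1 _ h =>
      have h1 : T * -T1 = -(T * T1) := by
        funext l
        apply LinearMap.ext
        intro f
        change T l (-(T1 l f)) = -(T l (T1 l f))
        rw [map_neg]
      rw [h1]
      exact AddSubgroup.neg_mem _ h
  | zero => rw [zero_mul]; exact AddSubgroup.zero_mem _
  | add T1 T2 _ _ h h' => rw [add_mul]; exact AddSubgroup.add_mem _ h h'
  | neg T1 _ h =>
    have h1 : -T1 * T' = -(T1 * T') := by
      funext l
      apply LinearMap.ext
      intro f
      rfl
    rw [h1]
    exact AddSubgroup.neg_mem _ h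

theorem par_ : S_PAR.{u} := by
  intro k _ 𝒱 ops ι _ Λ W Y T hT l
  unfold algFam at hT
  induction hT using AddSubgroup.closure_induction with
  | mem T hT =>
    obtain ⟨x, y, q, c, hc, hT⟩ := hT
    rw [hT l]
    apply LinearMap.ext
    intro f
    funext t
    rw [Module.End.mul_apply, Module.End.mul_apply]
    have hp : ∀ (g : Sm (W l) Y) (s : ι), pars (W l) Y g s = H914.par ((W l).isInternal (Y s)) (g s) := by
      intro g s
      rfl
    by_cases ht : t = y
    · subst ht
      rw [elem_same, hp, hp, elem_same]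
      exact par_corr (W l) (Y x) (Y t) ((W l).cl_mem hc) (f x)
    · rw [elem_ne (W l) Y x y t ht, hp, elem_ne (W l) Y x y t ht, map_zero]
  | zero =>
    rw [Pi.zero_apply, mul_zero, zero_mul]
  | add T1 T2 _ _ h h' => rw [Pi.add_apply, mul_add, add_mul, h, h']
  | neg T1 _ h =>
    apply LinearMap.ext
    intro f
    have h1 := congrArg (fun G => G f) h
    change pars (W l) Y (-(T1 l f)) = -(T1 l (pars (W l) Y f))
    rw [map_neg]
    exact congrArg (fun v => -v) h1

theorem fin : S_FIN.{u} := by
  intro k _ 𝒱 d D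
  let g : Str D → Σ p : Fin (d + 1), D.S p := fun x =>
    ⟨⟨x.1, by have := D.dim_add x.1 x.2; omega⟩, x.2⟩
  apply Finite.of_injective g
  rintro ⟨p, s⟩ ⟨p', s'⟩ h
  have h1 : p = p' := by
    have := congrArg (fun y : Σ p : Fin (d + 1), D.S p => (y.1 : ℕ)) h
    exact this
  subst h1
  have h2 := Sigma.mk.inj_iff.1 h
  rw [Sigma.mk.inj_iff]
  exact ⟨rfl, h2.2⟩

end Pool.Agent.Helper60K9.EL
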