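import Pool.Agent.Helper60K9.EL.Mna
import Pool.Agent.Helper60K9.EL.Mul

/-!
# [FRA] Frobenius is algebraic
-/

set_option autoImplicit false

open CategoryTheory Polynomial

universe u

namespace Pool.Agent.Helper60K9.EL

open Pool.Agent.H914 Pool.Agent.H914.VarClass Pool.Agent.H914.VarClass.Obj
  Pool.Agent.H914.WeilCohomology Pool.Agent.Helper7K9.OL Pool.Agent.Helper11K9.Dens MnaL

namespace FraL

variable {k : Type u} [Field k] {𝒱 : VarClass k} {ops : CycleOps 𝒱} {d : ℕ}

/-- the part of Frobenius which goes to the stratum `x`, times a rational number which depends on the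
codimension -/
noncomputable def fpart (W : WeilCohomology.{u, 0} ops) (D : Strata 𝒱 d) (A : FrobAction D)
    [DecidableEq (Str D)] (c : ℕ → ℚ) (x : Str D) : Module.End W.K (Sm W (strY D)) :=
  (c x.1 : W.K) • ((-1 : W.K) ^ A.sg x.1 x.2 •
    bpl W (strY D) x ⟨x.1, A.perm x.1 x.2⟩ (A.fr x.1 x.2))

theorem fpart_apply (W : WeilCohomology.{u, 0} ops) (D : Strata 𝒱 d) (A : FrobAction D)
    [DecidableEq (Str D)] (c : ℕ → ℚ) (x : Str D) (f : Tot W D) (y : Str D) :
    fpart W D A c x (cur W D f) y =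
      if x = y then (c y.1 : W.K) • phi W D A y.1 (f y.1) y.2 else 0 := by
  unfold fpart
  rw [LinearMap.smul_apply, LinearMap.smul_apply, Pi.smul_apply, Pi.smul_apply, bpl_apply]
  by_cases hxy : x = y
  · subst hxy
    rw [Pi.single_eq_same, if_pos rfl]
    rfl
  · rw [Pi.single_eq_of_ne (Ne.symm hxy), if_neg hxy, smul_zero, smul_zero]

theorem total {Λ : Type} (W : Λ → WeilCohomology.{u, 0} ops) (D : Strata 𝒱 d) [Finite (Str D)]
    (A : FrobAction D) (c : ℕ → ℚ) : ∃ T ∈ algFam W (strY D), ∀ l f y,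
      T l (cur (W l) D f) y = (c y.1 : (W l).K) • phi (W l) D A y.1 (f y.1) y.2 := by
  classical
  have : Fintype (Str D) := Fintype.ofFinite _
  refine ⟨∑ x : Str D, fun l => fpart (W l) D A c x, ?_, fun l f y => ?_⟩
  · refine AddSubgroup.sum_mem _ fun x _ => ?_
    exact rsm W (strY D) (c x.1) _ (sign_mem W (strY D) _ _
      (pul W (strY D) x ⟨x.1, A.perm x.1 x.2⟩ (A.fr x.1 x.2)).1)
  · rw [Finset.sum_apply, LinearMap.sum_apply, Finset.sum_apply]
    rw [Finset.sum_congr rfl fun x _ => fpart_apply (W l) D A c x f y]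
    rw [Finset.sum_ite_eq' Finset.univ y, if_pos (Finset.mem_univ _)]

end FraL

open FraL in
theorem fra : S_FRA := by
  classical
  intro k _ 𝒱 ops d D _ A Λ W r i b
  refine ⟨?_, fun p => ?_⟩
  · obtain ⟨T, hT, h⟩ := total W D A (fun p => (r : ℚ) ^ (((p : ℤ) + b - i) / 2).toNat)
    refine ⟨T, hT, fun l f => ?_⟩
    funext y
    rw [h, cur_apply]
    show _ = (r : (W l).K) ^ (((y.1 : ℤ) + b - i) / 2).toNat • phi (W l) D A y.1 (f y.1) y.2
    congr 1
    push_cast
    rfl
  · obtain ⟨T, hT, h⟩ := total W D A (fun q => if q = p then 1 else 0)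
    refine ⟨T, hT, fun l f => ?_⟩
    funext y
    rw [h, cur_apply]
    obtain ⟨q, s⟩ := y
    by_cases hq : q = p
    · subst hq
      rw [Pi.single_eq_same]
      simp
    · rw [Pi.single_eq_of_ne hq]
      simp [hq]

end Pool.Agent.Helper60K9.EL
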