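import Pool.Agent.Helper60K9.EL.Pul

/-! Leaves MNA, DFA (helper84) -/

set_option autoImplicit false

open CategoryTheory Polynomial

universe u

namespace Pool.Agent.Helper60K9.EL

open Pool.Agent.H914 Pool.Agent.H914.VarClass Pool.Agent.H914.VarClass.Obj
  Pool.Agent.H914.WeilCohomology Pool.Agent.Helper7K9.OL Pool.Agent.Helper11K9.Dens

namespace MnaL

variable {k : Type u} [Field k] {𝒱 : VarClass k} {ops : CycleOps 𝒱} {d : ℕ}

theorem cur_apply (W : WeilCohomology.{u, 0} ops) (D : Strata 𝒱 d) (f : Tot W D) (x : Str D) :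
    cur W D f x = f x.1 x.2 := rfl

theorem sign_mem {ι : Type} [Finite ι] {Λ : Type} (W : Λ → WeilCohomology.{u, 0} ops)
    (Y : ι → 𝒱.Obj) (n : ℕ) (T : ∀ l, Module.End (W l).K (Sm (W l) Y)) (hT : T ∈ algFam W Y) :
    (fun l => ((-1 : (W l).K) ^ n) • T l) ∈ algFam W Y := by
  rcases Nat.even_or_odd n with h | h
  · have : (fun l => ((-1 : (W l).K) ^ n) • T l) = T := by
      funext l
      rw [h.neg_one_pow, one_smul]
    rw [this]; exact hT
  · have : (fun l => ((-1 : (W l).K) ^ n) • T l) = -T := by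
      funext l
      apply LinearMap.ext
      intro a
      show ((-1 : (W l).K) ^ n) • (T l a) = -(T l a)
      rw [h.neg_one_pow, neg_smul, one_smul]
    rw [this]; exact (algFam W Y).neg_mem hT

/-- pull-back block -/
noncomputable def bpl (W : WeilCohomology.{u, 0} ops) {ι : Type} [DecidableEq ι] (Y : ι → 𝒱.Obj)
    (x y : ι) (f : Y x ⟶ Y y) : Module.End W.K (Sm W Y) :=
  LinearMap.single W.K (fun y => W.H (Y y)) x ∘ₗ (W.map f).toLinearMap ∘ₗ LinearMap.proj y

/-- push-forward block -/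
noncomputable def bpf (W : WeilCohomology.{u, 0} ops) {ι : Type} [DecidableEq ι] (Y : ι → 𝒱.Obj)
    (x y : ι) (f : Y x ⟶ Y y) : Module.End W.K (Sm W Y) :=
  LinearMap.single W.K (fun y => W.H (Y y)) y ∘ₗ W.push f ∘ₗ LinearMap.proj x

theorem bpl_apply (W : WeilCohomology.{u, 0} ops) {ι : Type} [DecidableEq ι] (Y : ι → 𝒱.Obj)
    (x y : ι) (f : Y x ⟶ Y y) (a : Sm W Y) :
    bpl W Y x y f a = Pi.single x (W.map f (a y)) := rfl

theorem bpf_apply (W : WeilCohomology.{u, 0} ops) {ι : Type} [DecidableEq ι] (Y : ι → 𝒱.Obj)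
    (x y : ι) (f : Y x ⟶ Y y) (a : Sm W Y) :
    bpf W Y x y f a = Pi.single y (W.push f (a x)) := rfl

end MnaL

open MnaL

theorem mna : S_MNA := by
  classical
  intro k _ 𝒱 ops d D _ Λ W i b
  have : Fintype (Str D) := Fintype.ofFinite _
  refine ⟨∑ x ∈ Finset.univ.filter (fun x : Str D => ((b : ℤ) - i - 2).natAbs ≤ x.1),
    (fun l => bpl (W l) (strY D) x x (𝟙 _)), ?_, fun l f => ?_⟩
  · exact AddSubgroup.sum_mem _ fun x _ => (pul W (strY D) x x (𝟙 _)).1
  · rw [Finset.sum_apply, LinearMap.sum_apply]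
    funext y
    rw [Finset.sum_apply, cur_apply, mon]
    have h1 : ∀ x ∈ Finset.univ.filter (fun x : Str D => ((b : ℤ) - i - 2).natAbs ≤ x.1),
        (bpl (W l) (strY D) x x (𝟙 _) (cur (W l) D f)) y =
          if x = y then cur (W l) D f y else 0 := by
      intro x _
      rw [bpl_apply, (W l).map_id]
      by_cases hxy : x = y
      · subst hxy
        rw [Pi.single_eq_same, if_pos rfl]
      · rw [Pi.single_eq_of_ne (Ne.symm hxy), if_neg hxy]
    rw [Finset.sum_congr rfl h1, Finset.sum_ite_eq']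
    have hm : y ∈ Finset.univ.filter (fun x : Str D => ((b : ℤ) - i - 2).natAbs ≤ x.1) ↔
        ((b : ℤ) - i - 2).natAbs ≤ y.1 := by
      rw [Finset.mem_filter]
      exact ⟨fun h => h.2, fun h => ⟨Finset.mem_univ _, h⟩⟩
    by_cases hy : ((b : ℤ) - i - 2).natAbs ≤ y.1
    · rw [if_pos (hm.2 hy), if_pos hy]
      rfl
    · rw [if_neg (fun h => hy (hm.1 h)), if_neg hy]

namespace DfaL

variable {k : Type u} [Field k] {𝒱 : VarClass k} {ops : CycleOps 𝒱} {d : ℕ}

open scoped Classical in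
/-- the part of the differential which goes to the stratum `x` by restriction, or comes from `x` by
push-forward -/
noncomputable def part (W : WeilCohomology.{u, 0} ops) (D : Strata 𝒱 d) (c : ℕ → Prop) :
    Str D → Module.End W.K (Sm W (strY D))
  | ⟨0, _⟩ => 0
  | ⟨p + 1, s⟩ =>
    (if c (p + 1) then ∑ i : Fin (p + 2), ((-1 : W.K) ^ (i : ℕ)) •
      bpl W (strY D) ⟨p + 1, s⟩ ⟨p, D.face p i s⟩ (D.inc p i s) else 0) +
    (if c p then ∑ i : Fin (p + 2), ((-1 : W.K) ^ (i : ℕ)) •
      bpf W (strY D) ⟨p + 1, s⟩ ⟨p, D.face p i s⟩ (D.inc p i s) else 0)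

theorem part_mem (D : Strata 𝒱 d) [Finite (Str D)] {Λ : Type}
    (W : Λ → WeilCohomology.{u, 0} ops) (c : ℕ → Prop) (x : Str D) :
    (fun l => part (W l) D c x) ∈ algFam W (strY D) := by
  classical
  obtain ⟨p, s⟩ := x
  cases p with
  | zero => exact (algFam W (strY D)).zero_mem
  | succ p =>
    have h1 : (fun l => ∑ i : Fin (p + 2), ((-1 : (W l).K) ^ (i : ℕ)) •
        bpl (W l) (strY D) ⟨p + 1, s⟩ ⟨p, D.face p i s⟩ (D.inc p i s)) ∈ algFam W (strY D) := by
      have : (fun l => ∑ i : Fin (p + 2), ((-1 : (W l).K) ^ (i : ℕ)) •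
          bpl (W l) (strY D) ⟨p + 1, s⟩ ⟨p, D.face p i s⟩ (D.inc p i s)) =
          ∑ i : Fin (p + 2), fun l => ((-1 : (W l).K) ^ (i : ℕ)) •
            bpl (W l) (strY D) ⟨p + 1, s⟩ ⟨p, D.face p i s⟩ (D.inc p i s) := by
        funext l
        rw [Finset.sum_apply]
      rw [this]
      exact AddSubgroup.sum_mem _ fun i _ => sign_mem W (strY D) i _
        (pul W (strY D) ⟨p + 1, s⟩ ⟨p, D.face p i s⟩ (D.inc p i s)).1
    have h2 : (fun l => ∑ i : Fin (p + 2), ((-1 : (W l).K) ^ (i : ℕ)) •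
        bpf (W l) (strY D) ⟨p + 1, s⟩ ⟨p, D.face p i s⟩ (D.inc p i s)) ∈ algFam W (strY D) := by
      have : (fun l => ∑ i : Fin (p + 2), ((-1 : (W l).K) ^ (i : ℕ)) •
          bpf (W l) (strY D) ⟨p + 1, s⟩ ⟨p, D.face p i s⟩ (D.inc p i s)) =
          ∑ i : Fin (p + 2), fun l => ((-1 : (W l).K) ^ (i : ℕ)) •
            bpf (W l) (strY D) ⟨p + 1, s⟩ ⟨p, D.face p i s⟩ (D.inc p i s) := by
        funext l
        rw [Finset.sum_apply]
      rw [this]
      exact AddSubgroup.sum_mem _ fun i _ => sign_mem W (strY D) i _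
        (pul W (strY D) ⟨p + 1, s⟩ ⟨p, D.face p i s⟩ (D.inc p i s)).2
    have h0 := (algFam W (strY D)).zero_mem
    by_cases ha : c (p + 1) <;> by_cases hb : c p
    · have : (fun l => part (W l) D c ⟨p + 1, s⟩) = (fun l => ∑ i : Fin (p + 2),
          ((-1 : (W l).K) ^ (i : ℕ)) •
          bpl (W l) (strY D) ⟨p + 1, s⟩ ⟨p, D.face p i s⟩ (D.inc p i s)) +
          (fun l => ∑ i : Fin (p + 2), ((-1 : (W l).K) ^ (i : ℕ)) •
          bpf (W l) (strY D) ⟨p + 1, s⟩ ⟨p, D.face p i s⟩ (D.inc p i s)) := by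
        funext l
        simp only [part, if_pos ha, if_pos hb, Pi.add_apply]
      rw [this]
      exact (algFam W (strY D)).add_mem h1 h2
    · have : (fun l => part (W l) D c ⟨p + 1, s⟩) = (fun l => ∑ i : Fin (p + 2),
          ((-1 : (W l).K) ^ (i : ℕ)) •
          bpl (W l) (strY D) ⟨p + 1, s⟩ ⟨p, D.face p i s⟩ (D.inc p i s)) := by
        funext l
        simp only [part, if_pos ha, if_neg hb, add_zero]
      rw [this]
      exact h1
    · have : (fun l => part (W l) D c ⟨p + 1, s⟩) = (fun l => ∑ i : Fin (p + 2),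
          ((-1 : (W l).K) ^ (i : ℕ)) •
          bpf (W l) (strY D) ⟨p + 1, s⟩ ⟨p, D.face p i s⟩ (D.inc p i s)) := by
        funext l
        simp only [part, if_neg ha, if_pos hb, zero_add]
      rw [this]
      exact h2
    · have : (fun l => part (W l) D c ⟨p + 1, s⟩) = 0 := by
        funext l
        simp only [part, if_neg ha, if_neg hb, add_zero, Pi.zero_apply]
      rw [this]
      exact h0

/-- the restriction part of `part` -/
noncomputable def rpart (W : WeilCohomology.{u, 0} ops) (D : Strata 𝒱 d) (c : ℕ → Prop)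
    [DecidablePred c] (f : Tot W D) (y x : Str D) : W.H (strY D y) :=
  if x = y then (if c y.1 then resT W D f y.1 y.2 else 0) else 0

/-- the push-forward part of `part` -/
noncomputable def gpart (W : WeilCohomology.{u, 0} ops) (D : Strata 𝒱 d) (c : ℕ → Prop)
    [DecidablePred c] (f : Tot W D) (y : Str D) : Str D → W.H (strY D y)
  | ⟨0, _⟩ => 0
  | ⟨p + 1, s⟩ =>
    if c p then ∑ i : Fin (p + 2), (-1 : W.K) ^ (i : ℕ) •
      (Pi.single (M := fun z : Str D => W.H (strY D z)) ⟨p, D.face p i s⟩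
        (W.push (D.inc p i s) (f (p + 1) s)) y) else 0

theorem gpart_succ (W : WeilCohomology.{u, 0} ops) (D : Strata 𝒱 d) (c : ℕ → Prop)
    [DecidablePred c] (f : Tot W D) (y : Str D) (p : ℕ) (s : D.S (p + 1)) :
    gpart W D c f y ⟨p + 1, s⟩ = if c p then ∑ i : Fin (p + 2), (-1 : W.K) ^ (i : ℕ) •
      (Pi.single (M := fun z : Str D => W.H (strY D z)) ⟨p, D.face p i s⟩
        (W.push (D.inc p i s) (f (p + 1) s)) y) else 0 := rfl

theorem part_apply (W : WeilCohomology.{u, 0} ops) (D : Strata 𝒱 d) (c : ℕ → Prop)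
    [hc : DecidablePred c] (f : Tot W D) (y x : Str D) :
    part W D c x (cur W D f) y = rpart W D c f y x + gpart W D c f y x := by
  obtain ⟨p, s⟩ := x
  cases p with
  | zero =>
    have h1 : rpart W D c f y ⟨0, s⟩ = 0 := by
      unfold rpart
      by_cases h : (⟨0, s⟩ : Str D) = y
      · subst h
        rw [if_pos rfl]
        by_cases h2 : c 0
        · rw [if_pos h2]; rfl
        · rw [if_neg h2]
      · rw [if_neg h]
    rw [h1]
    show (0 : W.H (strY D y)) = 0 + 0
    rw [add_zero]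
  | succ p =>
    have e1 : (if c (p + 1) then ∑ i : Fin (p + 2), ((-1 : W.K) ^ (i : ℕ)) •
        bpl W (strY D) ⟨p + 1, s⟩ ⟨p, D.face p i s⟩ (D.inc p i s) else 0) (cur W D f) y =
        rpart W D c f y ⟨p + 1, s⟩ := by
      unfold rpart
      by_cases h : (⟨p + 1, s⟩ : Str D) = y
      · subst h
        rw [if_pos rfl]
        by_cases h2 : c (p + 1)
        · rw [if_pos h2, if_pos h2, LinearMap.sum_apply, Finset.sum_apply]
          show _ = resF W D p (f p) s
          unfold resF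
          refine Finset.sum_congr rfl fun i _ => ?_
          rw [LinearMap.smul_apply, Pi.smul_apply, bpl_apply, Pi.single_eq_same]
          rfl
        · rw [if_neg h2, if_neg h2]
          rfl
      · rw [if_neg h]
        by_cases h2 : c (p + 1)
        · rw [if_pos h2, LinearMap.sum_apply, Finset.sum_apply]
          refine Finset.sum_eq_zero fun i _ => ?_
          rw [LinearMap.smul_apply, Pi.smul_apply, bpl_apply, Pi.single_eq_of_ne (Ne.symm h),
            smul_zero]
        · rw [if_neg h2]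
          rfl
    have e2 : (if c p then ∑ i : Fin (p + 2), ((-1 : W.K) ^ (i : ℕ)) •
        bpf W (strY D) ⟨p + 1, s⟩ ⟨p, D.face p i s⟩ (D.inc p i s) else 0) (cur W D f) y =
        gpart W D c f y ⟨p + 1, s⟩ := by
      rw [gpart_succ]
      by_cases h2 : c p
      · rw [if_pos h2, if_pos h2, LinearMap.sum_apply, Finset.sum_apply]
        refine Finset.sum_congr rfl fun i _ => ?_
        rw [LinearMap.smul_apply, Pi.smul_apply, bpf_apply]
        rfl
      · rw [if_neg h2, if_neg h2]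
        rfl
    rw [← e1, ← e2]
    simp only [part]
    rw [LinearMap.add_apply, Pi.add_apply]
    by_cases ha : c (p + 1) <;> by_cases hb : c p
    · rw [if_pos ha, if_pos ha, if_pos hb, if_pos hb]
    · rw [if_pos ha, if_pos ha, if_neg hb, if_neg hb]
    · rw [if_neg ha, if_neg ha, if_pos hb, if_pos hb]
    · rw [if_neg ha, if_neg ha, if_neg hb, if_neg hb]

theorem single_sigma (W : WeilCohomology.{u, 0} ops) (D : Strata 𝒱 d) (p : ℕ) (t t' : D.S p)
    (v : W.H (D.Y p t')) :
    (Pi.single (M := fun z : Str D => W.H (strY D z)) ⟨p, t'⟩ v) ⟨p, t⟩ =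
      Pi.single (M := fun t => W.H (D.Y p t)) t' v t := by
  by_cases h : t = t'
  · subst h
    rw [Pi.single_eq_same, Pi.single_eq_same]
  · rw [Pi.single_eq_of_ne h, Pi.single_eq_of_ne]
    intro h2
    exact h (eq_of_heq (Sigma.mk.inj h2).2)

theorem sum_gpart (W : WeilCohomology.{u, 0} ops) (D : Strata 𝒱 d) [Fintype (Str D)]
    (c : ℕ → Prop) [DecidablePred c] (f : Tot W D) (p : ℕ) (t : D.S p) :
    ∑ x, gpart W D c f ⟨p, t⟩ x = if c p then gysF W D p (f (p + 1)) t else 0 := by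
  have h1 : ∑ s : D.S (p + 1), (if c p then ∑ i : Fin (p + 2), (-1 : W.K) ^ (i : ℕ) •
      (Pi.single (M := fun z : Str D => W.H (strY D z)) ⟨p, D.face p i s⟩
        (W.push (D.inc p i s) (f (p + 1) s)) (⟨p, t⟩ : Str D)) else 0) =
      ∑ x, gpart W D c f ⟨p, t⟩ x := by
    refine Fintype.sum_of_injective (fun s : D.S (p + 1) => (⟨p + 1, s⟩ : Str D)) ?_ _ _ ?_ ?_
    · intro a b hab
      exact eq_of_heq (Sigma.mk.inj hab).2
    · rintro ⟨q, s⟩ hx
      cases q with
      | zero => rfl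
      | succ q =>
        rw [gpart_succ]
        by_cases h2 : c q
        · rw [if_pos h2]
          refine Finset.sum_eq_zero fun i _ => ?_
          rw [Pi.single_eq_of_ne, smul_zero]
          intro h3
          have h4 : p = q := (Sigma.mk.inj h3).1
          subst h4
          exact hx ⟨s, rfl⟩
        · rw [if_neg h2]
    · intro s
      rfl
  rw [← h1]
  by_cases h2 : c p
  · simp only [if_pos h2]
    unfold gysF
    refine Finset.sum_congr rfl fun s _ => Finset.sum_congr rfl fun i _ => ?_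
    rw [single_sigma, ← Pi.smul_apply, ← Pi.single_smul]
    rfl
  · simp only [if_neg h2, Finset.sum_const_zero]

end DfaL

open DfaL in
theorem dfa : S_DFA := by
  classical
  intro k _ 𝒱 ops d D _ Λ W i b
  have : Fintype (Str D) := Fintype.ofFinite _
  refine ⟨∑ x : Str D, (fun l => part (W l) D (fun p => ((b : ℤ) - i - 1).natAbs ≤ p) x),
    AddSubgroup.sum_mem _ fun x _ => part_mem D W _ x, fun l f => ?_⟩
  rw [Finset.sum_apply, LinearMap.sum_apply]
  funext y
  rw [Finset.sum_apply, cur_apply, dif,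
    Finset.sum_congr rfl fun x _ => part_apply (W l) D _ f y x, Finset.sum_add_distrib]
  obtain ⟨p, t⟩ := y
  rw [sum_gpart]
  have h1 : ∑ x, rpart (W l) D (fun p => ((b : ℤ) - i - 1).natAbs ≤ p) f ⟨p, t⟩ x =
      if ((b : ℤ) - i - 1).natAbs ≤ p then resT (W l) D f p t else 0 := by
    unfold rpart
    rw [Finset.sum_ite_eq' Finset.univ (⟨p, t⟩ : Str D), if_pos (Finset.mem_univ _)]
  rw [h1]
  by_cases h2 : ((b : ℤ) - i - 1).natAbs ≤ p
  · rw [if_pos h2, if_pos h2, if_pos h2]
  · rw [if_neg h2, if_neg h2, if_neg h2, add_zero]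

end Pool.Agent.Helper60K9.EL
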