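import Pool.Agent.Helper60K9.EL.Trc
import Pool.Agent.H914R2.GBasic

/-!
# [NDG] nondegeneracy of the supertrace for the theories with `hom = num`
-/

set_option autoImplicit false

open CategoryTheory Polynomial

universe u

namespace Pool.Agent.Helper60K9.EL

open Pool.Agent.H914 Pool.Agent.H914.VarClass Pool.Agent.H914.VarClass.Obj
  Pool.Agent.H914.WeilCohomology Pool.Agent.Helper7K9.OL Pool.Agent.Helper11K9.Dens

namespace NdgL

variable {k : Type u} [Field k] {𝒱 : VarClass k} {ops : CycleOps 𝒱}

section Two

variable (W : WeilCohomology.{u, 0} ops) {X Y : 𝒱.Obj}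

/-- The intersection number of two correspondences is a trace. -/
theorem tr_mul {p : ℕ} {c : W.H (X.prod Y)} (hc : c ∈ W.gr _ (2 * p)) (d : W.H (X.prod Y)) :
    W.tr (X.prod Y) (c * d) = LinearMap.trace W.K (W.H Y)
      (par (W.isInternal Y) ∘ₗ W.corr c ∘ₗ W.corr (W.map (swap Y X) d)) := by
  refine W.kunneth_induction (p := fun d => W.tr (X.prod Y) (c * d) =
    LinearMap.trace W.K (W.H Y)
      (par (W.isInternal Y) ∘ₗ W.corr c ∘ₗ W.corr (W.map (swap Y X) d))) ?_ ?_ d
  · intro a b ha hb
    rw [mul_add, map_add, map_add, corr_add, LinearMap.comp_add, LinearMap.comp_add, map_add, ha, hb]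
  · intro i j a ha b hb
    rw [corr_swap_tmul ha hb]
    have h1 : par (W.isInternal Y) ∘ₗ W.corr c ∘ₗ (W.tr Y ∘ₗ LinearMap.mulLeft W.K b).smulRight a =
        (W.tr Y ∘ₗ LinearMap.mulLeft W.K b).smulRight (par (W.isInternal Y) (W.corr c a)) := by
      apply LinearMap.ext
      intro y
      rw [LinearMap.comp_apply, LinearMap.comp_apply, LinearMap.smulRight_apply,
        LinearMap.smulRight_apply, map_smul, map_smul]
    rw [h1, LinearMap.trace_smulRight, LinearMap.comp_apply, LinearMap.mulLeft_apply]
    have e1 : W.tr (X.prod Y) (c * (W.map (fst X Y) a * W.map (snd X Y) b)) =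
        W.tr Y (W.corr c a * b) := by
      rw [corr_apply, W.tr_push, mul_assoc]
    rw [e1]
    have h2 := W.push_mem (snd X Y) (W.mul_mem hc (W.map_mem (fst X Y) ha))
    rw [← corr_apply] at h2
    by_cases hm : ∃ m : ℕ, (m : ℤ) = ((2 * p + i : ℕ) : ℤ) + 2 * ((Y.dim : ℤ) - (X.prod Y).dim)
    · obtain ⟨m, hm⟩ := hm
      rw [← hm, grZ_natCast] at h2
      rw [par, scal_apply _ _ h2, mul_smul_comm, map_smul, W.comm hb h2, map_smul, smul_eq_mul,
        smul_eq_mul]
      by_cases hj : m + j = 2 * Y.dim
      · have hev : Even (m + j * m) := by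
          have : m + j * m = m * (j + 1) := by ring
          rw [this]
          rcases Nat.even_or_odd m with h | h
          · exact h.mul_right _
          · apply Even.mul_left
            have : Odd j := by
              rcases Nat.even_or_odd j with h' | h'
              · exfalso
                have := h.add_even h'
                rw [hj] at this
                exact (Nat.not_even_iff_odd.2 this) (even_two_mul _)
              · exact h'
            exact this.add_one
        rw [← mul_assoc, ← pow_add, hev.neg_one_pow, one_mul]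
      · rw [W.tr_eq_zero (W.mul_mem h2 hb) hj, mul_zero, mul_zero]
    · push Not at hm
      by_cases hneg : ((2 * p + i : ℕ) : ℤ) + 2 * ((Y.dim : ℤ) - (X.prod Y).dim) < 0
      · rw [grZ_of_neg hneg] at h2
        rw [(Submodule.mem_bot _).1 h2]
        simp
      · exact absurd (Int.toNat_of_nonneg (by omega)) (hm _)

/-- The group generated by the classes of homogeneous cycles. -/
def algCl (X : 𝒱.Obj) : AddSubgroup (W.H X) :=
  AddSubgroup.closure {c | ∃ (q : ℕ) (z : X.Cycles), X.IsCyc q z ∧ c = W.cl X z}

/-- homogeneous decomposition -/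
theorem algCl_sum {X : 𝒱.Obj} {c : W.H X} (hc : c ∈ algCl W X) :
    ∃ z : ℕ → X.Cycles, (∀ q, X.IsCyc q (z q)) ∧
      c = ∑ q ∈ Finset.range (X.dim + 1), W.cl X (z q) := by
  classical
  induction hc using AddSubgroup.closure_induction with
  | mem c hc =>
    obtain ⟨q, z, hz, rfl⟩ := hc
    refine ⟨fun q' => if q' = q then z else 0, fun q' => ?_, ?_⟩
    · by_cases h : q' = q
      · subst h
        simpa using hz
      · simp only [h, if_false]
        exact SmVar.IsCyc.zero _ _
    · by_cases hq : q < X.dim + 1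
      · rw [Finset.sum_eq_single_of_mem q (Finset.mem_range.2 hq)]
        · simp
        · intro q' _ hne
          simp [hne]
      · rw [Finset.sum_eq_zero]
        · have h1 := W.cl_mem hz
          rw [W.gr_eq_bot X (2 * q) (by omega)] at h1
          exact h1
        · intro q' hq'
          rw [Finset.mem_range] at hq'
          have : q' ≠ q := by omega
          simp [this]
  | zero => exact ⟨fun _ => 0, fun q => SmVar.IsCyc.zero _ _, by simp⟩
  | add a b _ _ ha hb =>
    obtain ⟨z, hz, rfl⟩ := ha
    obtain ⟨w, hw, rfl⟩ := hb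
    refine ⟨fun q => z q + w q, fun q => SmVar.IsCyc.add (hz q) (hw q), ?_⟩
    rw [← Finset.sum_add_distrib]
    exact Finset.sum_congr rfl fun q _ => (map_add _ _ _).symm
  | neg a _ ha =>
    obtain ⟨z, hz, rfl⟩ := ha
    refine ⟨fun q => (-1 : ℚ) • z q, fun q => SmVar.IsCyc.smul (-1) (hz q), ?_⟩
    rw [← Finset.sum_neg_distrib]
    refine Finset.sum_congr rfl fun q _ => ?_
    rw [cl_smul]
    simp

/-- `hom = num` -/
theorem algCl_eq_zero (hX : HomEqNum W X) {c : W.H X} (hc : c ∈ algCl W X)
    (h : ∀ (j : ℕ) (w : X.Cycles), X.IsCyc j w → W.tr X (c * W.cl X w) = 0) : c = 0 := by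
  obtain ⟨z, hz, rfl⟩ := algCl_sum W hc
  refine Finset.sum_eq_zero fun q hq => ?_
  rw [Finset.mem_range] at hq
  refine hX q (by omega) (z q) (hz q) fun w hw => ?_
  have h1 := h _ w hw
  rw [Finset.sum_mul, map_sum, Finset.sum_eq_single_of_mem q (Finset.mem_range.2 hq)] at h1
  · rw [← W.cl_mul] at h1
    have hm := ops.mul_mem (hz q) hw
    rw [show q + (X.dim - q) = X.dim by omega] at hm
    rw [W.tr_cl hm] at h1
    exact_mod_cast h1
  · intro q' hq' hne
    rw [Finset.mem_range] at hq'
    exact W.tr_eq_zero (W.mul_mem (W.cl_mem (hz q')) (W.cl_mem hw)) (by omega)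

end Two

section Blocks

variable {ι : Type} [Finite ι]

/-- The block of an algebraic operator. -/
theorem block {Λ : Type} (W : Λ → WeilCohomology.{u, 0} ops) (Y : ι → 𝒱.Obj) (l : Λ)
    [hdec : DecidableEq ι] {T : ∀ l, Module.End (W l).K (Sm (W l) Y)} (hT : T ∈ algFam W Y)
    (x y : ι) :
    ∃ c ∈ algCl (W l) ((Y x).prod (Y y)), LinearMap.proj y ∘ₗ T l ∘ₗ
      LinearMap.single (W l).K (fun y => (W l).H (Y y)) x = (W l).corr c := by
  obtain rfl : hdec = Classical.decEq ι := Subsingleton.elim _ _
  let _ := Classical.decEq ι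
  induction hT using AddSubgroup.closure_induction with
  | mem T hT =>
    obtain ⟨x', y', q, z, hz, hT⟩ := hT
    rw [hT l]
    unfold elem
    by_cases hx : x' = x
    · by_cases hy : y' = y
      · subst hx hy
        refine ⟨(W l).cl _ z, AddSubgroup.subset_closure ⟨q, z, hz, rfl⟩, ?_⟩
        refine LinearMap.ext fun v => ?_
        simp only [LinearMap.comp_apply, LinearMap.proj_apply, LinearMap.single_apply]
        rw [Pi.single_eq_same, Pi.single_eq_same]
      · refine ⟨0, AddSubgroup.zero_mem _, ?_⟩
        rw [corr_zero]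
        refine LinearMap.ext fun v => ?_
        simp only [LinearMap.comp_apply, LinearMap.proj_apply, LinearMap.single_apply,
          LinearMap.zero_apply]
        rw [Pi.single_eq_of_ne (Ne.symm hy)]
    · refine ⟨0, AddSubgroup.zero_mem _, ?_⟩
      rw [corr_zero]
      refine LinearMap.ext fun v => ?_
      simp only [LinearMap.comp_apply, LinearMap.proj_apply, LinearMap.single_apply,
        LinearMap.zero_apply]
      rw [Pi.single_eq_of_ne hx, map_zero, Pi.single_zero, Pi.zero_apply]
  | zero =>
    refine ⟨0, AddSubgroup.zero_mem _, ?_⟩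
    rw [corr_zero, Pi.zero_apply, LinearMap.zero_comp, LinearMap.comp_zero]
  | add a b _ _ ha hb =>
    obtain ⟨c, hc, h1⟩ := ha
    obtain ⟨c', hc', h2⟩ := hb
    refine ⟨c + c', AddSubgroup.add_mem _ hc hc', ?_⟩
    rw [corr_add, ← h1, ← h2, Pi.add_apply, LinearMap.add_comp, LinearMap.comp_add]
  | neg a _ ha =>
    obtain ⟨c, hc, h1⟩ := ha
    refine ⟨-c, AddSubgroup.neg_mem _ hc, ?_⟩
    have h2 : (W l).corr (-c) = -(W l).corr c := by
      rw [eq_neg_iff_add_eq_zero, ← corr_add, neg_add_cancel, corr_zero]
    rw [h2, ← h1, Pi.neg_apply, LinearMap.neg_comp, LinearMap.comp_neg]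

end Blocks

end NdgL

open NdgL TrcL in
/-- NDG -/
theorem ndg : S_PAR.{u} → S_NDG.{u} := by
  classical
  intro hpar k _ 𝒱 ops ι _ Λ W Y l hD T hT h0
  have hblock : ∀ x y, LinearMap.proj y ∘ₗ T l ∘ₗ
      LinearMap.single (W l).K (fun y => (W l).H (Y y)) x = 0 := by
    intro x y
    obtain ⟨c, hc, hb⟩ := block W Y l hT x y
    rw [hb]
    have hc0 : c = 0 := by
      refine algCl_eq_zero (W l) (hD x y) hc fun j w hw => ?_
      -- the transposed correspondence
      set T' : ∀ l, Module.End (W l).K (Sm (W l) Y) := fun l =>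
        elem (W l) Y y x (ops.pull (swap (Y y) (Y x)) w) with hT'
      have hT'm : T' ∈ algFam W Y :=
        AddSubgroup.subset_closure ⟨y, x, j, _, ops.pull_mem _ hw, fun l => rfl⟩
      have h1 := h0 T' hT'm
      have h2 : LinearMap.trace (W l).K (Sm (W l) Y) (pars (W l) Y * (T' l * T l)) =
          LinearMap.trace (W l).K ((W l).H (Y y)) (par ((W l).isInternal (Y y)) ∘ₗ (W l).corr c ∘ₗ
            (W l).corr ((W l).map (swap (Y y) (Y x)) ((W l).cl _ w))) := by
        rw [LinearMap.trace_mul_comm, mul_assoc, ← hpar W Y T hT l, LinearMap.trace_mul_comm]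
        have e2 : pars (W l) Y * T l * T' l = (pars (W l) Y ∘ₗ T l ∘ₗ
            LinearMap.single (W l).K (fun y => (W l).H (Y y)) x ∘ₗ
            (W l).corr ((W l).cl _ (ops.pull (swap (Y y) (Y x)) w))) ∘ₗ LinearMap.proj y := by
          rw [hT']
          unfold elem
          refine LinearMap.ext fun v => ?_
          simp only [Module.End.mul_apply, LinearMap.comp_apply]
        rw [e2, LinearMap.trace_comp_comm']
        congr 1
        rw [(W l).cl_pull, ← hb]
        refine LinearMap.ext fun v => ?_
        simp only [LinearMap.comp_apply]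
        rfl
      rw [h2] at h1
      -- homogeneous parts
      obtain ⟨z, hz, rfl⟩ := algCl_sum (W l) hc
      have h3 : ∀ n : ℕ, (W l).tr _ ((∑ q ∈ Finset.range n, (W l).cl _ (z q)) * (W l).cl _ w) =
          LinearMap.trace (W l).K ((W l).H (Y y)) (par ((W l).isInternal (Y y)) ∘ₗ
            (W l).corr (∑ q ∈ Finset.range n, (W l).cl _ (z q)) ∘ₗ
            (W l).corr ((W l).map (swap (Y y) (Y x)) ((W l).cl _ w))) := by
        intro n
        induction n with
        | zero =>
          rw [Finset.sum_range_zero, zero_mul, map_zero, corr_zero, LinearMap.zero_comp,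
            LinearMap.comp_zero, map_zero]
        | succ n ih =>
          rw [Finset.sum_range_succ, add_mul, map_add, ih, corr_add, LinearMap.add_comp,
            LinearMap.comp_add, map_add, tr_mul (W l) ((W l).cl_mem (hz n))]
      rw [h3]
      exact h1
    rw [hc0, corr_zero]
  have : Fintype ι := Fintype.ofFinite ι
  refine LinearMap.pi_ext fun x v => ?_
  rw [LinearMap.zero_apply]
  funext y
  have h1 := congrArg (fun g => g v) (hblock x y)
  simp only [LinearMap.comp_apply, LinearMap.proj_apply, LinearMap.single_apply,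
    LinearMap.zero_apply] at h1
  exact h1

end Pool.Agent.Helper60K9.EL
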