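import Pool.Agent.Helper60K9.EL.Stm2
import Pool.Agent.Helper60K9.EL.Mul

set_option autoImplicit false

open CategoryTheory Polynomial

universe u

namespace Pool.Agent.Helper60K9.EL

open Pool.Agent.H914 Pool.Agent.H914.VarClass Pool.Agent.H914.VarClass.Obj
  Pool.Agent.H914.WeilCohomology Pool.Agent.Helper7K9.OL Pool.Agent.Helper11K9.Dens

theorem opa : S_OPA.{u} := by
  intro k _ 𝒱 ops d D _ Λ W Z
  classical
  have : Fintype (Str D) := Fintype.ofFinite _
  let T : ∀ l, Module.End (W l).K (Sm (W l) (strY D)) := fun l =>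
    ∑ p' ∈ Finset.range (d + 1), ∑ s' : D.S p', ∑ q ∈ Finset.range (2 * d + 1), ∑ y : Str D,
      elem (W l) (strY D) ⟨p', s'⟩ y (Z.z ⟨p', s'⟩ y q)
  have hT : T = ∑ p' ∈ Finset.range (d + 1), ∑ s' : D.S p', ∑ q ∈ Finset.range (2 * d + 1),
      ∑ y : Str D, (fun l => elem (W l) (strY D) ⟨p', s'⟩ y (Z.z ⟨p', s'⟩ y q)) := by
    funext l
    simp only [T, Finset.sum_apply]
  refine ⟨T, ?_, ?_⟩
  · rw [hT]
    refine AddSubgroup.sum_mem _ fun p' _ => AddSubgroup.sum_mem _ fun s' _ =>
      AddSubgroup.sum_mem _ fun q _ => AddSubgroup.sum_mem _ fun y _ => ?_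
    exact MulL.elem_mem W (strY D) ⟨p', s'⟩ y q _ (Z.isCyc _ _ _)
  · intro l f
    funext y
    have h1 : ∀ (x : Str D) (z : ∀ y, ((strY D x).prod (strY D y)).Cycles),
        (∑ y' : Str D, elem (W l) (strY D) x y' (z y')) (cur (W l) D f) y =
          (W l).corr ((W l).cl _ (z y)) (f x.1 x.2) := by
      intro x z
      rw [LinearMap.sum_apply, Finset.sum_apply, Finset.sum_eq_single y]
      · rw [MulL.elem_same]
        rfl
      · intro y' _ hy'
        exact MulL.elem_ne (W l) (strY D) x y' y hy'.symm _ _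
      · intro hy
        exact absurd (Finset.mem_univ y) hy
    show T l (cur (W l) D f) y = Z.act (W l) f y.1 y.2
    simp only [T, LinearMap.sum_apply, Finset.sum_apply]
    unfold CycMat.act CycMat.part crr
    refine Finset.sum_congr rfl fun p' _ => Finset.sum_congr rfl fun s' _ =>
      Finset.sum_congr rfl fun q _ => ?_
    have h2 := h1 ⟨p', s'⟩ (fun y => Z.z ⟨p', s'⟩ y q)
    rw [LinearMap.sum_apply, Finset.sum_apply] at h2
    exact h2

end Pool.Agent.Helper60K9.EL
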