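import Pool.Agent.Helper60K9.EL.Stm
import Pool.Agent.H914R2.WeilBasic

/-! Leaves PUL, DOM (helper84) -/

set_option autoImplicit false

open CategoryTheory Polynomial

universe u

namespace Pool.Agent.Helper60K9.EL

open Pool.Agent.H914 Pool.Agent.H914.VarClass Pool.Agent.H914.VarClass.Obj
  Pool.Agent.H914.WeilCohomology Pool.Agent.Helper7K9.OL Pool.Agent.Helper11K9.Dens

namespace PulL

variable {k : Type u} [Field k] {𝒱 : VarClass k} {ops : CycleOps 𝒱}

/-- the correspondence given by the image of a variety -/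
theorem corr_graph (W : WeilCohomology.{u, 0} ops) {X Y Z : 𝒱.Obj} (g : Z ⟶ X.prod Y)
    (a : W.H X) : W.corr (W.cl _ (ops.push g Z.V.fundCycle)) a =
      W.push (g ≫ snd X Y) (W.map (g ≫ fst X Y) a) := by
  rw [W.corr_apply, W.cl_push, W.cl_fund, ← W.push_mul, ← W.push_comp, ← W.map_comp, one_mul]

theorem isCyc_graph {X Y Z : 𝒱.Obj} (g : Z ⟶ X.prod Y) (q : ℕ)
    (hq : X.dim + Y.dim = q + Z.dim) : (X.prod Y).IsCyc q (ops.push g Z.V.fundCycle) := by
  refine ops.push_mem g (p := 0) (Z.V.fundCycle_mem) ?_
  rw [dim_prod, zero_add]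
  exact hq

end PulL

theorem pul : S_PUL := by
  intro k _ 𝒱 ops ι _ hdec Λ W Y x y f
  have hd : hdec = Classical.decEq ι := Subsingleton.elim _ _
  subst hd
  constructor
  · refine AddSubgroup.subset_closure ⟨y, x, (Y y).dim,
      ops.push (lift f (𝟙 (Y x))) (Y x).V.fundCycle, PulL.isCyc_graph _ _ rfl, fun l => ?_⟩
    have h : (W l).corr ((W l).cl _ (ops.push (lift f (𝟙 (Y x))) (Y x).V.fundCycle)) =
        ((W l).map f).toLinearMap := by
      ext a
      rw [PulL.corr_graph, lift_fst, lift_snd, (W l).push_id]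
      rfl
    simp only [elem, h]
  · refine AddSubgroup.subset_closure ⟨x, y, (Y y).dim,
      ops.push (lift (𝟙 (Y x)) f) (Y x).V.fundCycle, PulL.isCyc_graph _ _ (by ring), fun l => ?_⟩
    have h : (W l).corr ((W l).cl _ (ops.push (lift (𝟙 (Y x)) f) (Y x).V.fundCycle)) =
        (W l).push f := by
      ext a
      rw [PulL.corr_graph, lift_fst, lift_snd, (W l).map_id]
    simp only [elem, h]

theorem dom : S_DOM := by
  intro k _ 𝒱 ops W R hR X Y Z Z' g g' hZ hZ' hg hg'
  set G : Z.prod Z' ⟶ X.prod Y := lift (fst Z Z' ≫ g) (snd Z Z' ≫ g') with hG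
  have hinj : Function.Injective (W.map G) := by
    have hker : ∀ c, W.map G c = 0 → c = 0 := by
      intro c hc
      obtain ⟨t, rfl⟩ := (W.kunneth X Y).2 c
      have key : ∀ t, W.map G (kunnethMap (W.map (fst X Y)) (W.map (snd X Y)) t) =
          kunnethMap (W.map (fst Z Z')) (W.map (snd Z Z'))
            (TensorProduct.map (W.map g).toLinearMap (W.map g').toLinearMap t) := by
        intro t
        induction t using TensorProduct.induction_on with
        | zero => simp only [map_zero]
        | add a b ha hb => simp only [map_add, ha, hb]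
        | tmul a b =>
          simp only [kunnethMap, TensorProduct.lift.tmul, LinearMap.compl₁₂_apply,
            LinearMap.mul_apply', AlgHom.toLinearMap_apply, TensorProduct.map_tmul, map_mul]
          rw [← W.map_comp, ← W.map_comp, ← W.map_comp, ← W.map_comp, hG, lift_fst, lift_snd]
      rw [key] at hc
      have h1 := (W.kunneth Z Z').1 (hc.trans (map_zero _).symm)
      have h2 : Function.Injective
          (TensorProduct.map (W.map g).toLinearMap (W.map g').toLinearMap) :=
        TensorProduct.map_injective_of_flat_flat _ _ hg hg'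
      have h3 := h2 (h1.trans (map_zero _).symm)
      rw [h3, map_zero]
    exact (injective_iff_map_eq_zero (W.map G)).2 hker
  exact (hR (Z.prod Z') (IsProductOf.prod hZ hZ') (X.prod Y) G hinj).1

end Pool.Agent.Helper60K9.EL
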