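import Pool.Agent.Helper60K9.EL.Defs
import Pool.Agent.Helper7K9.OL.Basic

/-!
# Statements of the leaves
-/

set_option autoImplicit false

open CategoryTheory Polynomial

universe u

namespace Pool.Agent.Helper60K9.EL

open Pool.Agent.H914 Pool.Agent.H914.VarClass Pool.Agent.H914.VarClass.Obj
  Pool.Agent.H914.WeilCohomology Pool.Agent.Helper7K9.OL Pool.Agent.Helper11K9.Dens

/-! ## Linear algebra (Mathlib only) -/

/-- [REG] A `ℚ`-algebra `R` of operators with a nondegenerate rational supertrace is von Neumann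
regular. PROOF: (1) `R` is finite-dimensional over `ℚ`: choose `y_1, …, y_n ∈ R` whose `K`-span
contains `R`; then `x ↦ (tr (σ x y_i))_i`, `R → ℚ^n`, is injective. (2) If `x ∈ R` and `x R` (left
ideal `R x`) is nilpotent, then `tr (σ y x) = 0` for all `y ∈ R` (`σ` commutes with the nilpotent
operator `y x`), so `x = 0`: the Jacobson radical of the Artinian ring `R` is nilpotent, hence zero,
`R` is semisimple (Mathlib: `IsSemiprimaryRing`/`IsArtinianRing.isSemisimpleRing_iff_jacobson`),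
and the left ideal `R D` is a direct summand, `R D = R e` with `e = C D` idempotent, `D e = D`. -/
def S_REG : Prop :=
  ∀ (K V : Type) [Field K] [CharZero K] [AddCommGroup V] [Module K V] [Module.Finite K V]
    (σ : Module.End K V) (R : Subring (Module.End K V)), σ * σ = 1 →
    (∀ (c : ℚ), ∀ x ∈ R, (c : K) • x ∈ R) → (∀ x ∈ R, σ * x = x * σ) →
    (∀ x ∈ R, ∃ c : ℚ, LinearMap.trace K V (σ * x) = (c : K)) →
    (∀ x ∈ R, (∀ y ∈ R, LinearMap.trace K V (σ * (y * x)) = 0) → x = 0) →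
    ∀ D ∈ R, ∃ C ∈ R, D * C * D = D

/-- [TRD] The trace on the image of an idempotent. PROOF: `F ^ m * e` maps `V` to the range `U` of
`e`, and equals `F ^ m` on `U`; `LinearMap.trace_restrict_eq_of_forall_mem` or `IsCompl`. -/
def S_TRD : Prop :=
  ∀ (K V : Type) [Field K] [AddCommGroup V] [Module K V] [Module.Finite K V]
    (F e : Module.End K V) (U : Submodule K V), e * e = e → LinearMap.range e = U →
    ∀ hF : ∀ x ∈ U, F x ∈ U, ∀ m : ℕ,
    LinearMap.trace K U ((F.restrict hF) ^ m) = LinearMap.trace K V (F ^ m * e)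

/-- [PPK] In a von Neumann regular ring `R` of operators (here: of families of operators) the
kernel of `u` on the image of an idempotent `e` is the image of an idempotent: if `u' = u e`,
`u' c u' = u'`, take `g = e (1 - c u') e`. -/
def S_PPK : Prop :=
  ∀ (Λ : Type) (K V : Λ → Type) [∀ l, Field (K l)] [∀ l, AddCommGroup (V l)]
    [∀ l, Module (K l) (V l)] (R : Subring (∀ l, Module.End (K l) (V l))),
    (∀ D ∈ R, ∃ C ∈ R, D * C * D = D) → ∀ e ∈ R, e * e = e → ∀ u ∈ R,
    ∃ g ∈ R, g * g = g ∧ ∀ l, LinearMap.range (g l) = LinearMap.range (e l) ⊓ LinearMap.ker (u l)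

/-- [PPI] The image of an element is the image of an idempotent: `G c G = G`, take `G c`. -/
def S_PPI : Prop :=
  ∀ (Λ : Type) (K V : Λ → Type) [∀ l, Field (K l)] [∀ l, AddCommGroup (V l)]
    [∀ l, Module (K l) (V l)] (R : Subring (∀ l, Module.End (K l) (V l))),
    (∀ D ∈ R, ∃ C ∈ R, D * C * D = D) → ∀ G ∈ R,
    ∃ g ∈ R, g * g = g ∧ ∀ l, LinearMap.range (g l) = LinearMap.range (G l)

/-- [CHR] Operators over different fields of characteristic zero whose powers have the same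
rational traces have the same rational characteristic polynomial (Newton's identities; or look at
`∏ (X - a_i)` over algebraic closures and power sums). Search the library first: `grep -rn
charpoly` in `Pool/Agent` (R401, W401, Helper3K9). -/
def S_CHR : Prop :=
  ∀ (Λ : Type) (K V : Λ → Type) [∀ l, Field (K l)] [∀ l, CharZero (K l)]
    [∀ l, AddCommGroup (V l)] [∀ l, Module (K l) (V l)] [∀ l, Module.Finite (K l) (V l)]
    (F : ∀ l, Module.End (K l) (V l)),
    (∀ m : ℕ, ∃ c : ℚ, ∀ l, LinearMap.trace (K l) (V l) (F l ^ m) = (c : K l)) →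
    ∃ P : ℚ[X], ∀ l, (F l).charpoly = P.map (algebraMap ℚ (K l))

/-- [WTS] Splitting by weights. `q b` kills `F` on `fil (b + 1) / fil b`, and has complex roots of
absolute value `r ^ (b / 2)`, and `N F = r F N`, `N` has degree `-2`. Then every `h` in
`fil (b + 3)` (weight `≤ b + 2`) with `N h` in `fil b` is congruent modulo `fil (b + 2)` to an
element of `ker N`. PROOF: the polynomials `q c` are pairwise coprime, and `∏_{c < n} q c (F) = 0`
on `fil n`; let `u` be a rational polynomial with `u = 1 mod q (b + 2)` and `u = 0 mod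
∏_{c < b + 2} q c`. Then `h' = u(F) h` is congruent to `h` modulo `fil (b + 2)` and
`q (b + 2) (F) h' = 0`. `N h' = u(r F) N h` is in `fil b`, so it is killed by `∏_{c < b} q c (F)`;
and by `q (b + 2) (r F)` (`N g(F) = g(r F) N`): the polynomials `q (b + 2) (r X)` (roots of
absolute value `r ^ (b/2)`) and `q c`, `c < b`, are coprime, so `N h' = 0`. -/
def S_WTS : Prop :=
  ∀ (K H : Type) [Field K] [CharZero K] [AddCommGroup H] [Module K H]
    (F N : Module.End K H) (fil : ℕ → Submodule K H) (q : ℕ → ℚ[X]) (r : ℕ), 2 ≤ r →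
    Monotone fil → fil 0 = ⊥ → (∀ h, N (F h) = (r : K) • F (N h)) →
    (∀ b, ∀ z : ℂ, aeval z (q b) = 0 → ‖z‖ ^ 2 = (r : ℝ) ^ b) →
    (∀ b, ∀ h ∈ fil (b + 1), aeval F ((q b).map (algebraMap ℚ K)) h ∈ fil b) →
    (∀ b, ∀ h ∈ fil (b + 1), F h ∈ fil (b + 1)) →
    (∀ b, ∀ h ∈ fil (b + 3), N h ∈ fil (b + 1)) → (∀ h ∈ fil 2, N h = 0) →
    ∀ b, ∀ h ∈ fil (b + 3), N h ∈ fil b → ∃ h', N h' = 0 ∧ h' ∈ fil (b + 3) ∧
      h - h' ∈ fil (b + 2)

/-- [ADD] Additivity of traces along a filtration of `U = ker N`: if `A b` are stable subspaces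
between `fil b` and `fil (b + 1)` such that every element of `A b` is congruent modulo `fil b` to
an element of `ker N ⊓ fil (b + 1)`, and `ker N ⊓ fil (b + 1) ≤ A b`, then
`tr (F^m | ker N) = ∑ (tr (F^m | A b) - tr (F^m | fil b))`. PROOF: induction on `n`:
`0 → ker N ⊓ fil b → ker N ⊓ fil (b + 1) → A b / fil b → 0`. -/
def S_ADD : Prop :=
  ∀ (K H : Type) [Field K] [AddCommGroup H] [Module K H] [Module.Finite K H]
    (F N : Module.End K H) (fil A : ℕ → Submodule K H) (n : ℕ), Monotone fil → fil 0 = ⊥ →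
    fil n = ⊤ → (∀ b, fil b ≤ A b) → (∀ b, A b ≤ fil (b + 1)) →
    (∀ b, LinearMap.ker N ⊓ fil (b + 1) ≤ A b) →
    (∀ b, ∀ h ∈ A b, ∃ h', N h' = 0 ∧ h' ∈ fil (b + 1) ∧ h - h' ∈ fil b) →
    ∀ (hN : ∀ h ∈ LinearMap.ker N, F h ∈ LinearMap.ker N) (hf : ∀ b, ∀ h ∈ fil b, F h ∈ fil b)
      (hA : ∀ b, ∀ h ∈ A b, F h ∈ A b) (m : ℕ),
    LinearMap.trace K (LinearMap.ker N) ((F.restrict hN) ^ m) =
      ∑ b ∈ Finset.range n, (LinearMap.trace K (A b) ((F.restrict (hA b)) ^ m) -
        LinearMap.trace K (fil b) ((F.restrict (hf b)) ^ m))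

/-- [REL] Traces and linear relations: `R` is a linear relation between `U ⊆ V` and `A ⊆ H` which
induces an isomorphism `U / B ≅ A / C`, compatible with `F` and `G`. Then
`tr (G^m | A) - tr (G^m | C) = tr (F^m | U) - tr (F^m | B)`. PROOF: both sides are
`tr (F^m | R) - tr (F^m | B × C)`: project `R` to `V` (kernel `C`) and to `H` (kernel `B`). -/
def S_REL : Prop :=
  ∀ (K V H : Type) [Field K] [AddCommGroup V] [Module K V] [Module.Finite K V]
    [AddCommGroup H] [Module K H] [Module.Finite K H] (F : Module.End K V) (G : Module.End K H)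
    (R : Submodule K (V × H)) (U B : Submodule K V) (A C : Submodule K H),
    (∀ x, x ∈ U ↔ ∃ y, (x, y) ∈ R) → (∀ y, y ∈ A ↔ ∃ x, (x, y) ∈ R) →
    (∀ x, x ∈ B ↔ (x, 0) ∈ R) → (∀ y, y ∈ C ↔ ((0 : V), y) ∈ R) →
    (∀ x y, (x, y) ∈ R → (F x, G y) ∈ R) →
    ∀ (hU : ∀ x ∈ U, F x ∈ U) (hB : ∀ x ∈ B, F x ∈ B) (hA : ∀ y ∈ A, G y ∈ A)
      (hC : ∀ y ∈ C, G y ∈ C) (m : ℕ),
    LinearMap.trace K A ((G.restrict hA) ^ m) - LinearMap.trace K C ((G.restrict hC) ^ m) =
      LinearMap.trace K U ((F.restrict hU) ^ m) - LinearMap.trace K B ((F.restrict hB) ^ m)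

/-- [CRT] Rational polynomials which project to one weight: if the `P j` have complex roots of
absolute value `r ^ (j / 2)`, `r ≥ 2`, there is `u` with `u = 1 mod P j` and `u = 0 mod P j'` for
all `j' ≤ n` different from `j`. -/
def S_CRT : Prop :=
  ∀ (P : ℕ → ℚ[X]) (r n j : ℕ), 2 ≤ r → AreWeilPolynomials r P →
    ∃ u : ℚ[X], P j ∣ u - 1 ∧ ∀ j' ≤ n, j' ≠ j → P j' ∣ u

/-! ## Algebraic families of operators -/

section Fam

variable {k : Type u} [Field k] {𝒱 : VarClass k} {ops : CycleOps 𝒱} {ι : Type}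
  [Finite ι]

/-- The sum of the cohomologies of the varieties `Y x`. -/
abbrev Sm (W : WeilCohomology.{u, 0} ops) (Y : ι → 𝒱.Obj) : Type := ∀ x, W.H (Y x)

/-- The operator given by a correspondence from `Y x` to `Y y`. -/
noncomputable def elem (W : WeilCohomology.{u, 0} ops) (Y : ι → 𝒱.Obj) (x y : ι)
    (z : ((Y x).prod (Y y)).Cycles) : Module.End W.K (Sm W Y) :=
  haveI := Classical.decEq ι
  LinearMap.single W.K (fun y => W.H (Y y)) y ∘ₗ W.corr (W.cl _ z) ∘ₗ LinearMap.proj x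

/-- The families of operators (one for each theory `W l`) given by matrices of algebraic
correspondences which do not depend on `l`. -/
def algFam {Λ : Type} (W : Λ → WeilCohomology.{u, 0} ops) (Y : ι → 𝒱.Obj) :
    AddSubgroup (∀ l, Module.End (W l).K (Sm (W l) Y)) :=
  AddSubgroup.closure {T | ∃ (x y : ι) (q : ℕ) (z : ((Y x).prod (Y y)).Cycles),
    ((Y x).prod (Y y)).IsCyc q z ∧ ∀ l, T l = elem (W l) Y x y z}

/-- The operator which is `(-1) ^ j` on the cohomology of degree `j`. -/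
noncomputable def pars (W : WeilCohomology.{u, 0} ops) (Y : ι → 𝒱.Obj) :
    Module.End W.K (Sm W Y) :=
  LinearMap.pi fun x => par (W.isInternal (Y x)) ∘ₗ LinearMap.proj x

end Fam

/-- [ONE] (graph of the identity: `diag`, `fundCycle`, `corr_diag`; `WeilCohomology.cl_push`,
`cl_fund`). -/
def S_ONE : Prop :=
  ∀ {k : Type u} [Field k] {𝒱 : VarClass k} {ops : CycleOps 𝒱} {ι : Type} [Finite ι]
    {Λ : Type} (W : Λ → WeilCohomology.{u, 0} ops) (Y : ι → 𝒱.Obj), 1 ∈ algFam W Y

/-- [RSM] rational scalars (`cl_smul`; `q • z` has the same codimension). -/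
def S_RSM : Prop :=
  ∀ {k : Type u} [Field k] {𝒱 : VarClass k} {ops : CycleOps 𝒱} {ι : Type} [Finite ι]
    {Λ : Type} (W : Λ → WeilCohomology.{u, 0} ops) (Y : ι → 𝒱.Obj) (c : ℚ),
    ∀ T ∈ algFam W Y, (fun l => (c : (W l).K) • T l) ∈ algFam W Y

/-- [MUL] composition (`compCyc`, `corr_comp`, `cl_push`, `cl_mul`, `cl_pull`). -/
def S_MUL : Prop :=
  ∀ {k : Type u} [Field k] {𝒱 : VarClass k} {ops : CycleOps 𝒱} {ι : Type} [Finite ι]
    {Λ : Type} (W : Λ → WeilCohomology.{u, 0} ops) (Y : ι → 𝒱.Obj),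
    ∀ T ∈ algFam W Y, ∀ T' ∈ algFam W Y, T * T' ∈ algFam W Y

/-- [PUL] pull-backs and push-forwards along a morphism `f : Y x ⟶ Y y` are algebraic (the graph
`push (lift f 1)` of the fundamental class, and its transpose). -/
def S_PUL : Prop :=
  ∀ {k : Type u} [Field k] {𝒱 : VarClass k} {ops : CycleOps 𝒱} {ι : Type} [Finite ι]
    [DecidableEq ι] {Λ : Type} (W : Λ → WeilCohomology.{u, 0} ops) (Y : ι → 𝒱.Obj) (x y : ι)
    (f : Y x ⟶ Y y),
    (fun l => (LinearMap.single (W l).K (fun y => (W l).H (Y y)) x ∘ₗ ((W l).map f).toLinearMap ∘ₗ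
      LinearMap.proj y : Module.End (W l).K (Sm (W l) Y))) ∈ algFam W Y ∧
    (fun l => (LinearMap.single (W l).K (fun y => (W l).H (Y y)) y ∘ₗ (W l).push f ∘ₗ
      LinearMap.proj x : Module.End (W l).K (Sm (W l) Y))) ∈ algFam W Y

/-- [PAR] algebraic operators commute with the parity (`corr_isHom` is for `X = Y`; the same proof
with `push_mem`, `map_mem` for `X ≠ Y`). -/
def S_PAR : Prop :=
  ∀ {k : Type u} [Field k] {𝒱 : VarClass k} {ops : CycleOps 𝒱} {ι : Type} [Finite ι]
    {Λ : Type} (W : Λ → WeilCohomology.{u, 0} ops) (Y : ι → 𝒱.Obj),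
    ∀ T ∈ algFam W Y, ∀ l, pars (W l) Y * T l = T l * pars (W l) Y

/-- [TRC] the supertrace of an algebraic operator is rational and does not depend on the theory
(`trace_par_corr`, `cl_pull`, `tr_cl`; only the diagonal blocks contribute). -/
def S_TRC : Prop :=
  ∀ {k : Type u} [Field k] {𝒱 : VarClass k} {ops : CycleOps 𝒱} {ι : Type} [Finite ι]
    {Λ : Type} (W : Λ → WeilCohomology.{u, 0} ops) (Y : ι → 𝒱.Obj),
    ∀ T ∈ algFam W Y, ∃ c : ℚ, ∀ l,
      LinearMap.trace (W l).K (Sm (W l) Y) (pars (W l) Y * T l) = (c : (W l).K)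

/-- [NDG] nondegeneracy for the theories with `hom = num` on the products of two of the `Y x`.
PROOF: `T l` is a sum of blocks `corr (cl z_xy)`; the trace with the block given by a cycle `w` on
`Y y × Y x` is (Lefschetz) the degree of `z_xy · w^t`, where `w^t` is the transposed cycle; every
cycle on `Y x × Y y` is a `w^t`. So every homogeneous part of `z_xy` is numerically trivial. -/
def S_NDG : Prop :=
  ∀ {k : Type u} [Field k] {𝒱 : VarClass k} {ops : CycleOps 𝒱} {ι : Type} [Finite ι]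
    {Λ : Type} (W : Λ → WeilCohomology.{u, 0} ops) (Y : ι → 𝒱.Obj) (l : Λ),
    (∀ x y, HomEqNum (W l) ((Y x).prod (Y y))) → ∀ T ∈ algFam W Y,
    (∀ T' ∈ algFam W Y,
      LinearMap.trace (W l).K (Sm (W l) Y) (pars (W l) Y * (T' l * T l)) = 0) → T l = 0

/-! ## The terms of the weight spectral sequence -/

section Cur

variable {k : Type u} [Field k] {𝒱 : VarClass k} {ops : CycleOps 𝒱} {d : ℕ}

/-- All strata. -/
abbrev Str (D : Strata 𝒱 d) : Type := Σ p, D.S p

/-- All strata as varieties. -/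
abbrev strY (D : Strata 𝒱 d) (x : Str D) : 𝒱.Obj := D.Y x.1 x.2

/-- The families of classes as elements of the sum over all strata. -/
noncomputable def cur (W : WeilCohomology.{u, 0} ops) (D : Strata 𝒱 d) :
    Tot W D ≃ₗ[W.K] Sm W (strY D) :=
  (LinearEquiv.piCurry W.K (fun (p : ℕ) (s : D.S p) => W.H (D.Y p s))).symm

end Cur

/-- [FIN] there are finitely many strata (`dim_add`). -/
def S_FIN : Prop :=
  ∀ {k : Type u} [Field k] {𝒱 : VarClass k} {d : ℕ} (D : Strata 𝒱 d), Finite (Str D)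

/-- [DFA] the differential is algebraic (`resF`, `gysF` are sums of pull-backs and push-forwards
along `inc`; the truncation is a sum of diagonal blocks). -/
def S_DFA : Prop :=
  ∀ {k : Type u} [Field k] {𝒱 : VarClass k} {ops : CycleOps 𝒱} {d : ℕ} (D : Strata 𝒱 d)
    [Finite (Str D)] {Λ : Type} (W : Λ → WeilCohomology.{u, 0} ops) (i b : ℕ),
    ∃ T ∈ algFam W (strY D), ∀ l f, T l (cur (W l) D f) = cur (W l) D (dif (W l) D i b f)

/-- [MNA] the monodromy operator is algebraic. -/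
def S_MNA : Prop :=
  ∀ {k : Type u} [Field k] {𝒱 : VarClass k} {ops : CycleOps 𝒱} {d : ℕ} (D : Strata 𝒱 d)
    [Finite (Str D)] {Λ : Type} (W : Λ → WeilCohomology.{u, 0} ops) (i b : ℕ),
    ∃ T ∈ algFam W (strY D), ∀ l f, T l (cur (W l) D f) = cur (W l) D (mon (W l) D i b f)

/-- [FRA] Frobenius is algebraic: on `E_1`, and on each `Coh p` (extended by zero). -/
def S_FRA : Prop :=
  ∀ {k : Type u} [Field k] {𝒱 : VarClass k} {ops : CycleOps 𝒱} {d : ℕ} (D : Strata 𝒱 d)
    [Finite (Str D)] (A : FrobAction D) {Λ : Type} (W : Λ → WeilCohomology.{u, 0} ops) (r i b : ℕ),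
    (∃ T ∈ algFam W (strY D), ∀ l f,
      T l (cur (W l) D f) = cur (W l) D (frobT (W l) D A r i b f)) ∧
    ∀ p, ∃ T ∈ algFam W (strY D), ∀ l f,
      T l (cur (W l) D f) = cur (W l) D (Pi.single p (phi (W l) D A p (f p)))

/-- [E1P] (Katz-Messing) the term `E_1^(i-b,b)` is the image of an algebraic idempotent: for every
`p` with `p ≤ i`, `|b-i| ≤ p`, `p + b - i` even take `u(phi p)`, `u` from `S_CRT` for `j = i - p`
and `n = 2 d` (`u(phi p)` is a rational polynomial in an algebraic operator). -/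
def S_E1P : Prop :=
  ∀ {k : Type u} [Field k] {𝒱 : VarClass k} {ops : CycleOps 𝒱} {d : ℕ} (D : Strata 𝒱 d)
    [Finite (Str D)] (A : FrobAction D) {Λ : Type} (W : Λ → WeilCohomology.{u, 0} ops)
    (r : ℕ) (P : ℕ → ℚ[X]), 2 ≤ r → AreWeilPolynomials r P → (∀ l, IsWeil (W l) D A P) →
    ∀ i b, ∃ T ∈ algFam W (strY D), T * T = T ∧
      ∀ l f, f ∈ LinearMap.range (T l) ↔ InE1 (W l) D i b ((cur (W l) D).symm f)

/-- [WTE] Frobenius on the term of weight `b` is killed by a rational polynomial with complex roots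
of absolute value `r ^ (b / 2)`: the product over `p` of `P (i - p) (X / r ^ ((p + b - i) / 2))`,
`p ≤ i`, `|b - i| ≤ p`, `p + b - i` even. -/
def S_WTE : Prop :=
  ∀ {k : Type u} [Field k] {𝒱 : VarClass k} {ops : CycleOps 𝒱} {d : ℕ} (D : Strata 𝒱 d)
    (A : FrobAction D) (r : ℕ) (P : ℕ → ℚ[X]), 2 ≤ r → AreWeilPolynomials r P →
    ∀ i b, ∃ q : ℚ[X], (∀ z : ℂ, aeval z q = 0 → ‖z‖ ^ 2 = (r : ℝ) ^ b) ∧
      ∀ (W : WeilCohomology.{u, 0} ops), IsWeil W D A P →
      ∀ (F : Module.End W.K (Tot W D)), (∀ f, F f = frobT W D A r i b f) →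
      ∀ f, InE1 W D i b f → aeval F (q.map (algebraMap ℚ W.K)) f = 0

/-! ## Domination -/

/-- [DOM] `hom = num` for the product of two varieties dominated by products of members of `R`:
`Z × Z'` is again a product of members of `R`, and `(g × g')^*` is injective by the Künneth
formula (`(g × g')^*` of `∑ p(a) q(b)`). -/
def S_DOM : Prop :=
  ∀ {k : Type u} [Field k] {𝒱 : VarClass k} {ops : CycleOps 𝒱} (W : WeilCohomology.{u, 0} ops)
    (R : Set 𝒱.Obj), StandardFor W R → ∀ (X Y Z Z' : 𝒱.Obj) (g : Z ⟶ X) (g' : Z' ⟶ Y),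
    IsProductOf R Z → IsProductOf R Z' → Function.Injective (W.map g) →
    Function.Injective (W.map g') → HomEqNum W (X.prod Y)

end Pool.Agent.Helper60K9.EL
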