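import Pool.Agent.Helper60K9.EL.Stm

/-!
# EL, leaf TRC: the supertrace of an algebraic operator is rational and independent of the theory
-/

set_option autoImplicit false

open CategoryTheory Polynomial

universe u

namespace Pool.Agent.Helper60K9.EL

open Pool.Agent.H914 Pool.Agent.H914.VarClass Pool.Agent.H914.VarClass.Obj
  Pool.Agent.H914.WeilCohomology Pool.Agent.Helper7K9.OL Pool.Agent.Helper11K9.Dens

namespace TrcL

variable {k : Type u} [Field k] {𝒱 : VarClass k} {ops : CycleOps 𝒱} {ι : Type} [Finite ι]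
  (W : WeilCohomology.{u, 0} ops) (Y : ι → 𝒱.Obj)

lemma pars_single [DecidableEq ι] (y : ι) :
    pars W Y ∘ₗ LinearMap.single W.K (fun y => W.H (Y y)) y =
      LinearMap.single W.K (fun y => W.H (Y y)) y ∘ₗ par (W.isInternal (Y y)) := by
  refine LinearMap.ext fun v => ?_
  funext z
  simp only [pars, LinearMap.pi_apply, LinearMap.comp_apply, LinearMap.proj_apply,
    LinearMap.single_apply]
  by_cases h : z = y
  · subst h
    rw [Pi.single_eq_same, Pi.single_eq_same]
  · rw [Pi.single_eq_of_ne h, Pi.single_eq_of_ne h, map_zero]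

lemma trace_block [DecidableEq ι] (x y : ι) (g : W.H (Y x) →ₗ[W.K] W.H (Y y)) :
    LinearMap.trace W.K (Sm W Y) (pars W Y *
      (LinearMap.single W.K (fun y => W.H (Y y)) y ∘ₗ g ∘ₗ LinearMap.proj x)) =
    LinearMap.trace W.K (W.H (Y x)) (LinearMap.proj x ∘ₗ
      LinearMap.single W.K (fun y => W.H (Y y)) y ∘ₗ par (W.isInternal (Y y)) ∘ₗ g) := by
  have e : pars W Y * (LinearMap.single W.K (fun y => W.H (Y y)) y ∘ₗ g ∘ₗ LinearMap.proj x) =
      (LinearMap.single W.K (fun y => W.H (Y y)) y ∘ₗ par (W.isInternal (Y y)) ∘ₗ g) ∘ₗ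
        LinearMap.proj x := by
    rw [Module.End.mul_eq_comp, ← LinearMap.comp_assoc, pars_single, LinearMap.comp_assoc,
      LinearMap.comp_assoc, LinearMap.comp_assoc]
  rw [e, LinearMap.trace_comp_comm']

lemma trace_same (x : ι) (z : ((Y x).prod (Y x)).Cycles) :
    LinearMap.trace W.K (Sm W Y) (pars W Y * elem W Y x x z) =
      W.tr (Y x) (W.map (diag (Y x)) (W.cl _ z)) := by
  classical
  unfold elem
  rw [trace_block, ← W.trace_par_corr]
  congr 1
  rw [← LinearMap.comp_assoc, LinearMap.proj_comp_single_same, LinearMap.id_comp]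
  rfl

lemma trace_ne {x y : ι} (h : x ≠ y) (z : ((Y x).prod (Y y)).Cycles) :
    LinearMap.trace W.K (Sm W Y) (pars W Y * elem W Y x y z) = 0 := by
  classical
  unfold elem
  rw [trace_block, ← LinearMap.comp_assoc, LinearMap.proj_comp_single_ne _ _ _ _ h,
    LinearMap.zero_comp, map_zero]

lemma tr_diag {X : 𝒱.Obj} {q : ℕ} {z : (X.prod X).Cycles} (hz : (X.prod X).IsCyc q z) :
    W.tr X (W.map (diag X) (W.cl _ z)) =
      ((if q = X.dim then X.V.degCycle (ops.pull (diag X) z) else 0 : ℚ) : W.K) := by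
  rw [← W.cl_pull]
  have h := ops.pull_mem (diag X) hz
  split_ifs with hq
  · subst hq
    exact W.tr_cl h
  · rw [W.tr_eq_zero (W.cl_mem h) (by omega), Rat.cast_zero]

end TrcL

open TrcL in
/-- TRC -/
theorem trc : S_TRC.{u} := by
  intro k _ 𝒱 ops ι _ Λ W Y T hT
  induction hT using AddSubgroup.closure_induction with
  | mem T hT =>
    obtain ⟨x, y, q, z, hz, hT⟩ := hT
    by_cases h : x = y
    · subst h
      refine ⟨if q = (Y x).dim then (Y x).V.degCycle (ops.pull (diag (Y x)) z) else 0, fun l => ?_⟩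
      rw [hT l, trace_same, tr_diag _ hz]
    · exact ⟨0, fun l => by rw [hT l, trace_ne _ _ h, Rat.cast_zero]⟩
  | zero => exact ⟨0, fun l => by rw [Pi.zero_apply, mul_zero, map_zero, Rat.cast_zero]⟩
  | add S T _ _ hS hT =>
    obtain ⟨a, ha⟩ := hS
    obtain ⟨b, hb⟩ := hT
    exact ⟨a + b, fun l => by rw [Pi.add_apply, mul_add, map_add, ha, hb, Rat.cast_add]⟩
  | neg S _ hS =>
    obtain ⟨a, ha⟩ := hS
    refine ⟨-a, fun l => ?_⟩
    have e : pars (W l) Y * (-S) l = -(pars (W l) Y * S l) :=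
      LinearMap.ext fun v => map_neg (pars (W l) Y) (S l v)
    rw [e, map_neg, ha, Rat.cast_neg]

end Pool.Agent.Helper60K9.EL
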