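import Pool.Agent.Helper60K9.EL.Stm

/-! Leaves TRD, PPI, PPK, CRT, REL (helper84) -/

set_option autoImplicit false

open CategoryTheory Polynomial Pool.Agent.Helper11K9.Dens

universe u

namespace Pool.Agent.Helper60K9.EL

namespace TrdL

theorem pow_restrict_coe {K V : Type} [Field K] [AddCommGroup V] [Module K V]
    (F : Module.End K V) (U : Submodule K V) (hF : ∀ x ∈ U, F x ∈ U) (m : ℕ) (x : U) :
    (((F.restrict hF) ^ m) x : V) = (F ^ m) (x : V) := by
  induction m generalizing x with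
  | zero => rfl
  | succ m ih =>
    rw [pow_succ, pow_succ, Module.End.mul_apply, Module.End.mul_apply, ih]
    rfl

theorem pow_mem {K V : Type} [Field K] [AddCommGroup V] [Module K V]
    (F : Module.End K V) (U : Submodule K V) (hF : ∀ x ∈ U, F x ∈ U) (m : ℕ) (x : V) (hx : x ∈ U) :
    (F ^ m) x ∈ U := by
  have := pow_restrict_coe F U hF m ⟨x, hx⟩
  rw [← this]
  exact Subtype.mem _

/-- additivity of the trace in short exact sequences -/
theorem tr_exact {K R U C : Type} [Field K] [AddCommGroup R] [Module K R] [Module.Finite K R]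
    [AddCommGroup U] [Module K U] [Module.Finite K U] [AddCommGroup C] [Module K C]
    [Module.Finite K C] (p : R →ₗ[K] U) (i : C →ₗ[K] R) (hp : Function.Surjective p)
    (hi : Function.Injective i) (hpi : ∀ c, p (i c) = 0) (hk : ∀ x, p x = 0 → ∃ c, i c = x)
    (Φ : Module.End K R) (F : Module.End K U) (G : Module.End K C)
    (h1 : ∀ x, p (Φ x) = F (p x)) (h2 : ∀ c, Φ (i c) = i (G c)) :
    LinearMap.trace K R Φ = LinearMap.trace K U F + LinearMap.trace K C G := by
  obtain ⟨s, hs⟩ := p.exists_rightInverse_of_surjective (LinearMap.range_eq_top.2 hp)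
  have hs' : ∀ u, p (s u) = u := fun u => LinearMap.congr_fun hs u
  have hmem : ∀ x, (LinearMap.id - s ∘ₗ p : R →ₗ[K] R) x ∈ LinearMap.range i := by
    intro x
    obtain ⟨c, hc⟩ := hk ((LinearMap.id - s ∘ₗ p : R →ₗ[K] R) x) (by
      simp only [LinearMap.sub_apply, LinearMap.id_apply, LinearMap.comp_apply, map_sub, hs', sub_self])
    exact ⟨c, hc⟩
  let ρ : R →ₗ[K] C := (LinearEquiv.ofInjective i hi).symm.toLinearMap ∘ₗ
    (LinearMap.codRestrict (LinearMap.range i) (LinearMap.id - s ∘ₗ p) hmem)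
  have hρ : ∀ x, i (ρ x) = x - s (p x) := by
    intro x
    have h3 : LinearEquiv.ofInjective i hi (ρ x) =
        LinearMap.codRestrict (LinearMap.range i) (LinearMap.id - s ∘ₗ p) hmem x := by
      simp only [ρ, LinearMap.comp_apply, LinearEquiv.coe_coe, LinearEquiv.apply_symm_apply]
    have h4 := congrArg Subtype.val h3
    simpa using h4
  have hρi : ∀ c, ρ (i c) = c := by
    intro c
    apply hi
    rw [hρ, hpi, map_zero, sub_zero]
  have hdec : Φ = (Φ ∘ₗ s) ∘ₗ p + (Φ ∘ₗ i) ∘ₗ ρ := by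
    ext x
    simp only [LinearMap.add_apply, LinearMap.comp_apply, hρ, map_sub]
    abel
  have e1 : LinearMap.trace K R ((Φ ∘ₗ s) ∘ₗ p) = LinearMap.trace K U F := by
    rw [LinearMap.trace_comp_comm']
    congr 1
    ext u
    simp only [LinearMap.comp_apply, h1, hs']
  have e2 : LinearMap.trace K R ((Φ ∘ₗ i) ∘ₗ ρ) = LinearMap.trace K C G := by
    rw [LinearMap.trace_comp_comm']
    congr 1
    ext c
    simp only [LinearMap.comp_apply, h2, hρi]
  calc LinearMap.trace K R Φ = LinearMap.trace K R ((Φ ∘ₗ s) ∘ₗ p + (Φ ∘ₗ i) ∘ₗ ρ) := by rw [← hdec]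
    _ = _ := by rw [map_add, e1, e2]

end TrdL

theorem trd : S_TRD := by
  intro K V _ _ _ _ F e U he hU hF m
  have heU : ∀ x, e x ∈ U := fun x => hU ▸ LinearMap.mem_range_self e x
  have hee : ∀ x ∈ U, e x = x := by
    intro x hx
    rw [← hU] at hx
    obtain ⟨y, rfl⟩ := hx
    exact LinearMap.congr_fun he y
  have h1 : ∀ x, (F ^ m * e) x ∈ U := fun x => TrdL.pow_mem F U hF m _ (heU x)
  rw [← LinearMap.trace_restrict_eq_of_forall_mem U (F ^ m * e) h1]
  congr 1
  ext x
  rw [TrdL.pow_restrict_coe]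
  simp only [LinearMap.coe_restrict_apply, Module.End.mul_apply]
  rw [hee x x.2]

theorem ppi : S_PPI := by
  intro Λ K V _ _ _ R hR G hG
  obtain ⟨C, hC, h⟩ := hR G hG
  refine ⟨G * C, R.mul_mem hG hC, by rw [← mul_assoc, h], fun l => ?_⟩
  have hl : G l * C l * G l = G l := congrFun h l
  apply le_antisymm
  · rintro _ ⟨x, rfl⟩
    exact ⟨C l x, rfl⟩
  · rintro _ ⟨x, rfl⟩
    exact ⟨G l x, LinearMap.congr_fun hl x⟩

theorem ppk : S_PPK := by
  intro Λ K V _ _ _ R hR e he hee u hu
  obtain ⟨C, hC, h⟩ := hR (u * e) (R.mul_mem hu he)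
  have hue : u * e * e = u * e := by rw [mul_assoc, hee]
  refine ⟨e - e * C * (u * e), R.sub_mem he (R.mul_mem (R.mul_mem he hC) (R.mul_mem hu he)), ?_,
    fun l => ?_⟩
  · have e1 : e * C * (u * e) * e = e * C * (u * e) := by rw [mul_assoc, hue]
    have e2 : e * (e * C * (u * e)) = e * C * (u * e) := by
      calc e * (e * C * (u * e)) = (e * e) * C * (u * e) := by simp only [mul_assoc]
        _ = e * C * (u * e) := by rw [hee]
    have e3 : e * C * (u * e) * (e * C * (u * e)) = e * C * (u * e) := by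
      calc e * C * (u * e) * (e * C * (u * e)) = e * C * (u * e) * e * C * (u * e) := by
            simp only [mul_assoc]
        _ = e * C * (u * e) * C * (u * e) := by rw [e1]
        _ = e * C * (u * e * C * (u * e)) := by simp only [mul_assoc]
        _ = e * C * (u * e) := by rw [h]
    rw [mul_sub, sub_mul, sub_mul, hee, e1, e2, e3]
    abel
  · have hl : u l * e l * C l * (u l * e l) = u l * e l := congrFun h l
    have hel : e l * e l = e l := congrFun hee l
    have hel' : ∀ x, e l (e l x) = e l x := fun x => LinearMap.congr_fun hel x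
    have hl' : ∀ x, u l (e l (C l (u l (e l x)))) = u l (e l x) := fun x =>
      LinearMap.congr_fun hl x
    apply le_antisymm
    · rintro _ ⟨x, rfl⟩
      refine ⟨⟨x - C l (u l (e l x)), ?_⟩, ?_⟩
      · show e l (x - C l (u l (e l x))) = e l x - e l (C l (u l (e l x)))
        rw [map_sub]
      · show u l (e l x - e l (C l (u l (e l x)))) = 0
        rw [map_sub, hl', sub_self]
    · rintro x ⟨⟨y, rfl⟩, hx⟩
      have hx' : u l (e l y) = 0 := hx
      refine ⟨e l y, ?_⟩
      show e l (e l y) - e l (C l (u l (e l (e l y)))) = e l y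
      rw [hel', hx', map_zero, map_zero, sub_zero]

theorem crt : S_CRT := by
  intro P r n j hr hP
  have hr1 : (1 : ℝ) < r := by exact_mod_cast (by omega : 1 < r)
  have hcop : IsCoprime (P j) (∏ i ∈ (Finset.range (n + 1)).erase j, P i) := by
    refine IsCoprime.prod_right fun i hi => ?_
    refine (Polynomial.isCoprime_iff_aeval_ne_zero_of_isAlgClosed ℚ ℂ (P j) (P i)).2 fun z => ?_
    by_contra hcon
    push Not at hcon
    have h1 := hP j z hcon.1
    have h2 := hP i z hcon.2
    rw [h1] at h2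
    exact (Finset.ne_of_mem_erase hi) ((pow_right_injective₀ (by linarith) hr1.ne') h2).symm
  obtain ⟨a, b, hab⟩ := hcop
  refine ⟨b * ∏ i ∈ (Finset.range (n + 1)).erase j, P i, ⟨-a, ?_⟩, fun i hi hij => ?_⟩
  · rw [← hab]; ring
  · exact Dvd.dvd.mul_left (Finset.dvd_prod_of_mem _ (Finset.mem_erase.2
      ⟨hij, Finset.mem_range.2 (by omega)⟩)) _

theorem rel : S_REL := by
  intro K V H _ _ _ _ _ _ _ F G R U B A C hUR hAR hBR hCR hFG hU hB hA hC m
  have hR : ∀ x ∈ R, (F.prodMap G) x ∈ R := fun x hx => hFG x.1 x.2 hx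
  set Φ : Module.End K R := (F.prodMap G).restrict hR with hΦ
  have hΦm : ∀ x : R, (((Φ ^ m) x : R) : V × H) = ((F ^ m) x.1.1, (G ^ m) x.1.2) := by
    intro x
    rw [hΦ, TrdL.pow_restrict_coe]
    have : ∀ (k : ℕ) (y : V × H), ((F.prodMap G : Module.End K (V × H)) ^ k) y =
        ((F ^ k) y.1, (G ^ k) y.2) := by
      intro k
      induction k with
      | zero => intro y; rfl
      | succ k ih =>
        intro y
        rw [pow_succ, Module.End.mul_apply, ih]
        rfl
    exact this m x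
  let pU : R →ₗ[K] U := LinearMap.codRestrict U (LinearMap.fst K V H ∘ₗ R.subtype)
    (fun x => (hUR _).2 ⟨x.1.2, x.2⟩)
  let pA : R →ₗ[K] A := LinearMap.codRestrict A (LinearMap.snd K V H ∘ₗ R.subtype)
    (fun x => (hAR _).2 ⟨x.1.1, x.2⟩)
  let iC : C →ₗ[K] R := LinearMap.codRestrict R (LinearMap.inr K V H ∘ₗ C.subtype)
    (fun y => (hCR _).1 y.2)
  let iB : B →ₗ[K] R := LinearMap.codRestrict R (LinearMap.inl K V H ∘ₗ B.subtype)
    (fun y => (hBR _).1 y.2)
  have hpU : ∀ x : R, (pU x : V) = x.1.1 := fun _ => rfl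
  have hpA : ∀ x : R, (pA x : H) = x.1.2 := fun _ => rfl
  have hiC : ∀ x : C, (iC x : V × H) = (0, (x : H)) := fun _ => rfl
  have hiB : ∀ x : B, (iB x : V × H) = ((x : V), 0) := fun _ => rfl
  have t1 : LinearMap.trace K R (Φ ^ m) = LinearMap.trace K U ((F.restrict hU) ^ m) +
      LinearMap.trace K C ((G.restrict hC) ^ m) := by
    refine TrdL.tr_exact pU iC ?_ ?_ ?_ ?_ _ _ _ ?_ ?_
    · intro x
      obtain ⟨y, hy⟩ := (hUR x).1 x.2
      exact ⟨⟨(x, y), hy⟩, Subtype.ext rfl⟩
    · intro x y hxy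
      have := congrArg (fun z : R => z.1.2) hxy
      exact Subtype.ext this
    · intro c
      exact Subtype.ext rfl
    · intro x hx
      have h1 : x.1.1 = 0 := by
        have := congrArg Subtype.val hx
        simpa [hpU] using this
      have h2 : x.1 = ((0 : V), x.1.2) := Prod.ext h1 rfl
      exact ⟨⟨x.1.2, (hCR _).2 (by rw [← h2]; exact x.2)⟩, Subtype.ext (by rw [hiC]; exact h2.symm)⟩
    · intro x
      apply Subtype.ext
      rw [hpU, hΦm, TrdL.pow_restrict_coe, hpU]
    · intro c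
      apply Subtype.ext
      rw [hΦm, hiC, hiC, TrdL.pow_restrict_coe, map_zero]
  have t2 : LinearMap.trace K R (Φ ^ m) = LinearMap.trace K A ((G.restrict hA) ^ m) +
      LinearMap.trace K B ((F.restrict hB) ^ m) := by
    refine TrdL.tr_exact pA iB ?_ ?_ ?_ ?_ _ _ _ ?_ ?_
    · intro y
      obtain ⟨x, hx⟩ := (hAR y).1 y.2
      exact ⟨⟨(x, y), hx⟩, Subtype.ext rfl⟩
    · intro x y hxy
      have := congrArg (fun z : R => z.1.1) hxy
      exact Subtype.ext this
    · intro c
      exact Subtype.ext rfl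
    · intro x hx
      have h1 : x.1.2 = 0 := by
        have := congrArg Subtype.val hx
        simpa [hpA] using this
      have h2 : x.1 = (x.1.1, (0 : H)) := Prod.ext rfl h1
      exact ⟨⟨x.1.1, (hBR _).2 (by rw [← h2]; exact x.2)⟩, Subtype.ext (by rw [hiB]; exact h2.symm)⟩
    · intro x
      apply Subtype.ext
      rw [hpA, hΦm, TrdL.pow_restrict_coe, hpA]
    · intro c
      apply Subtype.ext
      rw [hΦm, hiB, hiB, TrdL.pow_restrict_coe, map_zero]
  have t3 := t1.symm.trans t2
  linear_combination -t3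

end Pool.Agent.Helper60K9.EL
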