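import Pool.Agent.Helper60K9.EL.Stm

/-!
# [WTE] the weights of Frobenius on the terms of the spectral sequence
-/

set_option autoImplicit false

open CategoryTheory Polynomial

universe u

namespace Pool.Agent.Helper60K9.EL

open Pool.Agent.H914 Pool.Agent.H914.VarClass Pool.Agent.H914.VarClass.Obj
  Pool.Agent.H914.WeilCohomology Pool.Agent.Helper7K9.OL Pool.Agent.Helper11K9.Dens

namespace WteL

variable {k : Type u} [Field k] {𝒱 : VarClass k} {ops : CycleOps 𝒱} {d : ℕ} (D : Strata 𝒱 d)
    (A : FrobAction D) (W : WeilCohomology.{u, 0} ops)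

/-- A diagonal operator: its polynomials are diagonal. -/
theorem aeval_diag {r i b : ℕ} {F : Module.End W.K (Tot W D)}
    (hF : ∀ f, F f = frobT W D A r i b f) (g : Polynomial W.K) (f : Tot W D) (p : ℕ) :
    (aeval F g f) p =
      aeval ((r : W.K) ^ (((p : ℤ) + b - i) / 2).toNat • phi W D A p) g (f p) := by
  have hpow : ∀ (m : ℕ) (f : Tot W D), ((F ^ m) f) p =
      (((r : W.K) ^ (((p : ℤ) + b - i) / 2).toNat • phi W D A p) ^ m) (f p) := by
    intro m
    induction m with
    | zero => intro f; simp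
    | succ m ih =>
      intro f
      rw [pow_succ, Module.End.mul_apply, ih, pow_succ, Module.End.mul_apply, hF]
      rfl
  induction g using Polynomial.induction_on' with
  | add g h hg hh =>
    rw [map_add, map_add, LinearMap.add_apply, LinearMap.add_apply, Pi.add_apply, hg, hh]
  | monomial m c =>
    rw [aeval_monomial, aeval_monomial, Module.End.mul_apply, Module.End.mul_apply,
      Module.algebraMap_end_apply, Module.algebraMap_end_apply, Pi.smul_apply, hpow]

end WteL

open WteL in
theorem wte : S_WTE.{u} := by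
  classical
  intro k _ 𝒱 ops d D A r P hr hP i b
  have hr0 : (r : ℚ) ≠ 0 := by
    have : r ≠ 0 := by omega
    exact_mod_cast this
  refine ⟨∏ p ∈ (Finset.range (i + 1)).filter
    (fun p : ℕ => ((b : ℤ) - i).natAbs ≤ p ∧ Even ((p : ℤ) + b - i)),
    (P (i - p)).comp (C (((r : ℚ) ^ (((p : ℤ) + b - i) / 2).toNat)⁻¹) * X), ?_, ?_⟩
  · intro z hz
    rw [map_prod, Finset.prod_eq_zero_iff] at hz
    obtain ⟨p, hp, hz⟩ := hz
    rw [Finset.mem_filter, Finset.mem_range] at hp
    obtain ⟨hp1, hp2, hp3⟩ := hp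
    rw [aeval_comp, map_mul, aeval_C, aeval_X] at hz
    have h1 := hP (i - p) _ hz
    set e : ℕ := (((p : ℤ) + b - i) / 2).toNat with he
    have h2 : 2 * e + (i - p) = b := by
      obtain ⟨c, hc⟩ := hp3
      have : ((p : ℤ) + b - i) / 2 = c := by omega
      omega
    rw [norm_mul, mul_pow] at h1
    have h3 : ‖(algebraMap ℚ ℂ) (((r : ℚ) ^ e)⁻¹)‖ = ((r : ℝ) ^ e)⁻¹ := by
      rw [map_inv₀, map_pow, map_natCast, norm_inv, norm_pow, Complex.norm_natCast]
    rw [h3] at h1
    have hrp : (0 : ℝ) < (r : ℝ) ^ e := by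
      have : (0 : ℝ) < r := by exact_mod_cast (by omega : 0 < r)
      positivity
    have h4 : ‖z‖ ^ 2 = ((r : ℝ) ^ e) ^ 2 * (r : ℝ) ^ (i - p) := by
      rw [← h1]
      field_simp
    rw [h4, ← pow_mul, ← pow_add]
    congr 1
    omega
  · intro W hW F hF f hf
    funext p
    rw [aeval_diag D A W hF]
    by_cases hp : p ≤ i ∧ ((b : ℤ) - i).natAbs ≤ p ∧ Even ((p : ℤ) + b - i)
    · have hmem : p ∈ (Finset.range (i + 1)).filter
          (fun p : ℕ => ((b : ℤ) - i).natAbs ≤ p ∧ Even ((p : ℤ) + b - i)) := by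
        rw [Finset.mem_filter, Finset.mem_range]
        exact ⟨by omega, hp.2⟩
      have hdeg : f p ∈ deg W D p (i - p) := by
        intro s _
        exact (hf p s).1
      have h1 := hW p (i - p) (f p) hdeg
      obtain ⟨g, hg⟩ := Finset.dvd_prod_of_mem (fun p : ℕ => (P (i - p)).comp
        (C (((r : ℚ) ^ (((p : ℤ) + b - i) / 2).toNat)⁻¹) * X)) hmem
      rw [hg, mul_comm, Polynomial.map_mul, map_mul, Module.End.mul_apply]
      have h2 : aeval ((r : W.K) ^ (((p : ℤ) + b - i) / 2).toNat • phi W D A p)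
          (((P (i - p)).comp (C (((r : ℚ) ^ (((p : ℤ) + b - i) / 2).toNat)⁻¹) * X)).map
            (algebraMap ℚ W.K)) = aeval (phi W D A p) ((P (i - p)).map (algebraMap ℚ W.K)) := by
        rw [Polynomial.map_comp, aeval_comp, Polynomial.map_mul, Polynomial.map_C,
          Polynomial.map_X, map_mul, aeval_C, aeval_X, map_inv₀, map_pow, map_natCast]
        congr 1
        have hrK : ((r : W.K) ^ (((p : ℤ) + b - i) / 2).toNat) ≠ 0 :=
          pow_ne_zero _ (by exact_mod_cast (by omega : r ≠ 0))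
        rw [← Algebra.smul_def, smul_smul, inv_mul_cancel₀ hrK, one_smul]
      rw [h2, h1, map_zero]
      rfl
    · have h0 : f p = 0 := by
        funext s
        exact (hf p s).2.resolve_right hp
      rw [h0, map_zero]
      rfl

end Pool.Agent.Helper60K9.EL
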