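import Pool.Agent.Helper60K9.EL.Stm

/-!
# [WTS] splitting by weights
-/

set_option autoImplicit false

open Polynomial

namespace Pool.Agent.Helper60K9.EL

namespace WtsL

variable {K H : Type} [Field K] [CharZero K] [AddCommGroup H] [Module K H]

/-- evaluation of rational polynomials -/
noncomputable def E (F : Module.End K H) : ℚ[X] →+* Module.End K H :=
  ((aeval F : K[X] →ₐ[K] Module.End K H) : K[X] →+* Module.End K H).comp
    (mapRingHom (algebraMap ℚ K))

theorem E_apply (F : Module.End K H) (p : ℚ[X]) :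
    E F p = aeval F (p.map (algebraMap ℚ K)) := rfl

theorem E_X (F : Module.End K H) : E F X = F := by
  rw [E_apply, Polynomial.map_X, aeval_X]

theorem E_C (F : Module.End K H) (c : ℚ) : E F (C c) = (c : K) • 1 := by
  rw [E_apply, Polynomial.map_C, aeval_C, eq_ratCast]
  rw [Algebra.algebraMap_eq_smul_one]

theorem E_mem (F : Module.End K H) (W : Submodule K H) (hW : ∀ h ∈ W, F h ∈ W) (p : ℚ[X]) :
    ∀ h ∈ W, E F p h ∈ W := by
  induction p using Polynomial.induction_on with
  | C a =>
    intro h hh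
    rw [E_C]
    exact W.smul_mem _ hh
  | add p q hp hq =>
    intro h hh
    rw [map_add]
    exact W.add_mem (hp h hh) (hq h hh)
  | monomial n a ih =>
    intro h hh
    rw [pow_succ, ← mul_assoc, map_mul, E_X]
    exact ih _ (hW h hh)

theorem comm (F N : Module.End K H) (r : ℕ) (hN : ∀ h, N (F h) = (r : K) • F (N h)) (p : ℚ[X]) :
    ∀ h, N (E F p h) = E F (p.comp (C (r : ℚ) * X)) (N h) := by
  induction p using Polynomial.induction_on with
  | C a =>
    intro h
    rw [C_comp, E_C]
    simp
  | add p q hp hq =>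
    intro h
    rw [map_add, add_comp, map_add, LinearMap.add_apply, LinearMap.add_apply, map_add, hp, hq]
  | monomial n a ih =>
    intro h
    have e : (C a * X ^ n * X).comp (C (r : ℚ) * X) =
        (C a * X ^ n).comp (C (r : ℚ) * X) * (C (r : ℚ) * X) := by
      rw [mul_comp (C a * X ^ n) X, X_comp]
    rw [pow_succ, ← mul_assoc, e, map_mul, E_X, Module.End.mul_apply, ih, hN,
      map_mul (E F) _ (C (r : ℚ) * X), Module.End.mul_apply]
    congr 1
    rw [map_mul, E_C, E_X]
    simp

theorem cop (p q : ℚ[X]) (h : ∀ z : ℂ, aeval z p = 0 → aeval z q ≠ 0) : IsCoprime p q := by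
  rw [Polynomial.isCoprime_iff_aeval_ne_zero_of_isAlgClosed ℚ ℂ]
  intro a
  by_cases ha : aeval a p = 0
  · exact Or.inr (h a ha)
  · exact Or.inl ha

end WtsL

open WtsL

theorem wts : S_WTS := by
  intro K H _ _ _ _ F N fil q r hr hmono h0 hN hq hqf hF hNf hN2 b h hh hNh
  have hr1 : (1 : ℝ) < r := by exact_mod_cast hr
  -- the product of the first polynomials
  let Q : ℕ → ℚ[X] := fun n => ∏ c ∈ Finset.range n, q c
  have hQroot : ∀ n, ∀ z : ℂ, aeval z (Q n) = 0 → ∃ c < n, ‖z‖ ^ 2 = (r : ℝ) ^ c := by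
    intro n z hz
    rw [map_prod, Finset.prod_eq_zero_iff] at hz
    obtain ⟨c, hc, hz⟩ := hz
    exact ⟨c, Finset.mem_range.1 hc, hq c z hz⟩
  have hQkill : ∀ n, ∀ h ∈ fil n, E F (Q n) h = 0 := by
    intro n
    induction n with
    | zero =>
      intro h hh
      rw [h0, Submodule.mem_bot] at hh
      rw [hh, map_zero]
    | succ n ih =>
      intro h hh
      have h1 : Q (n + 1) = Q n * q n := Finset.prod_range_succ _ _
      rw [h1, map_mul, Module.End.mul_apply]
      exact ih _ (hqf n h hh)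
  have hFb : ∀ b, ∀ h ∈ fil b, F h ∈ fil b := by
    intro b
    rcases b with _ | b
    · intro h hh
      rw [h0, Submodule.mem_bot] at hh
      rw [hh, map_zero]
      exact Submodule.zero_mem _
    · exact hF b
  have hinj : ∀ m n : ℕ, (r : ℝ) ^ m = (r : ℝ) ^ n → m = n := fun m n h =>
    (pow_right_injective₀ (by linarith) hr1.ne') h
  have hc1 : IsCoprime (q (b + 2)) (Q (b + 2)) := by
    apply cop
    intro z hz hz'
    obtain ⟨c, hc, h1⟩ := hQroot _ z hz'
    have := hinj c (b + 2) (by rw [← h1, hq _ z hz])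
    omega
  have hc2 : IsCoprime ((q (b + 2)).comp (C (r : ℚ) * X)) (Q b) := by
    apply cop
    intro z hz hz'
    obtain ⟨c, hc, h1⟩ := hQroot _ z hz'
    rw [aeval_comp] at hz
    have h2 := hq _ _ hz
    simp only [map_mul, aeval_C, aeval_X, norm_mul, mul_pow] at h2
    have h3 : ‖(algebraMap ℚ ℂ) (r : ℚ)‖ = r := by simp
    rw [h3, h1, ← pow_add] at h2
    have := hinj _ _ h2
    omega
  obtain ⟨a, c, hac⟩ := hc1
  obtain ⟨s, t, hst⟩ := hc2
  refine ⟨E F (c * Q (b + 2)) h, ?_, ?_, ?_⟩
  · set w := N (E F (c * Q (b + 2)) h) with hw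
    have hwb : w ∈ fil b := by
      rw [hw, comm F N r hN]
      exact E_mem F _ (hFb b) _ _ hNh
    have h1 : E F (Q b) w = 0 := hQkill b w hwb
    have h2 : E F ((q (b + 2)).comp (C (r : ℚ) * X)) w = 0 := by
      have h3 : q (b + 2) * (c * Q (b + 2)) = c * Q (b + 3) := by
        have h4 : Q (b + 3) = Q (b + 2) * q (b + 2) := Finset.prod_range_succ _ _
        rw [h4]; ring
      have h6 : E F (q (b + 2)) (E F (c * Q (b + 2)) h) = 0 := by
        rw [← Module.End.mul_apply, ← map_mul, h3, map_mul, Module.End.mul_apply,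
          hQkill _ h hh, map_zero]
      rw [hw, ← comm F N r hN, h6, map_zero]
    have h5 : E F 1 w = 0 := by
      rw [← hst, map_add, map_mul, map_mul, LinearMap.add_apply, Module.End.mul_apply,
        Module.End.mul_apply, h1, h2, map_zero, map_zero, add_zero]
    rw [map_one] at h5
    exact h5
  · exact E_mem F _ (hF (b + 2)) _ _ hh
  · have h1 : h - E F (c * Q (b + 2)) h = E F (a * q (b + 2)) h := by
      have h2 : E F (a * q (b + 2) + c * Q (b + 2)) h = h := by
        rw [hac, map_one]; rfl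
      rw [map_add, LinearMap.add_apply] at h2
      rw [eq_comm, eq_sub_iff_add_eq]
      exact h2
    rw [h1, map_mul, Module.End.mul_apply]
    exact E_mem F _ (hF (b + 1)) _ _ (hqf (b + 2) h hh)

end Pool.Agent.Helper60K9.EL
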